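import Pool.Agent.L0h2.M.Stm
import Pool.Agent.L0h2.K.Asy

/-!
# Joint law for distinct twists: the final asymptotics
-/

set_option autoImplicit false
set_option linter.unusedVariables false

open scoped Classical
open Finset Filter

namespace Pool.Agent.L0h2.M

open Pool.Agent.Y703.CQ (nr sg prs HB S_EQ ext GdA S_SYM S_C2 c2)
open Pool.Agent.Y703.CX (sm la jj XX eL zz kk S_SIE eL_tendsto logX_eq rpow_eL HH NN ev_eL one_le_exp
  HH_ge HH_le HH_pos kk_ge kk_le X_pos one_add_log lin_le kap zz_ge zz_pos kap_nonneg kap_pow kap_le)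
open Pool.Agent.R413.SQ (Sml sml_of sml_add sml_many sml_cut sml_coll sml_rpow cmp SS CntP S_BIL Gd)
open Pool.Agent.L0h2.K (qq dR Zc SR Nz cv mem_SR of_SR mk_mod Zc_mod nr_mod dvd_qq qq_pos mod4
  S_HALk S_BADk S_LOWk eta cv_nonneg cv_le_one sml_mono sml_sum SR_sub sml_main)

/-- the sets with few large primes in a class -/
noncomputable def Fd (R : Finset ℕ) (X z κ V c : ℕ) : Finset (Finset ℕ) :=
  (SR R X).filter fun S => ((la z S).filter fun p => p % qq R = c).card ≤ κ * (sm z S).card + V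

/-- the sets outside the regular part -/
theorem out_sub (t : ℕ) (R : Finset ℕ) (a : ℕ → ℕ) (X z H k V c₃ : ℕ)
    (hc₃ : Pool.Agent.R413.SQ.mk c₃ ≠ 1) (cl : Finset ℕ) (h3 : c₃ ∈ cl)
    (ha : ∀ r ∈ R, a r ∈ cl) :
    SR R X \ ((RM t R a X z H k V).filter fun S => Nz R (sm z S) (la z S)) ⊆
      (((((SR R X).filter fun S => k < S.card) ∪
      ((SR R X).filter fun S => S.card ≤ k ∧
        X < (∏ p ∈ sm z S, p) * ∏ p ∈ la z S, XX H (jj H p))) ∪
      ((SR R X).filter fun S => ¬ Set.InjOn (jj H) (la z S : Set ℕ))) ∪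
      (cl.biUnion fun c => Fd R X z (t + 2) ((t + 2) * R.card + 3 * V) c)) ∪
      ((SR R X).filter fun S => S.card ≤ k ∧ ¬ Nz R (sm z S) (la z S)) := by
  intro S hS
  rw [Finset.mem_sdiff, Finset.mem_filter] at hS
  obtain ⟨g1, g2⟩ := hS
  simp only [mem_union, mem_filter, mem_biUnion]
  by_contra hc
  push Not at hc
  obtain ⟨⟨⟨⟨c1, c2⟩, c3⟩, c4⟩, c5⟩ := hc
  have d1 : S.card ≤ k := c1 g1
  have d2 := c2 g1 d1
  have d3 := c3 g1
  have d4 : ∀ c ∈ cl, (t + 2) * (sm z S).card + ((t + 2) * R.card + 3 * V) <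
      ((la z S).filter fun p => p % qq R = c).card := by
    intro c hcl
    have h4 := c4 c hcl
    unfold Fd at h4
    rw [mem_filter] at h4
    by_contra h5
    exact h4 ⟨g1, not_lt.1 h5⟩
  have d5 := c5 g1 d1
  apply g2
  refine ⟨?_, d5⟩
  unfold RM
  rw [mem_filter]
  refine ⟨g1, d3, d1, d2, fun r hr => ?_, ?_⟩
  · have h6 := d4 (a r) (ha r hr)
    have h7 : (t + 2) * ((sm z S).card + R.card) + 3 * V =
        (t + 2) * (sm z S).card + ((t + 2) * R.card + 3 * V) := by ring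
    rw [h7]
    exact h6.le
  · have h5 := d4 c₃ h3
    have h6 : ((la z S).filter fun p => p % qq R = c₃).Nonempty := by
      rw [← card_pos]
      exact lt_of_le_of_lt (Nat.zero_le _) h5
    obtain ⟨p, hp⟩ := h6
    rw [mem_filter] at hp
    refine ⟨p, hp.1, ?_⟩
    rw [← mk_mod R p, hp.2]
    exact hc₃

theorem t_DQm (h1 : S_BIL) (h3 : S_EQ) (h4 : ∀ t, S_LAm t) (h5 : ∀ t, S_BOXm t)
    (hK : ∀ t, S_KEYm t) (hC : CntP) (hS : S_SIE) (hH : S_HALk) (hB : S_BADk) (hF : S_FEWm)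
    (hLo : S_LOWk) (hc2 : S_C2) : S_DQm := by
  intro t R T a h b hD
  obtain ⟨C, hC1, hkey⟩ := hK t h1 h3 (h4 t) (h5 t)
  obtain ⟨CB, XB, hbad⟩ := hB hS hH R hD.pr
  obtain ⟨c, X₀, hc, hlow⟩ := hLo R hD.pr
  have hq0 : (0 : ℝ) < qq R := by exact_mod_cast qq_pos hD.pr
  have heta : 0 < eta R := by unfold Pool.Agent.L0h2.K.eta; positivity
  -- an inert class
  obtain ⟨c₃, hc3q, hc3c, hc34, hc3m⟩ : ∃ c₃ : ℕ, c₃ < qq R ∧ Nat.Coprime c₃ (qq R) ∧ c₃ % 4 = 1 ∧
      Pool.Agent.R413.SQ.mk c₃ ≠ 1 := by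
    have h7 : Nat.Coprime 7 (4 * ∏ r ∈ R, r) := by
      refine Nat.Coprime.mul_right (by norm_num) ?_
      rw [Nat.coprime_prod_right_iff]
      intro u hu
      refine (Nat.coprime_primes (by norm_num) (hD.pr u hu).1).2 fun h => ?_
      have := (hD.pr u hu).2
      omega
    obtain ⟨k, hk1, hk2⟩ := Nat.chineseRemainder h7 3 1
    have hq : qq R = 7 * (4 * ∏ x ∈ R, x) := by
      unfold Pool.Agent.L0h2.K.qq
      ring
    refine ⟨k % qq R, Nat.mod_lt _ (qq_pos hD.pr), ?_, ?_, ?_⟩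
    · have h8 : Nat.Coprime k (qq R) := by
        rw [hq]
        refine Nat.Coprime.mul_right ?_ ?_
        · have := hk1.gcd_eq
          have h3 : Nat.gcd 3 7 = 1 := by norm_num
          rw [h3] at this
          exact this
        · have := hk2.gcd_eq
          rw [Nat.gcd_one_left] at this
          exact this
      rw [Nat.coprime_iff_gcd_eq_one, ← Nat.gcd_rec, Nat.gcd_comm]
      exact h8
    · rw [mod4]
      exact hk2.of_dvd (dvd_mul_right _ _)
    · rw [mk_mod]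
      have h9 : k % 7 = 3 := hk1
      unfold Pool.Agent.R413.SQ.mk
      rw [h9]
      norm_num
  obtain ⟨cl, hcl⟩ : ∃ cl : Finset ℕ, cl = insert c₃ (R.image a) := ⟨_, rfl⟩
  have hq1 : 1 < qq R := by
    have h6 : 1 ≤ ∏ r ∈ R, r := prod_pos fun r hr => (hD.pr r hr).1.pos
    unfold Pool.Agent.L0h2.K.qq
    omega
  have hclp : ∀ c ∈ cl, c < qq R ∧ Nat.Coprime c (qq R) ∧ c % 4 = 1 := by
    intro c hc
    rw [hcl, mem_insert, mem_image] at hc
    rcases hc with rfl | ⟨l, hl, rfl⟩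
    · exact ⟨hc3q, hc3c, hc34⟩
    · exact ⟨hD.lt l hl, hD.cop l hl, hD.a4 l hl⟩
  obtain ⟨cP, hcP⟩ : ∃ cP : ℝ, cP = ∏ l, cv (b l) := ⟨_, rfl⟩
  have hcP0 : 0 ≤ cP := by
    rw [hcP]
    exact prod_nonneg fun l _ => cv_nonneg hc2 _
  have hcP1 : cP ≤ 1 := by
    rw [hcP]
    exact prod_le_one (fun l _ => cv_nonneg hc2 _) fun l _ => cv_le_one hc2 _
  rw [← hcP, Metric.tendsto_nhds]
  intro ε hε
  have hKT : 0 ≤ KT t := by
    unfold KT
    positivity
  obtain ⟨V, hV⟩ := exists_pow_lt_of_lt_one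
    (show (0 : ℝ) < ε / (4 * (KT t + 4 * t + 1)) by positivity)
    (show (1 / 2 : ℝ) < 1 by norm_num)
  have hV' : (KT t + 4 * t) * (1 / 2 : ℝ) ^ V ≤ ε / 4 := by
    have h6 : (0 : ℝ) < KT t + 4 * t + 1 := by positivity
    have h7 := hV.le
    rw [le_div_iff₀ (by positivity)] at h7
    have h8 : (0 : ℝ) ≤ (1 / 2 : ℝ) ^ V := by positivity
    nlinarith
  have s1 : Sml (1 / 2) fun X => (((SR R X).filter fun S => kk X < S.card).card : ℝ) :=
    sml_mono (fun X => SR_sub R X _) (sml_many (I := ∅) (K := ∅) trivial (by norm_num) hC)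
  have s2 : Sml (1 / 2) fun X => (((SR R X).filter fun S => S.card ≤ kk X ∧
      X < (∏ p ∈ sm (zz X) S, p) * ∏ p ∈ la (zz X) S, XX (HH X) (jj (HH X) p)).card : ℝ) :=
    sml_mono (fun X => SR_sub R X _) (sml_cut (I := ∅) (K := ∅) trivial (by norm_num) hC)
  have s3 : Sml (1 / 2) fun X => (((SR R X).filter fun S =>
      ¬ Set.InjOn (jj (HH X)) (la (zz X) S : Set ℕ)).card : ℝ) :=
    sml_mono (fun X => SR_sub R X _) (sml_coll (I := ∅) (K := ∅) trivial (by norm_num) hC)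
  have s4 : Sml (1 / 2) fun X => ∑ c ∈ cl, ((Fd R X (zz X) (t + 2) ((t + 2) * R.card + 3 * V) c).card : ℝ) := by
    refine sml_sum cl _ fun c hc => ?_
    obtain ⟨CF, XF, hfew⟩ := hF hS R hD.pr c (t + 2) ((t + 2) * R.card + 3 * V)
      (hclp c hc).1 (hclp c hc).2.1 (hclp c hc).2.2 (by omega)
    exact sml_rpow (by linarith) hfew
  have s5 := sml_rpow (t := 1 / 2) (by linarith) hbad
  have s6 := sml_main hC1 (t := 1 / 2) (by norm_num) (qq R)
  have s := sml_add (sml_add (sml_add (sml_add (sml_add s1 s2) s3) s4) s5) s6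
  have hδ : (0 : ℝ) < c * ε / 4 := by positivity
  filter_upwards [s (c * ε / 4) hδ, ev_eL 1, eventually_ge_atTop X₀] with X hX hl hX0
  have hl0 : 0 < eL X := by linarith
  have hlo := hlow X hX0
  have e00 : (-(1 / 2) : ℝ) = -(1 / 2) := rfl
  rw [rpow_eL hl0] at hlo
  have hXp := X_pos hl0
  have hXp' : (0 : ℝ) < X := by exact_mod_cast hXp
  have hSpos : (0 : ℝ) < ((SR R X).card : ℝ) := by
    refine lt_of_lt_of_le ?_ hlo
    positivity
  have hN : (HH X : ℝ) * Real.log X < NN X := by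
    unfold Pool.Agent.Y703.CX.NN
    push_cast
    exact Nat.lt_floor_add_one _
  have hmain := hkey R T a h b X (zz X) (HH X) (kk X) V (NN X) (kap C X) hD hXp (HH_pos hl0)
    (zz_pos hl) (kap_nonneg hC1 X) (kap_pow hC1 hl) hN
  rw [← hcP] at hmain
  set Tt := (RM t R a X (zz X) (HH X) (kk X) V).filter
    fun S => Nz R (sm (zz X) S) (la (zz X) S) with hT
  have hTG : (RM t R a X (zz X) (HH X) (kk X) V).filter
      (fun S => Nz R (sm (zz X) S) (la (zz X) S) ∧ Pm t h T b S) = Tt.filter (Pm t h T b) := by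
    rw [hT, filter_filter]
  rw [hTG] at hmain
  have hTS : Tt ⊆ SR R X := (filter_subset _ _).trans (filter_subset _ _)
  have hRS : ((RM t R a X (zz X) (HH X) (kk X) V).card : ℝ) ≤ ((SR R X).card : ℝ) := by
    exact_mod_cast card_le_card (filter_subset _ _)
  have hcmp := cmp (Pm t h T b) Tt (SR R X) hTS cP hcP0 hcP1
  have hout : ((SR R X \ Tt).card : ℝ) ≤
      ((((SR R X).filter fun S => kk X < S.card).card : ℝ) +
      (((SR R X).filter fun S => S.card ≤ kk X ∧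
        X < (∏ p ∈ sm (zz X) S, p) * ∏ p ∈ la (zz X) S, XX (HH X) (jj (HH X) p)).card : ℝ) +
      (((SR R X).filter fun S => ¬ Set.InjOn (jj (HH X)) (la (zz X) S : Set ℕ)).card : ℝ) +
      ∑ c ∈ cl, ((Fd R X (zz X) (t + 2) ((t + 2) * R.card + 3 * V) c).card : ℝ)) +
      (((SR R X).filter fun S => S.card ≤ kk X ∧ ¬ Nz R (sm (zz X) S) (la (zz X) S)).card : ℝ) := by
    have g := card_le_card (out_sub t R a X (zz X) (HH X) (kk X) V c₃ hc3m cl
      (by rw [hcl]; exact mem_insert_self _ _)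
      (fun r hr => by
        rw [hcl]
        exact mem_insert_of_mem (mem_image_of_mem _ hr)))
    rw [← hT] at g
    have g2 := (g.trans (card_union_le _ _)).trans (Nat.add_le_add_right ((card_union_le _ _).trans
      (Nat.add_le_add ((card_union_le _ _).trans
      (Nat.add_le_add_right (card_union_le _ _) _)) card_biUnion_le)) _)
    exact_mod_cast g2
  have htot : |(((SR R X).filter (Pm t h T b)).card : ℝ) - cP * ((SR R X).card : ℝ)| ≤
      (KT t + 4 * t) * (1 / 2 : ℝ) ^ V * ((SR R X).card : ℝ) +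
        c * ε / 4 * (X * Real.exp (-(1 / 2) * eL X)) := by
    have g1 : (KT t + 4 * t) * (1 / 2 : ℝ) ^ V *
        ((RM t R a X (zz X) (HH X) (kk X) V).card : ℝ) ≤
        (KT t + 4 * t) * (1 / 2 : ℝ) ^ V * ((SR R X).card : ℝ) :=
      mul_le_mul_of_nonneg_left hRS (by positivity)
    linarith
  rw [Real.dist_eq]
  have e3 : (((SR R X).filter (Pm t h T b)).card : ℝ) / ((SR R X).card : ℝ) - cP =
      ((((SR R X).filter (Pm t h T b)).card : ℝ) - cP * ((SR R X).card : ℝ)) /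
        ((SR R X).card : ℝ) := by
    rw [sub_div, mul_div_cancel_right₀ _ hSpos.ne']
  rw [e3, abs_div, abs_of_pos hSpos, div_lt_iff₀ hSpos]
  refine lt_of_le_of_lt htot ?_
  have g2 : c * ε / 4 * (X * Real.exp (-(1 / 2) * eL X)) ≤ ε / 4 * ((SR R X).card : ℝ) := by
    calc c * ε / 4 * (X * Real.exp (-(1 / 2) * eL X)) =
          ε / 4 * (c * X * Real.exp (-(1 / 2) * eL X)) := by ring
      _ ≤ _ := mul_le_mul_of_nonneg_left hlo (by linarith)
  have g3 : (KT t + 4 * t) * (1 / 2 : ℝ) ^ V * ((SR R X).card : ℝ) ≤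
      (ε / 4) * ((SR R X).card : ℝ) := mul_le_mul_of_nonneg_right hV' hSpos.le
  have g4 : 0 < ε * ((SR R X).card : ℝ) := by positivity
  linarith

end Pool.Agent.L0h2.M
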