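import Pool.Agent.L0h2.K.PP

/-!
# Joint law for distinct twists: averages over finite groups
-/

set_option autoImplicit false
set_option linter.unusedSectionVars false
set_option linter.unusedVariables false

open scoped Classical

namespace Pool.Agent.L0h2.M

open Function Module
open Pool.Agent.Y759.CX (fr fr_equiv fr_nonneg fr_le_one fr_mono fr_not fr_prod fr_comp fr_exists
  fr_single)
open Pool.Agent.Y219.CQ (F Sy Ns sp fr_avg card_mod finSy finHom finHom2)

/-- the average -/
noncomputable def av {G : Type} (f : G → ℝ) : ℝ := (∑ᶠ g, f g) / Nat.card G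

lemma av_eq {G : Type} [Fintype G] (f : G → ℝ) : av f = (∑ g, f g) / Nat.card G := by
  unfold av
  rw [finsum_eq_sum_of_fintype]

lemma av_fr {G : Type} [Finite G] (P : G → Prop) : av (fun g => if P g then (1 : ℝ) else 0) = fr P := by
  have := Fintype.ofFinite G
  rw [av_eq, Pool.Agent.L0h2.K.fr_sum]

lemma av_mono {G : Type} [Finite G] {f f' : G → ℝ} (h : ∀ g, f g ≤ f' g) : av f ≤ av f' := by
  have := Fintype.ofFinite G
  rw [av_eq, av_eq]
  exact div_le_div_of_nonneg_right (Finset.sum_le_sum fun g _ => h g) (Nat.cast_nonneg _)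

lemma av_sub {G : Type} [Finite G] (f f' : G → ℝ) :
    av (fun g => f g - f' g) = av f - av f' := by
  have := Fintype.ofFinite G
  rw [av_eq, av_eq, av_eq, Finset.sum_sub_distrib, sub_div]

lemma av_const {G : Type} [Finite G] [Nonempty G] (c : ℝ) : av (fun _ : G => c) = c := by
  have := Fintype.ofFinite G
  have h : (Nat.card G : ℝ) ≠ 0 := by
    have h1 : 0 < Nat.card G := Nat.card_pos
    exact_mod_cast h1.ne'
  rw [av_eq, Finset.sum_const, Finset.card_univ, nsmul_eq_mul, ← Nat.card_eq_fintype_card,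
    mul_div_assoc, mul_comm, div_mul_cancel₀ _ h]

lemma av_abs {G : Type} [Finite G] {f f' b : G → ℝ} (h : ∀ g, |f g - f' g| ≤ b g) :
    |av f - av f'| ≤ av b := by
  have := Fintype.ofFinite G
  have h0 : |(Nat.card G : ℝ)| = Nat.card G := abs_of_nonneg (Nat.cast_nonneg _)
  rw [← av_sub, av_eq, av_eq, abs_div, h0]
  exact div_le_div_of_nonneg_right ((Finset.abs_sum_le_sum_abs _ _).trans
    (Finset.sum_le_sum fun g _ => h g)) (Nat.cast_nonneg _)

lemma av_equiv {G H : Type} [Finite G] (e : G ≃ H) (f : H → ℝ) : av (fun g => f (e g)) = av f := by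
  unfold av
  rw [Nat.card_congr e, finsum_comp_equiv e]

lemma av_comp {G H : Type} [AddCommGroup G] [AddCommGroup H] [Finite G] [Finite H] (π : G →+ H)
    (hπ : Surjective π) (f : H → ℝ) : av (fun g => f (π g)) = av f := by
  have := Fintype.ofFinite G
  have := Fintype.ofFinite H
  have hG : (Nat.card G : ℝ) ≠ 0 := by
    have h1 : 0 < Nat.card G := Nat.card_pos
    exact_mod_cast h1.ne'
  have h1 : ∀ h : H, ((Finset.univ.filter fun g => π g = h).card : ℝ) =
      Nat.card G / Nat.card H := by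
    intro h
    have h2 := fr_comp π hπ (fun x => x = h)
    rw [fr_single] at h2
    unfold Pool.Agent.Y759.CX.fr at h2
    rw [Nat.card_eq_fintype_card, Fintype.card_subtype, div_eq_iff hG] at h2
    rw [h2]
    ring
  rw [av_eq, av_eq]
  have h2 : ∑ g, f (π g) = ∑ h, ((Finset.univ.filter fun g => π g = h).card : ℝ) * f h := by
    rw [← Finset.sum_fiberwise (s := Finset.univ) (g := fun g => π g) (f := fun g => f (π g))]
    refine Finset.sum_congr rfl fun h _ => ?_
    rw [Finset.sum_congr rfl (g := fun _ => f h) (fun g hg => by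
      rw [(Finset.mem_filter.1 hg).2]), Finset.sum_const, nsmul_eq_mul]
  rw [h2, Finset.sum_congr rfl fun h _ => by rw [h1 h], ← Finset.mul_sum]
  field_simp

lemma av_shift {G : Type} [AddCommGroup G] [Finite G] (a : G) (f : G → ℝ) :
    av (fun g => f (a + g)) = av f := av_equiv (Equiv.addLeft a) f

lemma av_avg {G H : Type} [AddCommGroup G] [AddCommGroup H] [Finite G] [Finite H] (φ : H →+ G)
    (f : G → ℝ) : av f = av (fun g => av (fun h => f (g + φ h))) := by
  have := Fintype.ofFinite G
  have := Fintype.ofFinite H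
  have hH : (Nat.card H : ℝ) ≠ 0 := by
    have h1 : 0 < Nat.card H := Nat.card_pos
    exact_mod_cast h1.ne'
  rw [av_eq, av_eq]
  have h1 : ∑ g, av (fun h => f (g + φ h)) = ∑ g, f g := by
    simp only [av_eq]
    rw [← Finset.sum_div, Finset.sum_comm]
    have h2 : ∀ h : H, ∑ g, f (g + φ h) = ∑ g, f g := fun h =>
      Equiv.sum_comp (Equiv.addRight (φ h)) f
    rw [Finset.sum_congr rfl fun h _ => h2 h, Finset.sum_const, Finset.card_univ, nsmul_eq_mul,
      ← Nat.card_eq_fintype_card, mul_div_assoc, mul_comm, div_mul_cancel₀ _ hH]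
  rw [h1]

lemma av_pi {ι : Type} [Fintype ι] {G : ι → Type} [∀ i, Finite (G i)] (f : ∀ i, G i → ℝ) :
    av (fun g : ∀ i, G i => ∏ i, f i (g i)) = ∏ i, av (f i) := by
  have := fun i => Fintype.ofFinite (G i)
  simp only [av_eq]
  rw [Finset.prod_div_distrib, ← Fintype.piFinset_univ, ← Finset.prod_univ_sum]
  congr 1
  rw [Nat.card_pi]
  push_cast
  rfl

/-- at most one translate -/
lemma fr_inj {G H : Type} [AddCommGroup G] [AddCommGroup H] [Finite G] [Finite H] (φ : H →+ G)
    (P : G → Prop) (h : ∀ g a b, P (g + φ a) → P (g + φ b) → a = b) : fr P ≤ 1 / Nat.card H := by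
  have := Fintype.ofFinite G
  have := Fintype.ofFinite H
  have hG : (0 : ℝ) < Nat.card G := by exact_mod_cast Nat.card_pos
  rw [fr_avg φ P, div_le_iff₀ hG]
  have h1 : ∀ g, fr (fun h => P (g + φ h)) ≤ 1 / Nat.card H := by
    intro g
    unfold Pool.Agent.Y759.CX.fr
    have h2 : Nat.card {a // P (g + φ a)} ≤ 1 := by
      have : Subsingleton {a // P (g + φ a)} := ⟨fun x y => Subtype.ext (h g x.1 y.1 x.2 y.2)⟩
      exact Finite.card_le_one_iff_subsingleton.2 this
    exact div_le_div_of_nonneg_right (by exact_mod_cast h2) (Nat.cast_nonneg _)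
  refine (Finset.sum_le_sum fun g _ => h1 g).trans (le_of_eq ?_)
  rw [Finset.sum_const, Finset.card_univ, nsmul_eq_mul, ← Nat.card_eq_fintype_card, mul_comm]

/-- the union bound -/
lemma fr_union {G α : Type} [Finite G] (s : Finset α) (P : α → G → Prop) (Q : G → Prop) (ε : ℝ)
    (h1 : ∀ g, Q g → ∃ a ∈ s, P a g) (h2 : ∀ a ∈ s, fr (P a) ≤ ε) : fr Q ≤ s.card * ε := by
  have := Fintype.ofFinite G
  rw [← av_fr]
  have h3 : av (fun g => if Q g then (1 : ℝ) else 0) ≤
      av (fun g => ∑ a ∈ s, if P a g then (1 : ℝ) else 0) := by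
    refine av_mono fun g => ?_
    by_cases hQ : Q g
    · obtain ⟨a, ha, hP⟩ := h1 g hQ
      rw [if_pos hQ]
      refine le_trans ?_ (Finset.single_le_sum (f := fun a => if P a g then (1 : ℝ) else 0)
        (fun b _ => by split_ifs <;> norm_num) ha)
      show (1 : ℝ) ≤ if P a g then 1 else 0
      rw [if_pos hP]
    · rw [if_neg hQ]
      exact Finset.sum_nonneg fun b _ => by split_ifs <;> norm_num
  refine h3.trans ?_
  have h4 : av (fun g => ∑ a ∈ s, if P a g then (1 : ℝ) else 0) = ∑ a ∈ s, fr (P a) := by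
    rw [av_eq, Finset.sum_comm, Finset.sum_div]
    refine Finset.sum_congr rfl fun a _ => ?_
    rw [← av_fr, av_eq]
  rw [h4]
  refine (Finset.sum_le_sum fun a ha => h2 a ha).trans (le_of_eq ?_)
  rw [Finset.sum_const, nsmul_eq_mul]

end Pool.Agent.L0h2.M
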