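import Pool.Agent.L0h2.M.Stm
import Pool.Agent.L0h2.K.BOX

/-! Joint law for distinct twists: the count in a box. -/

set_option autoImplicit false
set_option linter.unusedVariables false

open scoped Classical

namespace Pool.Agent.L0h2.M.BOX

open Finset hiding mk
open Pool.Agent.R413.SQ (mk Gd Sp In)
open Pool.Agent.R413.SQ.BOX (Lb lb LN nr_symm sum_f ez0 ez0_coe gd_iff HB_sub)
open Pool.Agent.Y703.CQ (nr sg prs HB S_EQ ext GdA)
open Pool.Agent.L0h2.K (qq dR Zc SR Nz cv)
open Pool.Agent.L0h2.K.BOX (nz_iff)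

/-- a sum over the small primes and the primes of a twist -/
theorem sum_two {S₀ T : Finset ℕ} (hd : Disjoint S₀ T) (g : ℕ → ZMod 2) :
    ∑ v : ↥(S₀ ∪ T), g v = ∑ v : S₀, g v + ∑ v ∈ T, g v := by
  rw [Finset.sum_coe_sort (S₀ ∪ T) g, Finset.sum_union hd, Finset.sum_coe_sort S₀ g]

/-- **The count in a box.** -/
theorem t_BOXm (t : ℕ) : S_BOXm t := by
  intro hEQ hLA R T f b ι _ _ J1 JZ I K JR C X κ S₀ u Q hκ hCX hHB hS₀ hR hSR hRne hTR hTi hC hCR
    hCZ hCs hZI hIJ hKJ hKI hun hJR hJRI hJRQ hQ hu hdis hne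
  obtain ⟨cc, hcc⟩ : ∃ cc : ℝ, cc = er t u Q K.card := ⟨_, rfl⟩
  rw [← hcc]
  obtain ⟨cP, hcP⟩ : ∃ cP : ℝ, cP = ∏ l, cv (b l) := ⟨_, rfl⟩
  rw [← hcP]
  set Re : ℝ := 2 ^ (prs J1).card * (κ * ∏ j, (X j : ℝ)) with hRe
  have hcc0 : 0 ≤ cc := by
    rw [hcc]
    unfold er KT
    positivity
  have hR0 : 0 ≤ Re := mul_nonneg (by positivity)
    (mul_nonneg hκ (Finset.prod_nonneg fun j _ => by positivity))
  -- facts on tuples
  have hinj : ∀ p ∈ Fintype.piFinset C, Function.Injective p := by
    intro p hp i j hij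
    rw [Fintype.mem_piFinset] at hp
    by_contra hne
    have h1 := Finset.disjoint_left.1 (hdis i j hne) (hp i)
    rw [hij] at h1
    exact h1 (hp j)
  have hJ : ∀ p ∈ Fintype.piFinset C, ∀ i, mk (p i) = 1 ↔ i ∈ J1 := by
    intro p hp i
    rw [Fintype.mem_piFinset] at hp
    exact (hC i _ (hp i)).2.2.2.symm
  have hd : ∀ l, ∀ p ∈ Fintype.piFinset C, ∀ i, p i ∉ S₀ ∪ T l := by
    intro l p hp i
    rw [Fintype.mem_piFinset] at hp
    rw [Finset.mem_union, not_or]
    exact ⟨(hC i _ (hp i)).2.2.1, fun h => hCR i _ (hp i) (hTR l h)⟩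
  have hpr : ∀ p ∈ Fintype.piFinset C, ∀ i, ((p i).Prime ∧ p i % 4 = 1) ∧ p i ≠ 2 := by
    intro p hp i
    rw [Fintype.mem_piFinset] at hp
    exact ⟨(hC i _ (hp i)).1, (hC i _ (hp i)).2.1⟩
  have hZ : ∀ p ∈ Fintype.piFinset C, ∀ i, Zc R (p i) ↔ i ∈ JZ := by
    intro p hp i
    rw [Fintype.mem_piFinset] at hp
    exact (hCZ i _ (hp i)).symm
  have hST : ∀ l, Disjoint S₀ (T l) := fun l => Disjoint.mono_right (hTR l) hSR
  have hSp : ∀ l, ∀ v ∈ S₀ ∪ T l, (v.Prime ∧ v % 4 = 1) ∧ v ≠ 2 := by
    intro l v hv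
    rcases Finset.mem_union.1 hv with h | h
    · exact hS₀ v h
    · exact hR v (hTR l h)
  have hU1 : ∀ l, (univ.filter fun v : ↥(S₀ ∪ T l) => mk (v : ℕ) = 1).card ≤ u := by
    intro l
    refine (Finset.card_le_univ _).trans ?_
    rw [Fintype.card_coe]
    exact (Finset.card_union_le _ _).trans ((Nat.add_le_add_left (Finset.card_le_card (hTR l)) _).trans hu)
  have hQI : Q ≤ I.card := by
    obtain ⟨r, hr⟩ := hRne
    exact (hJRQ r hr).trans (Finset.card_le_card (hJRI r hr))
  -- the part with given labels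
  have h1 : ∀ β : ι → Lb S₀, LN S₀ JZ β →
      |(((Fintype.piFinset C).filter fun p => (fun i => lb f S₀ (p i)) = β ∧
          Pm t f T b (S₀ ∪ univ.image p)).card : ℝ) -
        cP * (((Fintype.piFinset C).filter fun p => (fun i => lb f S₀ (p i)) = β).card : ℝ)| ≤
      cc * (((Fintype.piFinset C).filter fun p => (fun i => lb f S₀ (p i)) = β).card : ℝ) + Re := by
    intro β hβ
    by_cases hemp : ((Fintype.piFinset C).filter fun p => (fun i => lb f S₀ (p i)) = β) = ∅
    · have he2 : ((Fintype.piFinset C).filter fun p => (fun i => lb f S₀ (p i)) = β ∧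
          Pm t f T b (S₀ ∪ univ.image p)) = ∅ := by
        rw [← Finset.filter_filter, hemp, Finset.filter_empty]
      rw [he2, hemp]
      simpa using hR0
    obtain ⟨p₀, hp₀⟩ := Finset.nonempty_iff_ne_empty.2 hemp
    rw [Finset.mem_filter] at hp₀
    obtain ⟨hp₀, hp₀β⟩ := hp₀
    have hp₀m := hp₀
    rw [Fintype.mem_piFinset] at hp₀m
    set C' : ι → Finset ℕ := fun i => (C i).filter fun q => lb f S₀ q = β i with hC'
    have hpi : (Fintype.piFinset C).filter (fun p => (fun i => lb f S₀ (p i)) = β) =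
        Fintype.piFinset C' := by
      ext p
      simp only [Finset.mem_filter, Fintype.mem_piFinset, hC']
      constructor
      · rintro ⟨h2, h3⟩ i
        exact ⟨h2 i, congrFun h3 i⟩
      · intro h2
        exact ⟨fun i => (h2 i).1, funext fun i => (h2 i).2⟩
    -- the symbols of the primes of the private classes
    have hsw : ∀ k, ∀ r ∈ R, nr (p₀ k) r = nr r (p₀ k) := fun k r hr =>
      nr_symm (hpr p₀ hp₀ k).1.1 (hpr p₀ hp₀ k).1.2 (hR r hr).1.1 (hR r hr).2
    have hpriv : ∀ r ∈ R, ∀ k ∈ JR r, ∀ r' ∈ R, nr (p₀ k) r' = if r' = r then 1 else 0 := by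
      intro r hr k hk r' hr'
      have h3 := hJR r hr k hk (p₀ k) (hp₀m k)
      rw [hsw k r' hr']
      by_cases h4 : r' = r
      · rw [if_pos h4, h4]
        exact h3.1
      · rw [if_neg h4]
        exact h3.2 r' hr' h4
    have hdR : ∀ r ∈ R, ∀ k ∈ JR r, ∀ l, ∑ v ∈ T l, nr (p₀ k) v = if r ∈ T l then 1 else 0 := by
      intro r hr k hk l
      rw [Finset.sum_congr rfl fun v hv => hpriv r hr k hk v (hTR l hv), Finset.sum_ite_eq']
    have h2 := hLA (fun l => ↥(S₀ ∪ T l)) ι (fun l => univ.filter fun v : ↥(S₀ ∪ T l) =>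
      mk (v : ℕ) = 1) J1 hne
      (fun l v w => nr v w) (fun l v k => nr v (p₀ k)) (fun l k v => nr (p₀ k) v)
      (fun l v => f v) (fun l k => f (p₀ k)) I K u Q hIJ hKJ hKI hun hU1 hQI
      (by
        intro i l hil
        have h3 : T i ≠ T l := fun h => hil (hTi h)
        obtain ⟨r, hr⟩ : ∃ r, ¬ (r ∈ T i ↔ r ∈ T l) := by
          by_contra h
          push Not at h
          exact h3 (Finset.ext h)
        have hrR : r ∈ R := by
          by_contra h
          exact hr ⟨fun h' => absurd (hTR i h') h, fun h' => absurd (hTR l h') h⟩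
        refine (hJRQ r hrR).trans (Finset.card_le_card fun k hk => ?_)
        rw [Finset.mem_filter]
        refine ⟨hJRI r hrR hk, ?_⟩
        rw [sum_two (hST i) (fun v => nr (p₀ k) v), sum_two (hST l) (fun v => nr (p₀ k) v),
          hdR r hrR k hk i, hdR r hrR k hk l]
        intro h
        have h4 := add_left_cancel (add_right_cancel h)
        by_cases h5 : r ∈ T i
        · rw [if_pos h5, if_neg (fun h6 => hr ⟨fun _ => h6, fun _ => h5⟩)] at h4
          exact one_ne_zero h4
        · by_cases h6 : r ∈ T l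
          · rw [if_neg h5, if_pos h6] at h4
            exact zero_ne_one h4
          · exact hr ⟨fun h => absurd h h5, fun h => absurd h h6⟩)
      (by
        intro l v hv w hw
        exact nr_symm (hSp l v v.2).1.1 (hSp l v v.2).1.2 (hSp l w w.2).1.1 (hSp l w w.2).2)
      (by
        intro l v hv k hk
        exact nr_symm (hSp l v v.2).1.1 (hSp l v v.2).1.2 (hpr p₀ hp₀ k).1.1 (hpr p₀ hp₀ k).2)
      (by
        rintro l w hw0 ⟨v, hv⟩
        have e1 : ∀ k, ∑ v : ↥(S₀ ∪ T l), w v * nr (p₀ k) v =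
            ∑ v : S₀, ez0 w v * nr (p₀ k) v + ∑ v ∈ T l, ez0 w v * nr (p₀ k) v := by
          intro k
          rw [← sum_two (hST l) (fun v => ez0 w v * nr (p₀ k) v)]
          exact Finset.sum_congr rfl fun v _ => by rw [ez0_coe]
        have hmk : ∀ v : ↥(S₀ ∪ T l), w v ≠ 0 → mk (v : ℕ) = 1 := by
          intro v hv
          by_contra h8
          exact hv (hw0 v fun hu' => h8 (Finset.mem_filter.1 hu').2)
        by_cases hex : ∃ v : S₀, ez0 w v ≠ 0
        · obtain ⟨v0, hv0⟩ := hex
          have hv0' : w ⟨v0, Finset.mem_union_left _ v0.2⟩ ≠ 0 := by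
            rw [← ez0_coe w ⟨v0, Finset.mem_union_left _ v0.2⟩]
            exact hv0
          obtain ⟨k, hk, hk2⟩ := hβ (fun v => ez0 w v) ⟨v0, hmk _ hv0', hv0⟩
          refine ⟨k, hZI hk, ?_⟩
          rw [e1]
          have h3 : ∑ v ∈ T l, ez0 w v * nr (p₀ k) v = 0 := by
            refine Finset.sum_eq_zero fun v hv => ?_
            have h4 := ((hZ p₀ hp₀ k).2 hk).2 v (hTR l hv)
            rw [hsw k v (hTR l hv), h4, mul_zero]
          rw [h3, add_zero]
          rw [Finset.sum_filter] at hk2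
          intro h0
          apply hk2
          refine Eq.trans ?_ h0
          refine Finset.sum_congr rfl fun v _ => ?_
          have h5 : (β k).2.1 v = nr (p₀ k) v := by
            rw [← hp₀β]
            rfl
          split_ifs with h8
          · rw [h5]
          · have h6 : ez0 w v = 0 := by
              have h7 := ez0_coe w ⟨v, Finset.mem_union_left _ v.2⟩
              have h9 : w ⟨v, Finset.mem_union_left _ v.2⟩ = 0 := by
                by_contra h
                exact h8 (hmk _ h)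
              exact h7.trans h9
            rw [h6, zero_mul]
        · push Not at hex
          have hvT : (v : ℕ) ∈ T l := by
            rcases Finset.mem_union.1 v.2 with h | h
            · exfalso
              apply hv
              rw [← ez0_coe w v]
              exact hex ⟨v, h⟩
            · exact h
          have hvR := hTR l hvT
          obtain ⟨k, hk⟩ : (JR v).Nonempty := by
            rw [← Finset.card_pos]
            exact lt_of_lt_of_le hQ (hJRQ v hvR)
          refine ⟨k, hJRI v hvR hk, ?_⟩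
          rw [e1, Finset.sum_eq_zero (fun v _ => by rw [hex v, zero_mul]), zero_add,
            Finset.sum_congr rfl (fun v' hv' => by rw [hpriv v hvR k hk v' (hTR l hv')]),
            Finset.sum_eq_single_of_mem (v : ℕ) hvT (fun v' _ hv' => by
              rw [if_neg hv', mul_zero]), if_pos rfl, mul_one, ez0_coe]
          exact hv) b
    rw [← hcP] at h2
    obtain ⟨Q', hQ'⟩ : ∃ Q' : (prs J1 → ZMod 2) → Prop, Q' = fun α => ∀ l, (GdA
      (univ.filter fun v : ↥(S₀ ∪ T l) => mk (v : ℕ) = 1) J1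
      (fun v w : ↥(S₀ ∪ T l) => nr v w) (fun (v : ↥(S₀ ∪ T l)) k => nr v (p₀ k))
      (fun k (v : ↥(S₀ ∪ T l)) => nr (p₀ k) v)
      (Pool.Agent.Y703.CQ.ext α) (fun v : ↥(S₀ ∪ T l) => f v)
      (fun k => f (p₀ k)) ↔ b l = true) := ⟨_, rfl⟩
    have hcardQ : ∀ (P : (prs J1 → ZMod 2) → Prop) (I : DecidablePred P), P = Q' →
        (@Finset.filter _ P I univ).card = (univ.filter Q').card := by
      intro P I h
      subst h
      have e : I = fun a => Classical.propDecidable (P a) := Subsingleton.elim _ _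
      rw [e]
    rw [hcardQ _ _ hQ'.symm] at h2
    have h3 := hEQ ι J1 C' X κ hκ
      (fun i => (Finset.card_le_card (Finset.filter_subset _ _)).trans (hCX i))
      (HB_sub hHB fun i q => lb f S₀ q = β i) Q'
    have h4 : ((Fintype.piFinset C).filter fun p => (fun i => lb f S₀ (p i)) = β ∧
        Pm t f T b (S₀ ∪ univ.image p)) = ((Fintype.piFinset C').filter fun p =>
          Q' fun e => nr (p e.1.1) (p e.1.2)) := by
      rw [← hpi, Finset.filter_filter]
      refine Finset.filter_congr fun p hp => ?_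
      refine and_congr_right fun hl => ?_
      rw [hQ']
      refine forall_congr' fun l => ?_
      have hun' : S₀ ∪ univ.image p ∪ T l = (S₀ ∪ T l) ∪ univ.image p := by
        rw [Finset.union_assoc, Finset.union_comm (univ.image p), ← Finset.union_assoc]
      rw [hun', gd_iff f (hinj p hp) (hpr p hp) (hd l p hp) (hJ p hp)]
      have hpm := hp
      rw [Fintype.mem_piFinset] at hpm
      have hlb : ∀ k, lb f S₀ (p k) = lb f S₀ (p₀ k) := fun k =>
        (congrFun hl k).trans (congrFun hp₀β k).symm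
      have g1 : ∀ k, ∀ v ∈ S₀ ∪ T l, nr v (p k) = nr v (p₀ k) := by
        intro k v hv
        rcases Finset.mem_union.1 hv with h | h
        · exact congrFun (congrArg (fun x : Lb S₀ => x.1) (hlb k)) ⟨v, h⟩
        · exact hCs k _ (hpm k) _ (hp₀m k) v (hTR l h)
      have g2 : ∀ k, ∀ v ∈ S₀ ∪ T l, nr (p k) v = nr (p₀ k) v := by
        intro k v hv
        rw [nr_symm (hpr p hp k).1.1 (hpr p hp k).1.2 (hSp l v hv).1.1 (hSp l v hv).2,
          nr_symm (hpr p₀ hp₀ k).1.1 (hpr p₀ hp₀ k).1.2 (hSp l v hv).1.1 (hSp l v hv).2]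
        exact g1 k v hv
      have g3 : (fun k => f (p k)) = fun k => f (p₀ k) := by
        funext k
        exact congrArg (fun x : Lb S₀ => x.2.2) (hlb k)
      have g4 : (fun (v : ↥(S₀ ∪ T l)) k => nr v (p k)) = fun (v : ↥(S₀ ∪ T l)) k =>
          nr v (p₀ k) := by
        funext v k
        exact g1 k v v.2
      have g5 : (fun k (v : ↥(S₀ ∪ T l)) => nr (p k) v) = fun k (v : ↥(S₀ ∪ T l)) =>
          nr (p₀ k) v := by
        funext k v
        exact g2 k v v.2
      rw [g3, g4, g5]
    have h5 : (((Fintype.piFinset C').card : ℕ) : ℝ) = ∏ j, ((C' j).card : ℝ) := by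
      rw [Fintype.card_piFinset]
      push_cast
      rfl
    rw [h4, hpi, h5]
    have h2' : |((univ.filter Q').card : ℝ) / 2 ^ (prs J1).card - cP| ≤ cc := by
      rw [hcc]
      exact h2
    set n : ℝ := (((Fintype.piFinset C').filter fun p =>
          Q' fun e => nr (p e.1.1) (p e.1.2)).card : ℝ) with hn
    set q : ℝ := ((univ.filter Q').card : ℝ) / 2 ^ (prs J1).card with hq
    set P : ℝ := ∏ j, ((C' j).card : ℝ) with hP
    have hP0 : 0 ≤ P := Finset.prod_nonneg fun j _ => by positivity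
    have h6 : |n - cP * P| ≤ |n - q * P| + |q - cP| * P := by
      have h7 : n - cP * P = (n - q * P) + (q - cP) * P := by ring
      have h8 : |(q - cP) * P| = |q - cP| * P := by rw [abs_mul, abs_of_nonneg hP0]
      rw [h7, ← h8]
      exact abs_add_le _ _
    have h7 : |q - cP| * P ≤ cc * P := mul_le_mul_of_nonneg_right h2' hP0
    have h8 : |n - q * P| ≤ Re := h3
    linarith
  -- sum over the labels
  set LL := univ.filter (fun β : ι → Lb S₀ => LN S₀ JZ β) with hLL
  have hfib : ∀ T' : (ι → ℕ) → Prop,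
      (((Fintype.piFinset C).filter fun p => Nz R S₀ (univ.image p) ∧ T' p).card : ℝ) =
      ∑ β ∈ LL, (((Fintype.piFinset C).filter fun p =>
        (fun i => lb f S₀ (p i)) = β ∧ T' p).card : ℝ) := by
    intro T'
    rw [Finset.card_eq_sum_card_fiberwise (f := fun (p : ι → ℕ) (i : ι) => lb f S₀ (p i))
      (t := LL) (by
        intro p hp
        rw [Finset.mem_coe, Finset.mem_filter] at hp
        rw [Finset.mem_coe, hLL, Finset.mem_filter]
        exact ⟨Finset.mem_univ _, (nz_iff f (hZ p hp.1)).1 hp.2.1⟩)]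
    push_cast
    refine Finset.sum_congr rfl fun β hβ => ?_
    rw [hLL, Finset.mem_filter] at hβ
    congr 2
    ext p
    simp only [Finset.mem_filter]
    constructor
    · rintro ⟨⟨h3, h4, h4'⟩, h5⟩
      exact ⟨h3, h5, h4'⟩
    · rintro ⟨h3, h4, h5⟩
      refine ⟨⟨h3, ?_, h5⟩, h4⟩
      rw [nz_iff f (hZ p h3), h4]
      exact hβ.2
  have hf1 := hfib fun p => Pm t f T b (S₀ ∪ univ.image p)
  have hf2 := hfib fun _ => True
  simp only [and_true] at hf2
  rw [hf1, hf2, Finset.mul_sum, ← Finset.sum_sub_distrib]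
  refine (Finset.abs_sum_le_sum_abs _ _).trans ?_
  refine (Finset.sum_le_sum fun β hβ => h1 β (Finset.mem_filter.1 hβ).2).trans ?_
  rw [Finset.sum_add_distrib, ← Finset.mul_sum, Finset.sum_const, nsmul_eq_mul]
  have h5 : ((LL.card : ℕ) : ℝ) ≤ 2 ^ ((2 * S₀.card + 1) * Fintype.card ι) := by
    have h6 : LL.card ≤ Fintype.card (ι → Lb S₀) := Finset.card_le_univ _
    rw [Fintype.card_fun, Fintype.card_prod, Fintype.card_prod, Fintype.card_fun, ZMod.card,
      Fintype.card_coe, ← pow_succ, ← pow_add, ← pow_mul] at h6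
    have h7 : (S₀.card + (S₀.card + 1)) * Fintype.card ι = (2 * S₀.card + 1) * Fintype.card ι := by
      ring
    rw [h7] at h6
    exact_mod_cast h6
  have h6 := mul_le_mul_of_nonneg_right h5 hR0
  rw [pow_add, mul_assoc]
  linarith

end Pool.Agent.L0h2.M.BOX
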