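import Pool.Agent.L0h2.M.Av

/-!
# Joint law for distinct twists: the corank of a bordered form
-/

set_option autoImplicit false
set_option linter.unusedSectionVars false
set_option linter.unusedVariables false

open scoped Classical

namespace Pool.Agent.L0h2.M

open Function Module
open Pool.Agent.Y219.CQ (F Sy Ns sp fr_avg card_mod finSy finHom finHom2)

section bd

variable {Y : Type} [AddCommGroup Y] [Module F Y] [Finite Y]

/-- the radical of a form on a subspace -/
def rad (M : Y →ₗ[F] Y →ₗ[F] F) (L : Submodule F Y) : Submodule F Y where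
  carrier := {y | y ∈ L ∧ ∀ y' ∈ L, M y y' = 0}
  zero_mem' := ⟨L.zero_mem, fun y' _ => by rw [map_zero]; rfl⟩
  add_mem' := fun {a b} ha hb => ⟨L.add_mem ha.1 hb.1, fun y' hy => by
    rw [map_add, LinearMap.add_apply, ha.2 y' hy, hb.2 y' hy, add_zero]⟩
  smul_mem' := fun c a ha => ⟨L.smul_mem c ha.1, fun y' hy => by
    rw [map_smul, LinearMap.smul_apply, ha.2 y' hy, smul_zero]⟩

lemma mem_rad {M : Y →ₗ[F] Y →ₗ[F] F} {L : Submodule F Y} {y : Y} :
    y ∈ rad M L ↔ y ∈ L ∧ ∀ y' ∈ L, M y y' = 0 := Iff.rfl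

/-- the quadratic function of a symmetric form is additive -/
lemma q_add {M : Y →ₗ[F] Y →ₗ[F] F} (hM : ∀ x y, M x y = M y x) (x y : Y) :
    M (x + y) (x + y) = M x x + M y y := by
  simp only [map_add, LinearMap.add_apply]
  rw [hM y x]
  have h := CharTwo.add_self_eq_zero (M x y)
  calc M x x + M x y + (M x y + M y y) = M x x + M y y + (M x y + M x y) := by ring
    _ = _ := by rw [h, add_zero]

lemma q_smul {M : Y →ₗ[F] Y →ₗ[F] F} (c : F) (x : Y) : M (c • x) (c • x) = c * M x x := by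
  simp only [map_smul, LinearMap.smul_apply, smul_eq_mul]
  have h : ∀ c : F, c * c = c := by decide
  rw [← mul_assoc, h]

/-- the extended radical -/
def rx (M : Y →ₗ[F] Y →ₗ[F] F) (hM : ∀ x y, M x y = M y x) (L : Submodule F Y) :
    Submodule F (Y × F) where
  carrier := {z | z.1 ∈ L ∧ ∀ y' ∈ L, M z.1 y' = z.2 * M y' y'}
  zero_mem' := ⟨L.zero_mem, fun y' _ => by
    show M 0 y' = 0 * M y' y'
    rw [map_zero, zero_mul]; rfl⟩
  add_mem' := fun {a b} ha hb => ⟨L.add_mem ha.1 hb.1, fun y' hy => by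
    show M (a.1 + b.1) y' = (a.2 + b.2) * M y' y'
    rw [map_add, LinearMap.add_apply, ha.2 y' hy, hb.2 y' hy, add_mul]⟩
  smul_mem' := fun c a ha => ⟨L.smul_mem c ha.1, fun y' hy => by
    show M (c • a.1) y' = (c * a.2) * M y' y'
    rw [map_smul, LinearMap.smul_apply, ha.2 y' hy, smul_eq_mul, mul_assoc]⟩

lemma mem_rx {M : Y →ₗ[F] Y →ₗ[F] F} {hM : ∀ x y, M x y = M y x} {L : Submodule F Y} {z : Y × F} :
    z ∈ rx M hM L ↔ z.1 ∈ L ∧ ∀ y' ∈ L, M z.1 y' = z.2 * M y' y' := Iff.rfl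

/-- a functional which is zero on the radical is given by the form -/
lemma ex_of_rad {M : Y →ₗ[F] Y →ₗ[F] F} (hM : ∀ x y, M x y = M y x) (L : Submodule F Y)
    (f : L →ₗ[F] F) (hf : ∀ y (hy : y ∈ rad M L), f ⟨y, hy.1⟩ = 0) :
    ∃ w ∈ L, ∀ y' (hy' : y' ∈ L), M w y' = f ⟨y', hy'⟩ := by
  let T : L →ₗ[F] (L →ₗ[F] F) :=
    { toFun := fun w => (M w) ∘ₗ L.subtype
      map_add' := fun a b => by
        refine LinearMap.ext fun y => ?_
        show M (a + b) y = M a y + M b y
        rw [map_add]; rfl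
      map_smul' := fun c a => by
        refine LinearMap.ext fun y => ?_
        show M (c • (a : Y)) y = c • M a y
        rw [map_smul]; rfl }
  by_contra hne
  have h1 : f ∉ LinearMap.range T := by
    rintro ⟨w, hw⟩
    exact hne ⟨w, w.2, fun y' hy' => by rw [← hw]; rfl⟩
  obtain ⟨φ, hφ1, hφ2⟩ := Submodule.exists_dual_map_eq_bot_of_notMem h1 inferInstance
  obtain ⟨y, hy⟩ := (Module.evalEquiv F L).surjective φ
  have h2 : ∀ g : L →ₗ[F] F, φ g = g y := fun g => by rw [← hy]; rfl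
  apply hφ1
  rw [h2]
  refine hf y ⟨y.2, fun y' hy' => ?_⟩
  have h3 : φ (T ⟨y', hy'⟩) = 0 := by
    have h4 : φ (T ⟨y', hy'⟩) ∈ Submodule.map φ (LinearMap.range T) :=
      Submodule.mem_map_of_mem ⟨_, rfl⟩
    rw [hφ2] at h4
    exact h4
  rw [h2] at h3
  rw [hM]
  exact h3

/-- the diagonal vector -/
lemma ex_diag {M : Y →ₗ[F] Y →ₗ[F] F} (hM : ∀ x y, M x y = M y x) (L : Submodule F Y) :
    ∃ w ∈ L, ∀ y' ∈ L, M w y' = M y' y' := by
  let f : L →ₗ[F] F :=
    { toFun := fun y => M y y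
      map_add' := fun a b => q_add hM _ _
      map_smul' := fun c a => q_smul c _ }
  obtain ⟨w, hw, h⟩ := ex_of_rad hM L f fun y hy => hy.2 y hy.1
  exact ⟨w, hw, fun y' hy' => h y' hy'⟩

lemma rx_rank {M : Y →ₗ[F] Y →ₗ[F] F} (hM : ∀ x y, M x y = M y x) (L : Submodule F Y) :
    finrank F (rx M hM L) = finrank F (rad M L) + 1 := by
  obtain ⟨w, hw, hw'⟩ := ex_diag hM L
  let φ : rx M hM L →ₗ[F] F := (LinearMap.snd F Y F) ∘ₗ (rx M hM L).subtype
  have h1 := LinearMap.finrank_range_add_finrank_ker φ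
  have h2 : LinearMap.range φ = ⊤ := by
    rw [LinearMap.range_eq_top]
    intro c
    refine ⟨⟨(c • w, c), L.smul_mem c hw, fun y' hy' => ?_⟩, rfl⟩
    show M (c • w) y' = c * M y' y'
    rw [map_smul, LinearMap.smul_apply, hw' y' hy', smul_eq_mul]
  rw [h2, finrank_top, finrank_self] at h1
  have h3 : finrank F (LinearMap.ker φ) = finrank F (rad M L) := by
    refine LinearEquiv.finrank_eq
      { toFun := fun z => ⟨z.1.1.1, z.1.2.1, fun y' hy' => by
          have h4 : z.1.1.2 = 0 := z.2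
          rw [z.1.2.2 y' hy', h4, zero_mul]⟩
        map_add' := fun _ _ => rfl
        map_smul' := fun _ _ => rfl
        invFun := fun y => ⟨⟨(y.1, 0), y.2.1, fun y' hy' => by
          show M y.1 y' = 0 * M y' y'
          rw [zero_mul]
          exact y.2.2 y' hy'⟩, rfl⟩
        left_inv := fun z => by
          refine Subtype.ext (Subtype.ext (Prod.ext rfl ?_))
          exact (show z.1.1.2 = 0 from z.2).symm
        right_inv := fun _ => rfl }
  omega

/-- the second component of the extended radical -/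
noncomputable def cf (M : Y →ₗ[F] Y →ₗ[F] F) (hM : ∀ x y, M x y = M y x) (L : Submodule F Y) :
    rx M hM L →ₗ[F] F := (LinearMap.snd F Y F) ∘ₗ (rx M hM L).subtype

lemma cf_ne {M : Y →ₗ[F] Y →ₗ[F] F} (hM : ∀ x y, M x y = M y x) (L : Submodule F Y) :
    cf M hM L ≠ 0 := by
  obtain ⟨w, hw, hw'⟩ := ex_diag hM L
  intro h
  have h1 := LinearMap.congr_fun h ⟨(w, 1), hw, fun y' hy' => by
    show M w y' = 1 * M y' y'
    rw [one_mul]
    exact hw' y' hy'⟩
  exact one_ne_zero (α := F) h1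

/-- the border -/
noncomputable def bd (M : Y →ₗ[F] Y →ₗ[F] F) (R : Submodule F (Y × F)) (e : Y) : R →ₗ[F] F where
  toFun z := M z.1.1 e + z.1.2 * M e e
  map_add' a b := by
    show M (a.1.1 + b.1.1) e + (a.1.2 + b.1.2) * M e e = _
    rw [map_add, LinearMap.add_apply]
    ring
  map_smul' c a := by
    show M (c • a.1.1) e + (c * a.1.2) * M e e = c * (M a.1.1 e + a.1.2 * M e e)
    rw [map_smul, LinearMap.smul_apply, smul_eq_mul]
    ring

/-- **The corank of a bordered form.** -/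
theorem bord {M0 M : Y →ₗ[F] Y →ₗ[F] F} (hM0 : ∀ x y, M0 x y = M0 y x)
    (hM : ∀ x y, M x y = M y x) (L0 L : Submodule F Y) (φ : Y →ₗ[F] F) (e : Y)
    (hL : ∀ y, y ∈ L0 ↔ y ∈ L ∧ φ y = 0) (he : e ∈ L) (hφ : φ e = 1)
    (hMM : ∀ y ∈ L0, ∀ y' ∈ L0, M y y' = M0 y y') :
    finrank F (rad M L) =
      if bd M (rx M0 hM0 L0) e = 0 then finrank F (rad M0 L0) + 1
      else if bd M (rx M0 hM0 L0) e = cf M0 hM0 L0 then finrank F (rad M0 L0)
      else finrank F (rad M0 L0) - 1 := by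
  have hrad : rad M0 L0 = rad M L0 := by
    ext y
    exact ⟨fun h => ⟨h.1, fun y' hy' => by rw [hMM y h.1 y' hy']; exact h.2 y' hy'⟩,
      fun h => ⟨h.1, fun y' hy' => by rw [← hMM y h.1 y' hy']; exact h.2 y' hy'⟩⟩
  obtain ⟨w, hw, hw'⟩ := ex_diag hM L0
  obtain ⟨wz, hwz⟩ : ∃ wz : rx M0 hM0 L0, wz = ⟨(w, 1), hw, fun y' hy' => by
    show M0 w y' = 1 * M0 y' y'
    rw [one_mul, ← hMM w hw y' hy', ← hMM y' hy' y' hy']
    exact hw' y' hy'⟩ := ⟨_, rfl⟩
  have hsub : L0 ≤ L := fun y hy => ((hL y).1 hy).1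
  -- decomposition
  have hdec : ∀ y ∈ L, y - φ y • e ∈ L0 := fun y hy => (hL _).2
    ⟨L.sub_mem hy (L.smul_mem _ he), by rw [map_sub, map_smul, hφ, smul_eq_mul, mul_one, sub_self]⟩
  -- restriction of φ to the radical
  let ψ : rad M L →ₗ[F] F := φ ∘ₗ (rad M L).subtype
  have h1 := LinearMap.finrank_range_add_finrank_ker ψ
  -- the kernel
  let χ : rad M L0 →ₗ[F] F := (M.flip e) ∘ₗ (rad M L0).subtype
  have hχ : ∀ y, χ y = M y e := fun _ => rfl
  have h2 := LinearMap.finrank_range_add_finrank_ker χ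
  have h3 : finrank F (LinearMap.ker ψ) = finrank F (LinearMap.ker χ) := by
    refine LinearEquiv.finrank_eq
      { toFun := fun z => ⟨⟨z.1.1, (hL _).2 ⟨z.1.2.1, z.2⟩, fun y' hy' =>
          z.1.2.2 y' (hsub hy')⟩, z.1.2.2 e he⟩
        map_add' := fun _ _ => rfl
        map_smul' := fun _ _ => rfl
        invFun := fun y => ⟨⟨y.1.1, hsub y.1.2.1, fun y' hy' => by
          have h4 := y.1.2.2 _ (hdec y' hy')
          rw [map_sub, map_smul, sub_eq_zero] at h4
          have h5 : M y.1.1 e = 0 := y.2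
          rw [h4, h5, smul_zero]⟩, ((hL _).1 y.1.2.1).2⟩
        left_inv := fun _ => rfl
        right_inv := fun _ => rfl }
  have hb : ∀ z : rx M0 hM0 L0, bd M (rx M0 hM0 L0) e z = M z.1.1 e + z.1.2 * M e e := fun _ => rfl
  have hc : ∀ z : rx M0 hM0 L0, cf M0 hM0 L0 z = z.1.2 := fun _ => rfl
  have hall : ∀ c : F, c = 0 ∨ c = 1 := by decide
  -- membership of the radical in the extended radical
  have hin : ∀ y (hy : y ∈ rad M L0), (y, (0 : F)) ∈ rx M0 hM0 L0 := fun y hy =>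
    ⟨hy.1, fun y' hy' => by
      show M0 y y' = 0 * M0 y' y'
      rw [zero_mul, ← hMM y hy.1 y' hy']
      exact hy.2 y' hy'⟩
  -- elements of the radical outside of the hyperplane
  have hout : ∀ z : rad M L, φ z ≠ 0 → ∃ y0 ∈ L0, (∀ y' ∈ L0, M y0 y' = M e y') ∧
      M y0 e = M e e := by
    intro z hz
    have hz1 : φ z = 1 := (hall _).resolve_left hz
    refine ⟨z - φ z • e, hdec z z.2.1, fun y' hy' => ?_, ?_⟩
    · rw [hz1, one_smul, map_sub, LinearMap.sub_apply, z.2.2 y' (hsub hy'), zero_sub,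
        CharTwo.neg_eq]
    · rw [hz1, one_smul, map_sub, LinearMap.sub_apply, z.2.2 e he, zero_sub, CharTwo.neg_eq]
  have hin2 : ∀ y0 ∈ L0, (∀ y' ∈ L0, M y0 y' = M e y') → M y0 e = M e e →
      y0 + e ∈ rad M L := by
    intro y0 hy0 h h'
    refine ⟨L.add_mem (hsub hy0) he, fun y' hy' => ?_⟩
    have h4 := h _ (hdec y' hy')
    rw [map_sub, map_sub, map_smul, map_smul, h'] at h4
    have h5 : M y0 y' = M e y' := sub_left_inj.1 h4
    rw [map_add, LinearMap.add_apply, h5, CharTwo.add_self_eq_zero]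
  -- the value at the diagonal vector
  have hval : ∀ y0 ∈ L0, (∀ y' ∈ L0, M y0 y' = M e y') →
      bd M (rx M0 hM0 L0) e wz = M y0 e + M e e := by
    intro y0 hy0 h
    rw [hb, hwz]
    show M w e + 1 * M e e = _
    rw [one_mul, hM w e, ← h w hw, hM y0 w, hw' y0 hy0, h y0 hy0, hM e y0]
  rw [hrad]
  by_cases hχ0 : χ = 0
  · -- the border is zero on the radical
    obtain ⟨y0, hy0, hy0'⟩ := ex_of_rad hM L0 ((M e) ∘ₗ L0.subtype) fun y hy => by
      show M e y = 0
      rw [hM]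
      exact LinearMap.congr_fun hχ0 ⟨y, hy⟩
    have hy1 : ∀ y' ∈ L0, M y0 y' = M e y' := fun y' hy' => hy0' y' hy'
    have h4 : finrank F (LinearMap.ker χ) = finrank F (rad M L0) := by
      rw [hχ0, LinearMap.ker_zero, finrank_top]
    -- every functional zero on the radical part
    have hdz : ∀ z : rx M0 hM0 L0, bd M (rx M0 hM0 L0) e z =
        z.1.2 * bd M (rx M0 hM0 L0) e wz := by
      intro z
      rcases hall z.1.2 with h | h
      · rw [h, zero_mul, hb, h, zero_mul, add_zero]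
        exact LinearMap.congr_fun hχ0 ⟨z.1.1, z.2.1, fun y' hy' => by
          rw [hMM _ z.2.1 _ hy', z.2.2 y' hy', h, zero_mul]⟩
      · rw [h, one_mul, hb, hb, hwz, h]
        show M z.1.1 e + 1 * M e e = M w e + 1 * M e e
        congr 1
        have h5 : z.1.1 - w ∈ rad M L0 := ⟨L0.sub_mem z.2.1 hw, fun y' hy' => by
          rw [map_sub, LinearMap.sub_apply, hw' y' hy', hMM _ z.2.1 _ hy', z.2.2 y' hy', h,
            one_mul, hMM _ hy' _ hy', sub_self]⟩
        have h6 : M (z.1.1 - w) e = 0 := LinearMap.congr_fun hχ0 ⟨_, h5⟩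
        rw [map_sub, LinearMap.sub_apply, sub_eq_zero] at h6
        exact h6
    rcases hall (bd M (rx M0 hM0 L0) e wz) with h5 | h5
    · have h6 : bd M (rx M0 hM0 L0) e = 0 := LinearMap.ext fun z => by
        rw [hdz z, h5, mul_zero]; rfl
      rw [if_pos h6]
      have h7 : M y0 e = M e e := by
        have h8 := hval y0 hy0 hy1
        rw [h5] at h8
        exact (CharTwo.add_eq_zero.1 h8.symm)
      have h8 : LinearMap.range ψ = ⊤ := by
        rw [LinearMap.range_eq_top]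
        intro c
        refine ⟨c • ⟨y0 + e, hin2 y0 hy0 hy1 h7⟩, ?_⟩
        rw [map_smul]
        show c • φ (y0 + e) = c
        rw [map_add, ((hL _).1 hy0).2, hφ, zero_add, smul_eq_mul, mul_one]
      rw [h8, finrank_top, finrank_self] at h1
      omega
    · have h6 : bd M (rx M0 hM0 L0) e = cf M0 hM0 L0 := LinearMap.ext fun z => by
        rw [hdz z, h5, mul_one]; rfl
      rw [if_neg (by rw [h6]; exact cf_ne hM0 L0), if_pos h6]
      have h8 : LinearMap.range ψ = ⊥ := by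
        rw [LinearMap.range_eq_bot]
        refine LinearMap.ext fun z => ?_
        by_contra hz
        obtain ⟨y1, hy1a, hy1b, hy1c⟩ := hout z hz
        have h9 := hval y1 hy1a hy1b
        rw [h5, hy1c, CharTwo.add_self_eq_zero] at h9
        exact one_ne_zero h9
      rw [h8, finrank_bot] at h1
      omega
  · -- the border is not zero on the radical
    obtain ⟨y1, hy1⟩ : ∃ y, χ y ≠ 0 := by
      by_contra h
      push Not at h
      exact hχ0 (LinearMap.ext h)
    have h4 : bd M (rx M0 hM0 L0) e ≠ 0 := by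
      intro h
      have h5 := LinearMap.congr_fun h ⟨(y1.1, 0), hin y1.1 y1.2⟩
      rw [hb] at h5
      apply hy1
      rw [hχ]
      have h6 : M y1.1 e + (0 : F) * M e e = 0 := h5
      rwa [zero_mul, add_zero] at h6
    have h4' : bd M (rx M0 hM0 L0) e ≠ cf M0 hM0 L0 := by
      intro h
      have h5 := LinearMap.congr_fun h ⟨(y1.1, 0), hin y1.1 y1.2⟩
      rw [hb] at h5
      apply hy1
      rw [hχ]
      have h6 : M y1.1 e + (0 : F) * M e e = 0 := h5
      rwa [zero_mul, add_zero] at h6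
    rw [if_neg h4, if_neg h4']
    have h8 : LinearMap.range ψ = ⊥ := by
      rw [LinearMap.range_eq_bot]
      refine LinearMap.ext fun z => ?_
      by_contra hz
      obtain ⟨y2, hy2a, hy2b, hy2c⟩ := hout z hz
      apply hy1
      rw [hχ, hM, ← hy2b y1 y1.2.1, hM]
      exact y1.2.2 y2 hy2a
    rw [h8, finrank_bot] at h1
    have h9 : LinearMap.range χ = ⊤ := by
      rw [LinearMap.range_eq_top]
      intro c
      refine ⟨c • y1, ?_⟩
      rw [map_smul, (hall _).resolve_left hy1, smul_eq_mul, mul_one]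
    rw [h9, finrank_top, finrank_self] at h2
    omega

/-- the corank after a step, as a function of the border -/
noncomputable def rho {K : Type} [AddCommGroup K] [Module F K] (c f : K →ₗ[F] F) (r : ℕ) : ℕ :=
  if f = 0 then r + 1 else if f = c then r else r - 1

/-- the transition operator -/
noncomputable def Tr (u : ℕ → ℝ) (r : ℕ) : ℝ :=
  (1 - (1 / 2) ^ r) * u (r - 1) + (1 / 2) ^ (r + 1) * (u r + u (r + 1))

lemma av_rho {K : Type} [AddCommGroup K] [Module F K] [Finite K] (c : K →ₗ[F] F) (hc : c ≠ 0)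
    (r : ℕ) (hr : finrank F K = r + 1) (u : ℕ → ℝ) :
    av (fun f : K →ₗ[F] F => u (rho c f r)) = Tr u r := by
  have := Fintype.ofFinite (K →ₗ[F] F)
  have hcard : (Nat.card (K →ₗ[F] F) : ℝ) = 2 ^ (r + 1) := by
    rw [card_mod]
    have h6 : finrank F (K →ₗ[F] F) = finrank F K := Subspace.dual_finrank_eq
    rw [h6, hr]
    push_cast
    rfl
  have h1 : ∀ f : K →ₗ[F] F, u (rho c f r) = u (r - 1) +
      (if f = 0 then u (r + 1) - u (r - 1) else 0) +
      (if f = c then u r - u (r - 1) else 0) := by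
    intro f
    unfold rho
    by_cases h : f = 0
    · rw [if_pos h, if_pos h, if_neg (fun h' => hc (h'.symm.trans h))]
      ring
    · rw [if_neg h, if_neg h]
      by_cases h' : f = c
      · rw [if_pos h', if_pos h']
        ring
      · rw [if_neg h', if_neg h']
        ring
  rw [av_eq, Finset.sum_congr rfl fun f _ => h1 f, Finset.sum_add_distrib, Finset.sum_add_distrib,
    Finset.sum_ite_eq' Finset.univ (0 : K →ₗ[F] F), if_pos (Finset.mem_univ _),
    Finset.sum_ite_eq' Finset.univ c, if_pos (Finset.mem_univ _), Finset.sum_const,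
    Finset.card_univ, nsmul_eq_mul, ← Nat.card_eq_fintype_card, hcard]
  unfold Tr
  have h2 : (0 : ℝ) < 2 ^ r := by positivity
  rw [pow_succ, pow_succ, one_div_pow]
  field_simp
  ring

lemma Tr_nonneg {u : ℕ → ℝ} (h : ∀ r, 0 ≤ u r) (r : ℕ) : 0 ≤ Tr u r := by
  unfold Tr
  have h1 : ((1 / 2 : ℝ)) ^ r ≤ 1 := pow_le_one₀ (by norm_num) (by norm_num)
  have h2 := h r
  have h3 := h (r + 1)
  have h4 := h (r - 1)
  have h5 : (0 : ℝ) ≤ (1 / 2) ^ (r + 1) := by positivity
  have h6 : 0 ≤ (1 - (1 / 2 : ℝ) ^ r) * u (r - 1) := mul_nonneg (by linarith) h4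
  have h7 : 0 ≤ (1 / 2 : ℝ) ^ (r + 1) * (u r + u (r + 1)) := mul_nonneg h5 (by linarith)
  linarith

lemma Tr_le_one {u : ℕ → ℝ} (h : ∀ r, u r ≤ 1) (r : ℕ) : Tr u r ≤ 1 := by
  unfold Tr
  have h1 : ((1 / 2 : ℝ)) ^ r ≤ 1 := pow_le_one₀ (by norm_num) (by norm_num)
  have h2 := h r
  have h3 := h (r + 1)
  have h4 := h (r - 1)
  have h5 : (0 : ℝ) ≤ (1 / 2) ^ (r + 1) := by positivity
  have h6 : (1 - (1 / 2 : ℝ) ^ r) * u (r - 1) ≤ (1 - (1 / 2 : ℝ) ^ r) * 1 :=
    mul_le_mul_of_nonneg_left h4 (by linarith)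
  have h7 : (1 / 2 : ℝ) ^ (r + 1) * (u r + u (r + 1)) ≤ (1 / 2 : ℝ) ^ (r + 1) * 2 :=
    mul_le_mul_of_nonneg_left (by linarith) h5
  have h8 : (1 / 2 : ℝ) ^ (r + 1) * 2 = (1 / 2) ^ r := by
    rw [pow_succ]
    ring
  linarith

end bd

end Pool.Agent.L0h2.M
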