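import Pool.Agent.L0h2.M.GP
import Pool.Agent.L0h2.K.JL

/-!
# Joint law for distinct twists: the joint Markov chain of the coranks
-/

set_option autoImplicit false
set_option linter.unusedSectionVars false
set_option linter.unusedVariables false

open scoped Classical

namespace Pool.Agent.L0h2.M

open Function Module
open Pool.Agent.Y759.CX (fr fr_equiv fr_nonneg fr_le_one fr_mono fr_not fr_prod fr_comp fr_exists
  fr_single)
open Pool.Agent.Y703.CQ (S_C2 c2)
open Pool.Agent.L0h2.K (cv cv_nonneg cv_le_one mom)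
open Pool.Agent.Y219.CQ (F Sy Ns sp fr_avg card_mod finSy finHom finHom2 zx zx_of zx_not mf
  mf_apply Gs)

section row

variable {J : Type} [Fintype J]

/-- the pairing -/
def pr (a v : J → F) : F := ∑ l, a l * v l

lemma pr_add_l (a b v : J → F) : pr (a + b) v = pr a v + pr b v := by
  unfold pr
  rw [← Finset.sum_add_distrib]
  exact Finset.sum_congr rfl fun l _ => by rw [Pi.add_apply]; ring

lemma pr_add_r (a v w : J → F) : pr a (v + w) = pr a v + pr a w := by
  unfold pr
  rw [← Finset.sum_add_distrib]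
  exact Finset.sum_congr rfl fun l _ => by rw [Pi.add_apply]; ring

lemma pr_smul_r (a : J → F) (c : F) (v : J → F) : pr a (c • v) = c * pr a v := by
  unfold pr
  rw [Finset.mul_sum]
  exact Finset.sum_congr rfl fun l _ => by rw [Pi.smul_apply, smul_eq_mul]; ring

lemma pr_single (a : J → F) (k : J) : pr a (Pi.single k 1) = a k := by
  unfold pr
  rw [Finset.sum_eq_single k]
  · rw [Pi.single_eq_same, mul_one]
  · intro l _ hl
    rw [Pi.single_eq_of_ne hl, mul_zero]
  · intro h
    exact absurd (Finset.mem_univ _) h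

/-- the form of a row -/
noncomputable def rf (k : J) (a : J → F) : (J → F) →ₗ[F] (J → F) →ₗ[F] F :=
  LinearMap.mk₂ F (fun v v' => v k * pr a v' + v' k * pr a v + a k * (v k * v' k))
    (fun x y z => by rw [pr_add_r, Pi.add_apply]; ring)
    (fun c x y => by rw [pr_smul_r, Pi.smul_apply, smul_eq_mul, smul_eq_mul]; ring)
    (fun x y z => by rw [pr_add_r, Pi.add_apply]; ring)
    (fun c x y => by rw [pr_smul_r, Pi.smul_apply, smul_eq_mul, smul_eq_mul]; ring)

lemma rf_apply (k : J) (a v v' : J → F) :
    rf k a v v' = v k * pr a v' + v' k * pr a v + a k * (v k * v' k) := rfl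

/-- the change of a row -/
noncomputable def rh (k : J) : (J → F) →+ Sy (J → F) where
  toFun a := ⟨rf k a, fun x y => by rw [rf_apply, rf_apply]; ring⟩
  map_zero' := by
    refine Subtype.ext (LinearMap.ext fun x => LinearMap.ext fun y => ?_)
    show rf k 0 x y = 0
    rw [rf_apply]
    have h : ∀ v : J → F, pr (0 : J → F) v = 0 := fun v => by
      unfold pr
      exact Finset.sum_eq_zero fun l _ => by rw [Pi.zero_apply, zero_mul]
    rw [h, h, Pi.zero_apply]
    ring
  map_add' a b := by
    refine Subtype.ext (LinearMap.ext fun x => LinearMap.ext fun y => ?_)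
    show rf k (a + b) x y = rf k a x y + rf k b x y
    rw [rf_apply, rf_apply, rf_apply, pr_add_l, pr_add_l, Pi.add_apply]
    ring

lemma rh_apply (k : J) (S : Sy (J → F)) (a v v' : J → F) :
    (S + rh k a).1 v v' = S.1 v v' + rf k a v v' := rfl

end row

section ch

variable {J : Type} [Fintype J] {t : ℕ} {X : Fin t → Type} [∀ j, AddCommGroup (X j)]
  [∀ j, Module F (X j)] [∀ j, Finite (X j)]

/-- the corank of the form of an index on a set of variables -/
noncomputable def rk (A : ∀ j, X j →ₗ[F] X j →ₗ[F] F) (C : ∀ j, X j →ₗ[F] (J → F) →ₗ[F] F)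
    (γ : Fin t → J → F) (I : Finset J) (j : Fin t) (S : Sy (J → F)) : ℕ :=
  finrank F (rad (MM A C γ j S) (LL (X j) I))

lemma MM_rh (A : ∀ j, X j →ₗ[F] X j →ₗ[F] F) (C : ∀ j, X j →ₗ[F] (J → F) →ₗ[F] F)
    (γ : Fin t → J → F) (j : Fin t) (S : Sy (J → F)) (k : J) (a : J → F)
    (w w' : X j × (J → F)) : MM A C γ j (S + rh k a) w w' =
      MM A C γ j S w w' + rf k a w.2 w'.2 := by
  rw [MM_apply, MM_apply, rh_apply]
  ring

/-- the averages over a row, in good position -/
theorem row_av (A : ∀ j, X j →ₗ[F] X j →ₗ[F] F) (hA : ∀ j x y, A j x y = A j y x)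
    (C : ∀ j, X j →ₗ[F] (J → F) →ₗ[F] F) (γ : Fin t → J → F) (I : Finset J) (k : J) (hk : k ∉ I)
    (S : Sy (J → F)) (hS : GP A hA C γ I S) (u : Fin t → ℕ → ℝ) :
    av (fun a : J → F => ∏ j, u j (rk A C γ (insert k I) j (S + rh k a))) =
      ∏ j, Tr (u j) (rk A C γ I j S) := by
  let e : ∀ j, X j × (J → F) := fun j => (0, Pi.single k 1)
  let KK : ∀ j, Submodule F ((X j × (J → F)) × F) := fun j =>
    rx (MM A C γ j S) (MM_symm hA C γ j S) (LL (X j) I)
  let Lam : (J → F) →+ (∀ j, (KK j →ₗ[F] F)) :=
    { toFun := fun a j =>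
        { toFun := fun z => pr a z.1.1.2 + z.1.2 * a k
          map_add' := fun x y => by
            show pr a (x.1.1.2 + y.1.1.2) + (x.1.2 + y.1.2) * a k = _
            rw [pr_add_r]
            ring
          map_smul' := fun c x => by
            show pr a (c • x.1.1.2) + (c * x.1.2) * a k = c * (pr a x.1.1.2 + x.1.2 * a k)
            rw [pr_smul_r]
            ring }
      map_zero' := by
        funext j
        refine LinearMap.ext fun z => ?_
        show pr (0 : J → F) z.1.1.2 + z.1.2 * 0 = 0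
        unfold pr
        rw [mul_zero, add_zero]
        exact Finset.sum_eq_zero fun l _ => by rw [Pi.zero_apply, zero_mul]
      map_add' := fun a b => by
        funext j
        refine LinearMap.ext fun z => ?_
        show pr (a + b) z.1.1.2 + z.1.2 * (a k + b k) = (pr a z.1.1.2 + z.1.2 * a k) +
          (pr b z.1.1.2 + z.1.2 * b k)
        rw [pr_add_l]
        ring }
  have hLam : ∀ a j z, Lam a j z = pr a z.1.1.2 + z.1.2 * a k := fun _ _ _ => rfl
  -- the map is surjective
  have hsurj : Surjective Lam := by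
    intro f
    let T : (∀ j, KK j) →ₗ[F] (J → F) :=
      { toFun := fun z => ∑ j, ((z j).1.1.2 + (z j).1.2 • (Pi.single k 1 : J → F))
        map_add' := fun x y => by
          rw [← Finset.sum_add_distrib]
          refine Finset.sum_congr rfl fun j _ => ?_
          show (x j).1.1.2 + (y j).1.1.2 + ((x j).1.2 + (y j).1.2) • (Pi.single k 1 : J → F) = _
          rw [add_smul]
          abel
        map_smul' := fun c x => by
          rw [RingHom.id_apply, Finset.smul_sum]
          refine Finset.sum_congr rfl fun j _ => ?_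
          show c • (x j).1.1.2 + (c * (x j).1.2) • (Pi.single k 1 : J → F) = _
          rw [smul_add, smul_smul] }
    have hT : ∀ z, T z = ∑ j, ((z j).1.1.2 + (z j).1.2 • (Pi.single k 1 : J → F)) := fun _ => rfl
    have hTi : LinearMap.ker T = ⊥ := by
      rw [LinearMap.ker_eq_bot']
      intro z hz
      rw [hT, Finset.sum_add_distrib, ← Finset.sum_smul] at hz
      have h1 : ∑ j, (z j).1.2 = 0 := by
        have h2 := congrFun hz k
        rw [Pi.add_apply, Finset.sum_apply, Pi.smul_apply, Pi.single_eq_same, smul_eq_mul,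
          mul_one] at h2
        have h3 : ∑ j, (z j).1.1.2 k = 0 := Finset.sum_eq_zero fun j _ => (z j).2.1 k hk
        rw [h3, zero_add] at h2
        exact h2
      rw [h1, zero_smul, add_zero] at hz
      have h4 := hS (fun j => (z j).1) (fun j => (z j).2) hz
      funext j
      exact Subtype.ext (h4 j)
    obtain ⟨T', hT'⟩ := LinearMap.exists_leftInverse_of_injective T hTi
    let Ff : (∀ j, KK j) →ₗ[F] F :=
      { toFun := fun z => ∑ j, f j (z j)
        map_add' := fun x y => by
          rw [← Finset.sum_add_distrib]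
          exact Finset.sum_congr rfl fun j _ => by rw [Pi.add_apply, map_add]
        map_smul' := fun c x => by
          rw [RingHom.id_apply, Finset.smul_sum]
          exact Finset.sum_congr rfl fun j _ => by rw [Pi.smul_apply, map_smul] }
    obtain ⟨g, hg⟩ : ∃ g : (J → F) →ₗ[F] F, g = Ff ∘ₗ T' := ⟨_, rfl⟩
    have hgT : ∀ z, g (T z) = ∑ j, f j (z j) := fun z => by
      rw [hg]
      show Ff (T' (T z)) = _
      have h1 : T' (T z) = z := LinearMap.congr_fun hT' z
      rw [h1]
      rfl
    refine ⟨fun l => g (Pi.single l 1), ?_⟩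
    have hgp : ∀ v, pr (fun l => g (Pi.single l 1)) v = g v := by
      intro v
      have h1 : v = ∑ l, v l • (Pi.single l 1 : J → F) := by
        funext m
        rw [Finset.sum_apply, Finset.sum_eq_single m]
        · rw [Pi.smul_apply, Pi.single_eq_same, smul_eq_mul, mul_one]
        · intro i _ hi
          rw [Pi.smul_apply, Pi.single_eq_of_ne hi.symm, smul_zero]
        · intro h
          exact absurd (Finset.mem_univ _) h
      have h2 := congrArg g h1
      rw [map_sum] at h2
      rw [h2]
      unfold pr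
      exact Finset.sum_congr rfl fun l _ => by rw [map_smul, smul_eq_mul, mul_comm]
    funext j
    refine LinearMap.ext fun z => ?_
    rw [hLam, hgp]
    have h1 : T (Pi.single j z) = z.1.1.2 + z.1.2 • (Pi.single k 1 : J → F) := by
      rw [hT, Finset.sum_eq_single j]
      · rw [Pi.single_eq_same]
      · intro i _ hi
        rw [Pi.single_eq_of_ne hi]
        show (0 : J → F) + (0 : F) • (Pi.single k 1 : J → F) = 0
        rw [zero_smul, add_zero]
      · intro h
        exact absurd (Finset.mem_univ _) h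
    have h2 := hgT (Pi.single j z)
    rw [h1, map_add, map_smul, smul_eq_mul, Finset.sum_eq_single j] at h2
    · rw [Pi.single_eq_same] at h2
      exact h2
    · intro i _ hi
      rw [Pi.single_eq_of_ne hi, map_zero]
    · intro h
      exact absurd (Finset.mem_univ _) h
  -- the corank
  have hrk : ∀ a j, rk A C γ (insert k I) j (S + rh k a) =
      rho (cf (MM A C γ j S) (MM_symm hA C γ j S) (LL (X j) I))
        (bd (MM A C γ j S) (KK j) (e j) + Lam a j) (rk A C γ I j S) := by
    intro a j
    have h1 := bord (MM_symm hA C γ j S) (MM_symm hA C γ j (S + rh k a)) (LL (X j) I)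
      (LL (X j) (insert k I)) ((LinearMap.proj k) ∘ₗ (LinearMap.snd F (X j) (J → F))) (e j)
      (fun y => by
        show (∀ l, l ∉ I → y.2 l = 0) ↔ (∀ l, l ∉ insert k I → y.2 l = 0) ∧ y.2 k = 0
        constructor
        · intro h
          exact ⟨fun l hl => h l fun hl' => hl (Finset.mem_insert_of_mem hl'), h k hk⟩
        · rintro ⟨h, h'⟩ l hl
          by_cases hlk : l = k
          · rw [hlk]
            exact h'
          · exact h l fun hl' => by
              rcases Finset.mem_insert.1 hl' with h | h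
              · exact hlk h
              · exact hl h)
      (by
        show ∀ l, l ∉ insert k I → (Pi.single k 1 : J → F) l = 0
        intro l hl
        exact Pi.single_eq_of_ne (show l ≠ k from fun h => hl (by
          rw [h]; exact Finset.mem_insert_self _ _)) _)
      (by
        show (Pi.single k 1 : J → F) k = 1
        exact Pi.single_eq_same _ _)
      (fun y hy y' hy' => by
        rw [MM_rh, rf_apply]
        have h2 : y.2 k = 0 := hy k hk
        have h3 : y'.2 k = 0 := hy' k hk
        rw [h2, h3]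
        ring)
    have h2 : bd (MM A C γ j (S + rh k a)) (KK j) (e j) =
        bd (MM A C γ j S) (KK j) (e j) + Lam a j := by
      refine LinearMap.ext fun z => ?_
      show MM A C γ j (S + rh k a) z.1.1 (e j) + z.1.2 * MM A C γ j (S + rh k a) (e j) (e j) =
        (MM A C γ j S z.1.1 (e j) + z.1.2 * MM A C γ j S (e j) (e j)) +
          (pr a z.1.1.2 + z.1.2 * a k)
      rw [MM_rh, MM_rh, rf_apply, rf_apply]
      have h3 : z.1.1.2 k = 0 := z.2.1 k hk
      have h4 : (e j).2 k = 1 := by
        show (Pi.single k 1 : J → F) k = 1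
        exact Pi.single_eq_same _ _
      have h5 : pr a (e j).2 = a k := pr_single a k
      rw [h3, h4, h5]
      have h6 := CharTwo.add_self_eq_zero (z.1.2 * a k)
      calc _ = (MM A C γ j S z.1.1 (e j) + z.1.2 * MM A C γ j S (e j) (e j)) +
          (pr a z.1.1.2 + z.1.2 * a k) + (z.1.2 * a k + z.1.2 * a k) := by ring
        _ = _ := by rw [h6, add_zero]
    unfold rk rho
    rw [h1]
    rw [h2]
  have h1 : (fun a : J → F => ∏ j, u j (rk A C γ (insert k I) j (S + rh k a))) =
      fun a => (fun f : ∀ j, (KK j →ₗ[F] F) => ∏ j, u j (rho (cf (MM A C γ j S)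
        (MM_symm hA C γ j S) (LL (X j) I)) (bd (MM A C γ j S) (KK j) (e j) + f j)
          (rk A C γ I j S))) (Lam a) := by
    funext a
    exact Finset.prod_congr rfl fun j _ => by rw [hrk]
  rw [h1]
  refine (av_comp Lam hsurj (fun f : ∀ j, (KK j →ₗ[F] F) => ∏ j, u j (rho (cf (MM A C γ j S)
        (MM_symm hA C γ j S) (LL (X j) I)) (bd (MM A C γ j S) (KK j) (e j) + f j)
          (rk A C γ I j S)))).trans ?_
  refine (av_pi (fun j (f : KK j →ₗ[F] F) => u j (rho (cf (MM A C γ j S)
        (MM_symm hA C γ j S) (LL (X j) I)) (bd (MM A C γ j S) (KK j) (e j) + f)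
          (rk A C γ I j S)))).trans ?_
  refine Finset.prod_congr rfl fun j _ => ?_
  refine (av_shift (bd (MM A C γ j S) (KK j) (e j)) (fun f => u j (rho (cf (MM A C γ j S)
        (MM_symm hA C γ j S) (LL (X j) I)) f (rk A C γ I j S)))).trans ?_
  exact av_rho _ (cf_ne _ _) _ (rx_rank _ _) _

lemma av01 {G : Type} [Finite G] [Nonempty G] {f : G → ℝ} (h0 : ∀ g, 0 ≤ f g) (h1 : ∀ g, f g ≤ 1) :
    0 ≤ av f ∧ av f ≤ 1 := by
  constructor
  · have h2 := av_mono (f := fun _ : G => (0 : ℝ)) (f' := f) h0
    rwa [av_const] at h2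
  · have h2 := av_mono (f := f) (f' := fun _ : G => (1 : ℝ)) h1
    rwa [av_const] at h2

/-- one step of the chain -/
theorem one_step (A : ∀ j, X j →ₗ[F] X j →ₗ[F] F) (hA : ∀ j x y, A j x y = A j y x)
    (C : ∀ j, X j →ₗ[F] (J → F) →ₗ[F] F) (γ : Fin t → J → F) (I : Finset J) (k : J) (hk : k ∉ I)
    (u : Fin t → ℕ → ℝ) (h0 : ∀ j r, 0 ≤ u j r) (h1 : ∀ j r, u j r ≤ 1) :
    |av (fun S => ∏ j, u j (rk A C γ (insert k I) j S)) -
      av (fun S => ∏ j, Tr (u j) (rk A C γ I j S))| ≤ fr (fun S => ¬ GP A hA C γ I S) := by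
  rw [av_avg (rh k) (fun S => ∏ j, u j (rk A C γ (insert k I) j S)), ← av_fr]
  refine av_abs fun S => ?_
  by_cases hS : GP A hA C γ I S
  · rw [if_neg (not_not.2 hS), row_av A hA C γ I k hk S hS u, sub_self, abs_zero]
  · rw [if_pos hS]
    have h2 := av01 (f := fun a : J → F => ∏ j, u j (rk A C γ (insert k I) j (S + rh k a)))
      (fun a => Finset.prod_nonneg fun j _ => h0 j _)
      (fun a => Finset.prod_le_one (fun j _ => h0 j _) fun j _ => h1 j _)
    have h3 : 0 ≤ ∏ j, Tr (u j) (rk A C γ I j S) :=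
      Finset.prod_nonneg fun j _ => Tr_nonneg (h0 j) _
    have h4 : ∏ j, Tr (u j) (rk A C γ I j S) ≤ 1 :=
      Finset.prod_le_one (fun j _ => Tr_nonneg (h0 j) _) fun j _ => Tr_le_one (h1 j) _
    rw [abs_le]
    constructor <;> linarith [h2.1, h2.2]

/-- several steps of the chain -/
theorem iter (A : ∀ j, X j →ₗ[F] X j →ₗ[F] F) (hA : ∀ j x y, A j x y = A j y x)
    (C : ∀ j, X j →ₗ[F] (J → F) →ₗ[F] F) (γ : Fin t → J → F) (I : Finset J) (ε : ℝ)
    (K : Finset J) : Disjoint K I →
    (∀ I', I ⊆ I' → fr (fun S => ¬ GP A hA C γ I' S) ≤ ε) →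
    ∀ (u : Fin t → ℕ → ℝ), (∀ j r, 0 ≤ u j r) → (∀ j r, u j r ≤ 1) →
    |av (fun S => ∏ j, u j (rk A C γ (I ∪ K) j S)) -
      av (fun S => ∏ j, (Tr^[K.card] (u j)) (rk A C γ I j S))| ≤ K.card * ε := by
  induction K using Finset.induction_on with
  | empty =>
    intro _ _ u _ _
    rw [Finset.union_empty, Finset.card_empty]
    simp
  | insert k K hkK ih =>
    intro hd hε u h0 h1
    have hd' : Disjoint K I := Disjoint.mono_left (Finset.subset_insert k K) hd
    have hkI : k ∉ I := Finset.disjoint_left.1 hd (Finset.mem_insert_self _ _)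
    have h2 := ih hd' hε (fun j => Tr (u j)) (fun j r => Tr_nonneg (h0 j) r)
      (fun j r => Tr_le_one (h1 j) r)
    have h3 := one_step A hA C γ (I ∪ K) k (by
      rw [Finset.mem_union, not_or]
      exact ⟨hkI, hkK⟩) u h0 h1
    have h4 := hε (I ∪ K) Finset.subset_union_left
    rw [Finset.union_insert, Finset.card_insert_of_notMem hkK]
    have h5 : ∀ j, Tr^[K.card + 1] (u j) = Tr^[K.card] (Tr (u j)) := fun j =>
      Function.iterate_succ_apply _ _ _
    simp only [h5]
    push_cast
    have h6 : av (fun S => ∏ j, u j (rk A C γ (insert k (I ∪ K)) j S)) -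
        av (fun S => ∏ j, (Tr^[K.card] (Tr (u j))) (rk A C γ I j S)) =
        (av (fun S => ∏ j, u j (rk A C γ (insert k (I ∪ K)) j S)) -
          av (fun S => ∏ j, Tr (u j) (rk A C γ (I ∪ K) j S))) +
        (av (fun S => ∏ j, Tr (u j) (rk A C γ (I ∪ K) j S)) -
          av (fun S => ∏ j, (Tr^[K.card] (Tr (u j))) (rk A C γ I j S))) := by ring
    rw [h6]
    refine (abs_add_le _ _).trans ?_
    linarith

/-- the first moment of the kernel -/
theorem tail (A : ∀ j, X j →ₗ[F] X j →ₗ[F] F) (hA : ∀ j x y, A j x y = A j y x)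
    (C : ∀ j, X j →ₗ[F] (J → F) →ₗ[F] F) (γ : Fin t → J → F) (I : Finset J) (j : Fin t)
    (hC : ∀ x, (∀ w ∈ vI I, C j x w = 0) → x = 0) :
    av (fun S : Sy (J → F) => (2 : ℝ) ^ (rk A C γ I j S)) ≤ 1 + Nat.card (X j) := by
  have := Fintype.ofFinite (X j)
  have hc : (0 : ℝ) < Nat.card (vI I) := by exact_mod_cast Nat.card_pos
  have h1 : ∀ S : Sy (J → F), (2 : ℝ) ^ (rk A C γ I j S) =
      ∑ p : X j × (J → F), if p ∈ rad (MM A C γ j S) (LL (X j) I) then (1 : ℝ) else 0 := by
    intro S
    rw [Finset.sum_boole]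
    unfold rk
    have h2 := card_mod (rad (MM A C γ j S) (LL (X j) I))
    rw [Nat.card_eq_fintype_card, Fintype.card_subtype] at h2
    rw [h2]
    push_cast
    rfl
  have h2 : av (fun S : Sy (J → F) => (2 : ℝ) ^ (rk A C γ I j S)) =
      ∑ p : X j × (J → F), fr (fun S : Sy (J → F) => p ∈ rad (MM A C γ j S) (LL (X j) I)) := by
    have := Fintype.ofFinite (Sy (J → F))
    simp only [h1]
    rw [av_eq, Finset.sum_comm, Finset.sum_div]
    refine Finset.sum_congr rfl fun p _ => ?_
    rw [← av_fr, av_eq]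
  rw [h2]
  have h3 : ∀ p : X j × (J → F),
      fr (fun S : Sy (J → F) => p ∈ rad (MM A C γ j S) (LL (X j) I)) ≤
      (if p = 0 then 1 else 0) + (if p.2 ∈ vI I then 1 / (Nat.card (vI I) : ℝ) else 0) := by
    intro p
    have hemp : (∀ S : Sy (J → F), ¬ p ∈ rad (MM A C γ j S) (LL (X j) I)) →
        fr (fun S : Sy (J → F) => p ∈ rad (MM A C γ j S) (LL (X j) I)) = 0 := by
      intro h
      unfold Pool.Agent.Y759.CX.fr
      have : IsEmpty {S : Sy (J → F) // p ∈ rad (MM A C γ j S) (LL (X j) I)} :=
        ⟨fun x => h x.1 x.2⟩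
      rw [Nat.card_of_isEmpty, Nat.cast_zero, zero_div]
    have hpos : (0 : ℝ) ≤ (if p.2 ∈ vI I then 1 / (Nat.card (vI I) : ℝ) else 0) := by
      split_ifs <;> positivity
    have hpos' : (0 : ℝ) ≤ (if p = 0 then 1 else 0) := by
      split_ifs <;> norm_num
    by_cases hp0 : p = 0
    · rw [if_pos hp0]
      have h4 := fr_le_one (fun S : Sy (J → F) => p ∈ rad (MM A C γ j S) (LL (X j) I))
      linarith
    · by_cases hpI : p.2 ∈ vI I
      · by_cases hp2 : p.2 = 0
        · rw [hemp fun S hS => hp0 (Prod.ext (hC _ fun w hw => by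
            have h4 := hS.2 (0, w) hw
            rw [MM_apply, hp2] at h4
            simp only [map_zero, LinearMap.zero_apply, zero_add, add_zero] at h4
            exact h4) hp2)]
          linarith
        · rw [if_neg hp0, if_pos hpI, zero_add]
          refine mom hp2 (vI I) _ fun B B' hB hB' l hl => ?_
          have h4 := hB.2 (0, l) hl
          have h5 := hB'.2 (0, l) hl
          rw [MM_apply] at h4 h5
          have h6 := h4.trans h5.symm
          exact add_right_cancel (add_left_cancel h6)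
      · rw [hemp fun S hS => hpI hS.1]
        linarith
  refine (Finset.sum_le_sum fun p _ => h3 p).trans ?_
  rw [Finset.sum_add_distrib, Finset.sum_ite_eq' Finset.univ (0 : X j × (J → F)),
    if_pos (Finset.mem_univ _)]
  refine add_le_add le_rfl ?_
  have h4 : ((Finset.univ.filter fun v : J → F => v ∈ vI I).card : ℝ) = Nat.card (vI I) := by
    rw [Nat.card_eq_fintype_card, Fintype.card_subtype]
  have h5 : ∀ x : X j, ∑ v : J → F, (if ((x, v) : X j × (J → F)).2 ∈ vI I then
      1 / (Nat.card (vI I) : ℝ) else 0) = 1 := by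
    intro x
    have h6 : ∑ v : J → F, (if v ∈ vI I then 1 / (Nat.card (vI I) : ℝ) else 0) = 1 := by
      rw [← Finset.sum_filter, Finset.sum_const, nsmul_eq_mul, h4, mul_one_div, div_self hc.ne']
    exact h6
  rw [Fintype.sum_prod_type, Finset.sum_congr rfl fun x _ => h5 x, Finset.sum_const,
    Finset.card_univ, nsmul_eq_mul, ← Nat.card_eq_fintype_card, mul_one]

end ch

end Pool.Agent.L0h2.M
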