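import Pool.Agent.L0h2.M.Stm

/-!
# Joint law for distinct twists: the private classes exist
-/

set_option autoImplicit false
set_option linter.unusedVariables false

open scoped Classical

namespace Pool.Agent.L0h2.M

open Finset hiding mk
open Pool.Agent.Y703.CQ (nr)
open Pool.Agent.R413.SQ (mk)
open Pool.Agent.L0h2.K (qq mk_mod nr_mod dvd_qq qq_pos mod4)

theorem nr_one (p : ℕ) : nr p 1 = 0 := by
  unfold Pool.Agent.Y703.CQ.nr
  rw [if_pos]
  rw [Nat.cast_one]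
  exact IsSquare.one

/-- the private class of a prime -/
theorem cls {R : Finset ℕ} (hR : ∀ r ∈ R, r.Prime ∧ r % 4 = 1) {r : ℕ} (hr : r ∈ R) :
    ∃ a, a < qq R ∧ Nat.Coprime a (qq R) ∧ a % 4 = 1 ∧ mk a = 1 ∧ nr r a = 1 ∧
      ∀ r' ∈ R, r' ≠ r → nr r' a = 0 := by
  have hrp := (hR r hr).1
  have hr4 := (hR r hr).2
  have : Fact r.Prime := ⟨hrp⟩
  obtain ⟨m, hm⟩ : ∃ m, m = 28 * ∏ x ∈ R.erase r, x := ⟨_, rfl⟩
  have hqm : qq R = r * m := by
    unfold Pool.Agent.L0h2.K.qq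
    rw [hm, ← Finset.mul_prod_erase R _ hr]
    ring
  have hcop : Nat.Coprime r m := by
    rw [hm]
    refine Nat.Coprime.mul_right ?_ ?_
    · have h28 : (28 : ℕ) = 4 * 7 := by norm_num
      rw [h28]
      refine Nat.Coprime.mul_right ?_ ?_
      · have h4 : (4 : ℕ) = 2 ^ 2 := by norm_num
        rw [h4]
        refine Nat.Coprime.pow_right 2 ((Nat.coprime_primes hrp Nat.prime_two).2 ?_)
        rintro rfl
        omega
      · refine (Nat.coprime_primes hrp (by norm_num)).2 ?_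
        rintro rfl
        omega
    · rw [Nat.coprime_prod_right_iff]
      intro x hx
      rw [Finset.mem_erase] at hx
      exact (Nat.coprime_primes hrp (hR x hx.2).1).2 (Ne.symm hx.1)
  obtain ⟨n, hn⟩ : ∃ n : ZMod r, ¬ IsSquare n := FiniteField.exists_nonsquare (by
    rw [ZMod.ringChar_zmod_n]
    rintro rfl
    omega)
  obtain ⟨k, hk1, hk2⟩ := Nat.chineseRemainder hcop n.val 1
  have hkn : ((k : ℕ) : ZMod r) = n := by
    rw [(ZMod.natCast_eq_natCast_iff _ _ _).2 hk1, ZMod.natCast_zmod_val]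
  have hdm : ∀ d, d ∣ m → k % d = 1 % d := fun d hd => hk2.of_dvd hd
  have h4m : 4 ∣ m := by
    rw [hm]
    exact (by norm_num : 4 ∣ 28).mul_right _
  have h7m : 7 ∣ m := by
    rw [hm]
    exact (by norm_num : 7 ∣ 28).mul_right _
  refine ⟨k % qq R, Nat.mod_lt _ (qq_pos hR), ?_, ?_, ?_, ?_, ?_⟩
  · have h8 : Nat.Coprime k (qq R) := by
      rw [hqm]
      refine Nat.Coprime.mul_right ?_ ?_
      · rw [Nat.coprime_comm, Nat.Prime.coprime_iff_not_dvd hrp]
        intro h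
        apply hn
        rw [← hkn, (ZMod.natCast_eq_zero_iff _ _).2 h]
        exact IsSquare.zero
      · have := hk2.gcd_eq
        rw [Nat.gcd_one_left] at this
        exact this
    rw [Nat.coprime_iff_gcd_eq_one, ← Nat.gcd_rec, Nat.gcd_comm]
    exact h8
  · rw [mod4]
    exact hdm 4 h4m
  · rw [mk_mod]
    have h7 : k % 7 = 1 := hdm 7 h7m
    unfold Pool.Agent.R413.SQ.mk
    rw [h7]
    norm_num
  · have h1 : nr r (k % qq R) = nr r k := nr_mod r _ _ (Nat.mod_mod_of_dvd _ (dvd_qq hr))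
    rw [h1]
    unfold Pool.Agent.Y703.CQ.nr
    rw [hkn, if_neg hn]
  · intro r' hr' hne
    have h1 : nr r' (k % qq R) = nr r' k := nr_mod r' _ _ (Nat.mod_mod_of_dvd _ (dvd_qq hr'))
    have h2 : nr r' k = nr r' 1 := nr_mod r' _ _ (hdm r' (by
      rw [hm]
      exact (Finset.dvd_prod_of_mem (fun x => x) (Finset.mem_erase.2 ⟨hne, hr'⟩)).mul_left 28))
    rw [h1, h2, nr_one]

/-- the data of different sets of primes -/
theorem dm_of {t : ℕ} {R : Finset ℕ} (hR : ∀ r ∈ R, r.Prime ∧ r % 4 = 1) (hne : R.Nonempty)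
    (T : Fin t → Finset ℕ) (hT : ∀ l, T l ⊆ R) (hi : Function.Injective T) :
    ∃ a : ℕ → ℕ, Dm t R T a := by
  have h : ∀ r : ℕ, ∃ a, r ∈ R → (a < qq R ∧ Nat.Coprime a (qq R) ∧ a % 4 = 1 ∧ mk a = 1 ∧
      nr r a = 1 ∧ ∀ r' ∈ R, r' ≠ r → nr r' a = 0) := by
    intro r
    by_cases hr : r ∈ R
    · obtain ⟨a, ha⟩ := cls hR hr
      exact ⟨a, fun _ => ha⟩
    · exact ⟨0, fun h => absurd h hr⟩
  choose a ha using h
  exact ⟨a, hR, hne, hT, hi, fun r hr => (ha r hr).1, fun r hr => (ha r hr).2.1,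
    fun r hr => (ha r hr).2.2.1, fun r hr => (ha r hr).2.2.2.1, fun r hr => (ha r hr).2.2.2.2.1,
    fun r hr => (ha r hr).2.2.2.2.2⟩

end Pool.Agent.L0h2.M
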