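import Pool.Agent.L0h2.M.Stm
import Pool.Agent.L0h2.K.FEW

/-!
# Joint law for distinct twists: few sets have few large primes in a class
-/

set_option autoImplicit false
set_option linter.unusedVariables false

open scoped Classical

namespace Pool.Agent.L0h2.M.FEW

open Finset Filter
open Pool.Agent.Y703.CX (sm la eL zz S_SIE)
open Pool.Agent.R413.SQ (SS Sp In)
open Pool.Agent.R413.SQ.FEW (pr SS_mem moment LL mem_LL LL_sub mem_LL_of)
open Pool.Agent.Y495.CX.Few (PN euler prod_pos' le_of_mem_prod mert eL_tendsto log_small zz_ge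
  loglog_zz rpow_eq)
open Pool.Agent.L0h2.K (qq eta SR)
open Pool.Agent.L0h2.K.FEW (part1 part2)

theorem t_FEWm : S_FEWm := by
  intro hs R hR c κ V hcq hcop hc4 hκ
  have hκ0 : (0 : ℝ) < κ := by exact_mod_cast hκ
  have hq1 : (28 : ℝ) ≤ qq R := by
    have h1 : 1 ≤ ∏ r ∈ R, r := prod_pos fun r hr => (hR r hr).1.pos
    have h2 : 28 ≤ qq R := by
      unfold Pool.Agent.L0h2.K.qq
      omega
    exact_mod_cast h2
  have hq0 : (0 : ℝ) < qq R := by linarith
  obtain ⟨C₁, hC₁, h1⟩ := part1 (8 * κ * qq R) (by positivity)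
  obtain ⟨C₂, hC₂, h2⟩ := part2 hs hR hcq hcop hc4
  have h4 := (h1.and h2).and
    (eL_tendsto.eventually (eventually_ge_atTop (max 2 (8 * qq R * (V : ℝ)))))
  rw [eventually_atTop] at h4
  obtain ⟨X₀, hX₀⟩ := h4
  refine ⟨C₁ + C₂, X₀, fun X hX => ?_⟩
  obtain ⟨⟨h5, h6⟩, h8⟩ := hX₀ X hX
  have h9 : 2 ≤ eL X := (le_max_left _ _).trans h8
  have h10 : 8 * qq R * (V : ℝ) ≤ eL X := (le_max_right _ _).trans h8
  rw [rpow_eq h9]
  have h11 : ((SR R X).filter fun S => ((la (zz X) S).filter fun p => p % qq R = c).card ≤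
      κ * (sm (zz X) S).card + V) ⊆
      ((SS ∅ ∅ X).filter fun S => eL X / (8 * κ * qq R) < ((sm (zz X) S).card : ℝ)) ∪
        (Pool.Agent.R413.SQ.FEW.LL ∅ X fun S => ((la (zz X) S).filter fun p => p % qq R = c).card ≤
          ⌊eL X / (4 * qq R)⌋₊) := by
    intro S hS
    rw [mem_filter] at hS
    have hSS : S ∈ SS ∅ ∅ X := (mem_filter.1 hS.1).1
    rw [mem_union, mem_filter]
    by_cases hc : eL X / (8 * κ * qq R) < ((sm (zz X) S).card : ℝ)
    · exact Or.inl ⟨hSS, hc⟩
    · right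
      rw [not_lt] at hc
      refine mem_LL_of hSS ?_
      apply Nat.le_floor
      have h12 : ((((la (zz X) S).filter fun p => p % qq R = c).card : ℕ) : ℝ) ≤
          κ * ((sm (zz X) S).card : ℝ) + V := by exact_mod_cast hS.2
      have h13 : (V : ℝ) ≤ eL X / (8 * qq R) := by
        rw [le_div_iff₀ (by positivity)]
        linarith
      have h14 : κ * (eL X / (8 * κ * qq R)) + eL X / (8 * qq R) = eL X / (4 * qq R) := by
        field_simp
        norm_num
      have h15 : (κ : ℝ) * ((sm (zz X) S).card : ℝ) ≤ κ * (eL X / (8 * κ * qq R)) :=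
        mul_le_mul_of_nonneg_left hc hκ0.le
      linarith
  have h12 : (((SR R X).filter fun S => ((la (zz X) S).filter fun p => p % qq R = c).card ≤
      κ * (sm (zz X) S).card + V).card : ℝ) ≤
      (((SS ∅ ∅ X).filter fun S => eL X / (8 * κ * qq R) < ((sm (zz X) S).card : ℝ)).card : ℝ) +
      ((Pool.Agent.R413.SQ.FEW.LL ∅ X fun S => ((la (zz X) S).filter fun p => p % qq R = c).card ≤
        ⌊eL X / (4 * qq R)⌋₊).card : ℝ) := by
    exact_mod_cast (card_le_card h11).trans (card_union_le _ _)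
  have he : eta R ≤ 3 / 10 := by
    unfold Pool.Agent.L0h2.K.eta
    rw [div_le_iff₀ (by positivity)]
    linarith
  have h13 : C₁ * X * Real.exp (-(4 / 5) * eL X) ≤
      C₁ * X * Real.exp ((-(1 / 2) - eta R) * eL X) := by
    apply mul_le_mul_of_nonneg_left _ (by positivity)
    apply Real.exp_le_exp.2
    apply mul_le_mul_of_nonneg_right _ (by linarith)
    linarith
  refine h12.trans ((add_le_add (h5.trans h13) h6).trans (le_of_eq ?_))
  ring

end Pool.Agent.L0h2.M.FEW
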