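import Pool.Agent.L0h2.M.Stm
import Pool.Agent.L0h2.K.KEY

/-! Joint law for distinct twists: the sum over the boxes. -/

set_option autoImplicit false
set_option linter.unusedVariables false

open scoped Classical

namespace Pool.Agent.L0h2.M.KEY

open Finset hiding mk
open Pool.Agent.Y703.CX (sm la jj XX)
open Pool.Agent.R413.SQ (mk Gd Sp In S_BIL)
open Pool.Agent.R413.SQ.KEY (le_XX sm_la_card sm_la_prod root12 card_sub TT mem_TT harm_TT)
open Pool.Agent.Y703.CQ (nr sg prs HB S_EQ ext)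
open Pool.Agent.L0h2.K (qq dR Zc SR Nz cv mem_SR of_SR mk_mod Zc_mod nr_mod dvd_qq qq_pos)
open Pool.Agent.L0h2.K.KEY (ph ky CC mem_CC sm_fill la_fill ph_fill im_fill ky_fill inj_fill inj_ph
  CC_facts CC_disj hb_box prs_card ne_two)

/-- the keys which occur -/
structure KQ (t : ℕ) (R : Finset ℕ) (a : ℕ → ℕ) (X z H k V : ℕ) (S₀ : Finset ℕ)
    (J : Finset (ℕ × ℕ)) : Prop where
  cl : ∀ q ∈ S₀, q.Prime ∧ q % 4 = 1
  dis : Disjoint S₀ R
  le : ∀ q ∈ S₀, q ≤ z
  inj : Set.InjOn Prod.fst (J : Set (ℕ × ℕ))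
  card : S₀.card + J.card ≤ k
  prod : (∏ p ∈ S₀, p) * ∏ e ∈ J, XX H e.1 ≤ X
  few : ∀ r ∈ R, (t + 2) * (S₀.card + R.card) + 3 * V ≤ (J.filter fun e => e.2 = a r).card
  ine : ∃ e ∈ J, mk e.2 ≠ 1

theorem rr_iff {t : ℕ} {R : Finset ℕ} {a : ℕ → ℕ} {X z H k V : ℕ} (hH : 1 ≤ H) {S : Finset ℕ}
    (hS : ∀ q ∈ S, (q.Prime ∧ q % 4 = 1) ∧ q ∉ R)
    (hi : Set.InjOn (ph R H) (la z S : Set ℕ)) :
    S ∈ RM t R a X z H k V ↔ KQ t R a X z H k V (ky R z H S).1 (ky R z H S).2 := by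
  set J := (la z S).image (ph R H) with hJ
  have hky : ky R z H S = (sm z S, J) := rfl
  rw [hky]
  have f2 : J.card = (la z S).card := Finset.card_image_of_injOn hi
  have f3 : ∀ (P : ℕ → Prop) [DecidablePred P], (J.filter fun e => P e.2).card =
      ((la z S).filter fun p => P (p % qq R)).card := by
    intro P _
    rw [hJ, Finset.filter_image, Finset.card_image_of_injOn]
    · rfl
    · intro a ha b hb hab
      exact hi (Finset.mem_coe.2 (Finset.mem_filter.1 (Finset.mem_coe.1 ha)).1)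
        (Finset.mem_coe.2 (Finset.mem_filter.1 (Finset.mem_coe.1 hb)).1) hab
  have f8 : ∏ e ∈ J, XX H e.1 = ∏ p ∈ la z S, XX H (jj H p) := by
    rw [hJ, Finset.prod_image hi]
    rfl
  have f9 : Set.InjOn (jj H) (la z S : Set ℕ) ↔ Set.InjOn Prod.fst (J : Set (ℕ × ℕ)) := by
    constructor
    · intro h a ha b hb hab
      rw [Finset.mem_coe, hJ, Finset.mem_image] at ha hb
      obtain ⟨p, hp, rfl⟩ := ha
      obtain ⟨q, hq, rfl⟩ := hb
      rw [h (Finset.mem_coe.2 hp) (Finset.mem_coe.2 hq) hab]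
    · intro h p hp q hq hpq
      exact hi hp hq (h (Finset.mem_coe.2 (Finset.mem_image_of_mem _ (Finset.mem_coe.1 hp)))
        (Finset.mem_coe.2 (Finset.mem_image_of_mem _ (Finset.mem_coe.1 hq))) hpq)
  have f10 : (∃ p ∈ la z S, mk p ≠ 1) ↔ ∃ e ∈ J, mk e.2 ≠ 1 := by
    constructor
    · rintro ⟨p, hp, h⟩
      exact ⟨ph R H p, Finset.mem_image_of_mem _ hp, by
        show mk (p % qq R) ≠ 1
        rw [mk_mod]
        exact h⟩
    · rintro ⟨e, he, h⟩
      rw [hJ, Finset.mem_image] at he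
      obtain ⟨p, hp, rfl⟩ := he
      refine ⟨p, hp, ?_⟩
      rw [← mk_mod R p]
      exact h
  have hsm : sm z S ⊆ S := Finset.filter_subset _ _
  have hla : la z S ⊆ S := Finset.filter_subset _ _
  constructor
  · intro h
    unfold RM at h
    rw [Finset.mem_filter] at h
    obtain ⟨h1, h2, h3, h4, h6, h7⟩ := h
    refine ⟨fun q hq => (hS q (hsm hq)).1, ?_, fun q hq => (Finset.mem_filter.1 hq).2,
      f9.1 h2, ?_, ?_, fun l hl => ?_, f10.1 h7⟩
    · rw [Finset.disjoint_left]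
      exact fun q hq => (hS q (hsm hq)).2
    · rw [f2, sm_la_card]
      exact h3
    · rw [f8]
      exact h4
    · rw [f3 (fun x => x = a l)]
      exact h6 l hl
  · rintro ⟨k1, k1', k2, k7, k8, k9, k12, k11⟩
    have hprod : ∏ p ∈ S, p ≤ X := by
      rw [← sm_la_prod z S]
      refine le_trans (Nat.mul_le_mul_left _ ?_) k9
      rw [f8]
      refine Finset.prod_le_prod' fun p hp => le_XX hH (hS p (hla hp)).1.1.one_le
    unfold RM
    rw [Finset.mem_filter]
    refine ⟨of_SR (fun q hq => (hS q hq).1) hprod ?_, f9.2 k7, ?_, ?_, fun l hl => ?_,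
      f10.2 k11⟩
    · rw [Finset.disjoint_left]
      exact fun q hq => (hS q hq).2
    · rw [← sm_la_card z S, ← f2]
      exact k8
    · rw [← f8]
      exact k9
    · rw [← f3 (fun x => x = a l)]
      exact k12 l hl

theorem rr_facts {t : ℕ} {R : Finset ℕ} {a : ℕ → ℕ} {X z H k V : ℕ} {S : Finset ℕ}
    (hS : S ∈ RM t R a X z H k V) :
    (∀ q ∈ S, (q.Prime ∧ q % 4 = 1) ∧ q ∉ R) ∧ Set.InjOn (jj H) (la z S : Set ℕ) ∧
      ∏ p ∈ S, p ≤ X := by
  unfold RM at hS
  rw [Finset.mem_filter] at hS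
  obtain ⟨h1, h2, h3⟩ := mem_SR hS.1
  exact ⟨fun q hq => ⟨h1 q hq, Finset.disjoint_left.1 h3 hq⟩, hS.2.1, h2⟩

theorem key_bij {t : ℕ} {R : Finset ℕ} {a : ℕ → ℕ} {X z H k V : ℕ} (hH : 1 ≤ H) {S₀ : Finset ℕ}
    {J : Finset (ℕ × ℕ)}
    (hkey : KQ t R a X z H k V S₀ J) (P : Finset ℕ → Prop) [DecidablePred P] [DecidableEq J] :
    ((Fintype.piFinset fun i : J => CC R z H i).filter fun p => P (S₀ ∪ univ.image p)).card =
      ((RM t R a X z H k V).filter fun S => ky R z H S = (S₀, J) ∧ P S).card := by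
  have h₀ := hkey.le
  apply Finset.card_bij (fun (p : J → ℕ) _ => S₀ ∪ univ.image p)
  · intro p hp
    rw [Finset.mem_filter, Fintype.mem_piFinset] at hp
    obtain ⟨hp, hP⟩ := hp
    have hk := ky_fill hH h₀ hp
    rw [Finset.mem_filter]
    refine ⟨?_, hk, hP⟩
    rw [rr_iff hH _ (inj_fill hH h₀ hp), hk]
    · exact hkey
    · intro q hq
      rw [Finset.mem_union, Finset.mem_image] at hq
      rcases hq with hq | ⟨i, -, rfl⟩
      · exact ⟨hkey.cl q hq, Finset.disjoint_left.1 hkey.dis hq⟩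
      · exact ((mem_CC hH).1 (hp i)).1
  · intro p hp p' hp' h
    rw [Finset.mem_filter, Fintype.mem_piFinset] at hp hp'
    have h1 := la_fill hH h₀ hp.1
    rw [h, la_fill hH h₀ hp'.1] at h1
    funext i
    have h2 : p i ∈ univ.image p' := by
      rw [h1]
      exact Finset.mem_image_of_mem _ (Finset.mem_univ _)
    rw [Finset.mem_image] at h2
    obtain ⟨j, -, hj⟩ := h2
    have h3 := ph_fill hH hp.1 i
    have h4 := ph_fill hH hp'.1 j
    rw [hj, h3] at h4
    rw [← hj, Subtype.ext h4]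
  · intro S hS
    rw [Finset.mem_filter] at hS
    obtain ⟨hSR, hSk, hSP⟩ := hS
    obtain ⟨hSO, hSI, -⟩ := rr_facts hSR
    have hk1 : sm z S = S₀ := congrArg Prod.fst hSk
    have hk2 : (la z S).image (ph R H) = J := congrArg Prod.snd hSk
    have hex : ∀ i : J, ∃ q ∈ la z S, ph R H q = i := by
      rintro ⟨i, hi⟩
      rw [← hk2, Finset.mem_image] at hi
      exact hi
    choose p hp1 hp2 using hex
    have him : univ.image p = la z S := by
      ext q
      rw [Finset.mem_image]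
      constructor
      · rintro ⟨i, -, rfl⟩
        exact hp1 i
      · intro hq
        have hjq : ph R H q ∈ J := by
          rw [← hk2]
          exact Finset.mem_image_of_mem _ hq
        exact ⟨⟨ph R H q, hjq⟩, Finset.mem_univ _, inj_ph hSI (Finset.mem_coe.2 (hp1 _))
          (Finset.mem_coe.2 hq) (hp2 ⟨ph R H q, hjq⟩)⟩
    have hSe : S₀ ∪ univ.image p = S := by
      rw [him, ← hk1]
      unfold sm la
      exact Finset.filter_union_filter_not_eq _ _
    refine ⟨p, ?_, hSe⟩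
    rw [Finset.mem_filter, Fintype.mem_piFinset, hSe]
    refine ⟨fun i => (mem_CC hH).2 ⟨hSO _ (Finset.mem_filter.1 (hp1 i)).1,
      not_le.1 (Finset.mem_filter.1 (hp1 i)).2, hp2 i⟩, hSP⟩

theorem box_dec {t : ℕ} (hBOX : S_BOXm t) (hEQ : S_EQ) (hLA : S_LAm t) (R : Finset ℕ)
    (T : Fin t → Finset ℕ) (h : ℕ → ZMod 2) (b : Fin t → Bool) (ι : Type) [Fintype ι]
    [inst : DecidableEq ι] (lo : LinearOrder ι) (J1 JZ I K : Finset ι) (JR : ℕ → Finset ι)
    (C : ι → Finset ℕ) (X : ι → ℕ) (κ : ℝ) (S₀ : Finset ℕ) (u Q : ℕ) (h1 : 0 ≤ κ)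
    (h2 : ∀ i, (C i).card ≤ X i) (h3 : HB J1 C X κ) (h4 : ∀ u ∈ S₀, (u.Prime ∧ u % 4 = 1) ∧ u ≠ 2)
    (h4' : ∀ u ∈ R, (u.Prime ∧ u % 4 = 1) ∧ u ≠ 2) (k1 : Disjoint S₀ R) (k2 : R.Nonempty)
    (k3 : ∀ l, T l ⊆ R) (k4 : Function.Injective T)
    (h5 : ∀ i, ∀ p ∈ C i, (p.Prime ∧ p % 4 = 1) ∧ p ≠ 2 ∧ p ∉ S₀ ∧ (i ∈ J1 ↔ mk p = 1))
    (k5 : ∀ i, ∀ p ∈ C i, p ∉ R) (k6 : ∀ i, ∀ p ∈ C i, (i ∈ JZ ↔ Zc R p))
    (k7 : ∀ i, ∀ p ∈ C i, ∀ q ∈ C i, ∀ r ∈ R, nr r p = nr r q)
    (k8 : JZ ⊆ I) (k9 : I ⊆ J1) (k10 : K ⊆ J1) (k11 : Disjoint K I)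
    (k12 : ∀ k ∈ J1, k ∈ I ∨ k ∈ K)
    (k13 : ∀ r ∈ R, ∀ i ∈ JR r, ∀ p ∈ C i, nr r p = 1 ∧ ∀ r' ∈ R, r' ≠ r → nr r' p = 0)
    (k14 : ∀ r ∈ R, JR r ⊆ I) (k15 : ∀ r ∈ R, Q ≤ (JR r).card) (k16 : 1 ≤ Q)
    (k17 : S₀.card + R.card ≤ u)
    (h6 : ∀ i l, i ≠ l → Disjoint (C i) (C l)) (h7 : ∃ i, i ∉ J1) :
    |(((Fintype.piFinset C).filter fun p => Nz R S₀ (univ.image p) ∧
        Pm t h T b (S₀ ∪ univ.image p)).card : ℝ) -
      (∏ l, cv (b l)) * (((Fintype.piFinset C).filter fun p => Nz R S₀ (univ.image p)).card : ℝ)| ≤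
    er t u Q K.card *
      (((Fintype.piFinset C).filter fun p => Nz R S₀ (univ.image p)).card : ℝ) +
    2 ^ ((2 * S₀.card + 1) * Fintype.card ι + (prs J1).card) * (κ * ∏ j, (X j : ℝ)) := by
  have h := hBOX hEQ hLA R T h b ι J1 JZ I K JR C X κ S₀ u Q h1 h2 h3 h4 h4' k1 k2 k3 k4 h5 k5 k6 k7
    k8 k9 k10 k11 k12 k13 k14 k15 k16 k17 h6 h7
  have e : inst = fun a b => lo.toDecidableEq a b := Subsingleton.elim _ _
  subst e
  exact h

theorem nr_qq {R : Finset ℕ} {r : ℕ} (hr : r ∈ R) (p : ℕ) : nr r p = nr r (p % qq R) :=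
  nr_mod r _ _ (Nat.mod_mod_of_dvd _ (dvd_qq hr)).symm

theorem per_key {t : ℕ} (hBOX : S_BOXm t) (hEQ : S_EQ) (hLA : S_LAm t) {R : Finset ℕ}
    {T : Fin t → Finset ℕ} {a : ℕ → ℕ} (hD : Dm t R T a) (h : ℕ → ZMod 2) (b : Fin t → Bool)
    {X z H k V : ℕ} (hH : 1 ≤ H)
    {κ : ℝ} (hκ : 0 ≤ κ) {S₀ : Finset ℕ} {J : Finset (ℕ × ℕ)} (hk : KQ t R a X z H k V S₀ J)
    (hHB : HB (univ.filter fun e : J => mk e.1.2 = 1) (fun i : J => CC R z H i)
      (fun i => XX H i.1.1) κ) :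
    |(((RM t R a X z H k V).filter fun S => ky R z H S = (S₀, J) ∧
        (Nz R (sm z S) (la z S) ∧ Pm t h T b S)).card : ℝ) -
      (∏ l, cv (b l)) * (((RM t R a X z H k V).filter fun S => ky R z H S = (S₀, J) ∧
        Nz R (sm z S) (la z S)).card : ℝ)| ≤
    (KT t + 4 * t) * (1 / 2 : ℝ) ^ V *
        (((RM t R a X z H k V).filter fun S => ky R z H S = (S₀, J)).card : ℝ) +
      (3 ^ (3 * k ^ 2) * κ) * (X / ((∏ p ∈ S₀, p : ℕ) : ℝ)) := by
  obtain ⟨r0, hr0⟩ := hD.ne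
  obtain ⟨u, hu⟩ : ∃ u, u = S₀.card + R.card := ⟨_, rfl⟩
  obtain ⟨Q, hQ⟩ : ∃ Q, Q = (t + 1) * u + 2 * V := ⟨_, rfl⟩
  have hR1 : 1 ≤ R.card := Finset.card_pos.2 ⟨r0, hr0⟩
  have hu1 : 1 ≤ u := by omega
  have hQ1 : 1 ≤ Q := by
    rw [hQ]
    have : 1 * 1 ≤ (t + 1) * u := Nat.mul_le_mul (by omega) hu1
    omega
  have hexp : (t + 2) * u + 3 * V = Q + (u + V) := by
    rw [hQ]
    ring
  set J1 : Finset J := univ.filter fun e : J => mk e.1.2 = 1 with hJ1
  obtain ⟨JZ, hJZ⟩ : ∃ JZ : Finset J, JZ = univ.filter fun e : J => Zc R e.1.2 := ⟨_, rfl⟩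
  have c1 : ∀ (P : ℕ → Prop) [DecidablePred P],
      (univ.filter fun e : J => P e.1.2).card = (J.filter fun e => P e.2).card := by
    intro P _
    rw [← Finset.card_map (Function.Embedding.subtype (· ∈ J))]
    congr 1
    ext x
    simp only [Finset.mem_map, Finset.mem_filter, Finset.mem_univ, true_and,
      Function.Embedding.coe_subtype]
    constructor
    · rintro ⟨u, hu, rfl⟩
      exact ⟨u.2, hu⟩
    · rintro ⟨h, h'⟩
      exact ⟨⟨x, h⟩, h', rfl⟩
  have hfew : ∀ r ∈ R, Q + (u + V) ≤ (univ.filter fun e : J => e.1.2 = a r).card := fun r hr => by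
    rw [c1 (fun x => x = a r), ← hexp, hu]
    exact hk.few r hr
  obtain ⟨K, hK1, hK2⟩ := Finset.exists_subset_card_eq ((Nat.le_add_left _ _).trans (hfew r0 hr0))
  obtain ⟨I, hI⟩ : ∃ I : Finset J, I = J1.filter fun e => e ∉ K := ⟨_, rfl⟩
  obtain ⟨JR, hJR⟩ : ∃ JR : ℕ → Finset J, JR = fun r => univ.filter fun e : J =>
    e.1.2 = a r ∧ e ∉ K := ⟨_, rfl⟩
  have hJRc : ∀ r ∈ R, Q ≤ (JR r).card := fun r hr => by
    have g1 : (univ.filter fun e : J => e.1.2 = a r) ⊆ JR r ∪ K := fun e he => by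
      rw [Finset.mem_filter] at he
      rw [Finset.mem_union, hJR, Finset.mem_filter]
      by_cases heK : e ∈ K
      · exact Or.inr heK
      · exact Or.inl ⟨Finset.mem_univ _, he.2, heK⟩
    have g2 := (Finset.card_le_card g1).trans (Finset.card_union_le _ _)
    have g3 := hfew r hr
    omega
  have hinj : Function.Injective (fun i : J => i.1.1) := by
    intro a b hab
    exact Subtype.ext (hk.inj (Finset.mem_coe.2 a.2) (Finset.mem_coe.2 b.2) hab)
  let lo : LinearOrder J := LinearOrder.lift' (fun i : J => i.1.1) hinj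
  have hbox := box_dec hBOX hEQ hLA R T h b J lo J1 JZ I K JR
    (fun i => CC R z H i) (fun i => XX H i.1.1) κ S₀ u Q hκ
    (fun i => by
      refine (Finset.card_filter_le _ _).trans ?_
      rw [Nat.card_Icc]
      omega)
    hHB (fun u hu => ⟨hk.cl u hu, ne_two (hk.cl u hu)⟩)
    (fun u hu => ⟨hD.pr u hu, ne_two (hD.pr u hu)⟩) hk.dis hD.ne hD.sub hD.inj
    (fun i p hp => by
      obtain ⟨h3, h3', h4, h5⟩ := CC_facts hH hp
      refine ⟨h3.1, ne_two h3.1, fun h => ?_, ?_⟩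
      · have := hk.le p h
        omega
      · rw [hJ1, Finset.mem_filter, ← h5, mk_mod]
        simp)
    (fun i p hp => (CC_facts hH hp).1.2)
    (fun i p hp => by
      obtain ⟨h3, h3', h4, h5⟩ := CC_facts hH hp
      rw [hJZ, Finset.mem_filter, ← h5, Zc_mod]
      simp)
    (fun i p hp q hq r hr => by
      obtain ⟨-, -, -, h5⟩ := CC_facts hH hp
      obtain ⟨-, -, -, h6⟩ := CC_facts hH hq
      rw [nr_qq hr p, nr_qq hr q, h5, h6])
    (by
      rw [hJZ, hI, hJ1]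
      intro i hi
      rw [Finset.mem_filter] at hi
      rw [Finset.mem_filter, Finset.mem_filter]
      refine ⟨⟨hi.1, hi.2.1⟩, fun hiK => ?_⟩
      have g1 := (Finset.mem_filter.1 (hK1 hiK)).2
      have g2 := hi.2.2 r0 hr0
      rw [g1, hD.self r0 hr0] at g2
      exact one_ne_zero g2)
    (by
      rw [hI]
      exact Finset.filter_subset _ _)
    (by
      intro i hi
      rw [hJ1, Finset.mem_filter]
      refine ⟨Finset.mem_univ _, ?_⟩
      rw [(Finset.mem_filter.1 (hK1 hi)).2]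
      exact hD.am r0 hr0)
    (by
      rw [Finset.disjoint_left]
      intro i hi hi'
      rw [hI, Finset.mem_filter] at hi'
      exact hi'.2 hi)
    (fun i hi => by
      by_cases hiK : i ∈ K
      · exact Or.inr hiK
      · exact Or.inl (by
          rw [hI, Finset.mem_filter]
          exact ⟨hi, hiK⟩))
    (fun r hr i hi p hp => by
      rw [hJR, Finset.mem_filter] at hi
      obtain ⟨-, -, -, h5⟩ := CC_facts hH hp
      refine ⟨?_, fun r' hr' hne => ?_⟩
      · rw [nr_qq hr p, h5, hi.2.1]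
        exact hD.self r hr
      · rw [nr_qq hr' p, h5, hi.2.1]
        exact hD.oth r hr r' hr' hne)
    (fun r hr i hi => by
      rw [hJR, Finset.mem_filter] at hi
      rw [hI, hJ1, Finset.mem_filter, Finset.mem_filter]
      exact ⟨⟨Finset.mem_univ _, by rw [hi.2.1]; exact hD.am r hr⟩, hi.2.2⟩)
    hJRc hQ1 (le_of_eq hu.symm)
    (fun i l hil => CC_disj hH i l hil)
    (by
      obtain ⟨e, he, h1⟩ := hk.ine
      exact ⟨⟨e, he⟩, fun h => h1 (Finset.mem_filter.1 h).2⟩)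
  have e1 : ((Fintype.piFinset fun i : J => CC R z H i).filter fun p => Nz R S₀ (univ.image p) ∧
      Pm t h T b (S₀ ∪ univ.image p)).card = ((RM t R a X z H k V).filter fun S => ky R z H S = (S₀, J) ∧
        (Nz R (sm z S) (la z S) ∧ Pm t h T b S)).card := by
    rw [← key_bij hH hk (fun S => Nz R (sm z S) (la z S) ∧ Pm t h T b S)]
    congr 1
    refine Finset.filter_congr fun p hp => ?_
    rw [Fintype.mem_piFinset] at hp
    rw [sm_fill hH hk.le hp, la_fill hH hk.le hp]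
  have e2 : ((Fintype.piFinset fun i : J => CC R z H i).filter fun p =>
      Nz R S₀ (univ.image p)).card = ((RM t R a X z H k V).filter fun S => ky R z H S = (S₀, J) ∧
        Nz R (sm z S) (la z S)).card := by
    rw [← key_bij hH hk (fun S => Nz R (sm z S) (la z S))]
    congr 1
    refine Finset.filter_congr fun p hp => ?_
    rw [Fintype.mem_piFinset] at hp
    rw [sm_fill hH hk.le hp, la_fill hH hk.le hp]
  rw [e1, e2] at hbox
  refine hbox.trans (add_le_add ?_ ?_)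
  · have h3 : er t u Q K.card ≤ (KT t + 4 * t) * (1 / 2 : ℝ) ^ V := by
      rw [hK2, hQ]
      exact er_bound t u V
    have hK0 : 0 ≤ (KT t + 4 * t) * (1 / 2 : ℝ) ^ V := by
      unfold KT
      positivity
    have h4 : (((RM t R a X z H k V).filter fun S => ky R z H S = (S₀, J) ∧
        Nz R (sm z S) (la z S)).card : ℝ) ≤
        (((RM t R a X z H k V).filter fun S => ky R z H S = (S₀, J)).card : ℝ) := by
      have : (RM t R a X z H k V).filter (fun S => ky R z H S = (S₀, J) ∧ Nz R (sm z S) (la z S)) ⊆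
          (RM t R a X z H k V).filter fun S => ky R z H S = (S₀, J) := by
        intro S hS
        rw [Finset.mem_filter] at hS ⊢
        exact ⟨hS.1, hS.2.1⟩
      exact_mod_cast Finset.card_le_card this
    gcongr
  · have hcJ : Fintype.card J = J.card := Fintype.card_coe J
    have hcard := hk.card
    have hJK : J.card ≤ k := by omega
    have hSK : S₀.card ≤ k := by omega
    obtain ⟨m, hm⟩ : ∃ m : ℕ, m = (@prs J _ lo J1).card := ⟨_, rfl⟩
    have hpr : m ≤ k * k := by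
      rw [hm]
      refine (@prs_card J _ lo J1).trans ?_
      rw [hcJ]
      exact Nat.mul_le_mul hJK hJK
    rw [← hm]
    have h5 : (2 : ℝ) ^ ((2 * S₀.card + 1) * Fintype.card J + m) ≤ 3 ^ (3 * k ^ 2) := by
      rcases Nat.eq_zero_or_pos k with hk0 | hk0
      · have h6 : J.card = 0 := by omega
        have h7 : m = 0 := by
          rw [hk0] at hpr
          omega
        rw [hcJ, h6, h7]
        simp [hk0]
      · have hexp : (2 * S₀.card + 1) * Fintype.card J + m ≤ 4 * k ^ 2 := by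
          rw [hcJ]
          have h6 : S₀.card * J.card ≤ k * k := Nat.mul_le_mul hSK hJK
          have h7 : k ≤ k * k := Nat.le_mul_of_pos_left k hk0
          calc (2 * S₀.card + 1) * J.card + m = 2 * (S₀.card * J.card) + J.card + m := by ring
            _ ≤ 2 * (k * k) + k * k + k * k := by omega
            _ = 4 * k ^ 2 := by ring
        calc (2 : ℝ) ^ ((2 * S₀.card + 1) * Fintype.card J + m) ≤ 2 ^ (4 * k ^ 2) :=
              pow_le_pow_right₀ (by norm_num) hexp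
          _ = (16 : ℝ) ^ (k ^ 2) := by rw [pow_mul]; norm_num
          _ ≤ (27 : ℝ) ^ (k ^ 2) := by
              apply pow_le_pow_left₀ <;> norm_num
          _ = 3 ^ (3 * k ^ 2) := by rw [pow_mul]; norm_num
    have hN0 : (0 : ℝ) < ((∏ p ∈ S₀, p : ℕ) : ℝ) := by
      exact_mod_cast Finset.prod_pos fun p hp => (hk.cl p hp).1.pos
    have hprod : ∏ j : J, (XX H j.1.1 : ℝ) ≤ X / ((∏ p ∈ S₀, p : ℕ) : ℝ) := by
      have h5 : ∏ j : J, (XX H j.1.1 : ℝ) = ((∏ k ∈ J, XX H k.1 : ℕ) : ℝ) := by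
        rw [← Finset.prod_coe_sort J (fun k => XX H k.1)]
        push_cast
        rfl
      rw [h5, le_div_iff₀ hN0, mul_comm]
      exact_mod_cast hk.prod
    calc (2 : ℝ) ^ ((2 * S₀.card + 1) * Fintype.card J + m) *
        (κ * ∏ j : J, (XX H j.1.1 : ℝ)) ≤
        3 ^ (3 * k ^ 2) * (κ * (X / ((∏ p ∈ S₀, p : ℕ) : ℝ))) := by gcongr
      _ = _ := by ring

/-- **The sum over the boxes.** -/
theorem t_KEYm (t : ℕ) : S_KEYm t := by
  intro hB1 hEQ hLA hBOX
  obtain ⟨C₁, hC₁, h1⟩ := hB1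
  refine ⟨C₁, hC₁, ?_⟩
  intro R T' a h b X z H k V N κ hD hX hH hz hκ hκz hN
  set T := (RM t R a X z H k V).image (ky R z H) with hT
  set B : ℝ := 3 ^ (3 * k ^ 2) * κ with hB
  have hB0 : 0 ≤ B := by positivity
  have hfib : ∀ (P : Finset ℕ → Prop) [DecidablePred P],
      (((RM t R a X z H k V).filter fun S => P S).card : ℝ) =
      ∑ e ∈ T, (((RM t R a X z H k V).filter fun S => ky R z H S = e ∧ P S).card : ℝ) := by
    intro P _
    rw [Finset.card_eq_sum_card_fiberwise (f := ky R z H) (t := T) (by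
      intro S hS
      rw [Finset.mem_coe, Finset.mem_filter] at hS
      exact Finset.mem_coe.2 (Finset.mem_image_of_mem _ hS.1))]
    push_cast
    refine Finset.sum_congr rfl fun e _ => ?_
    congr 2
    ext S
    simp only [Finset.mem_filter]
    tauto
  have hKP : ∀ e ∈ T, KQ t R a X z H k V e.1 e.2 := by
    intro e he
    rw [hT, Finset.mem_image] at he
    obtain ⟨S, hS, rfl⟩ := he
    obtain ⟨f1, f2, f3⟩ := rr_facts hS
    exact (rr_iff hH f1 (inj_ph f2)).1 hS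
  have hf1 := hfib fun S => Nz R (sm z S) (la z S) ∧ Pm t h T' b S
  have hf2 := hfib fun S => Nz R (sm z S) (la z S)
  have hf3 := hfib fun _ => True
  simp only [and_true, Finset.filter_true] at hf3
  rw [hf1, hf2, hf3, Finset.mul_sum, ← Finset.sum_sub_distrib]
  refine (Finset.abs_sum_le_sum_abs _ _).trans ?_
  have h3 : ∀ e ∈ T, |(((RM t R a X z H k V).filter fun S => ky R z H S = e ∧
        (Nz R (sm z S) (la z S) ∧ Pm t h T' b S)).card : ℝ) -
      (∏ l, cv (b l)) * (((RM t R a X z H k V).filter fun S => ky R z H S = e ∧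
        Nz R (sm z S) (la z S)).card : ℝ)| ≤
      (KT t + 4 * t) * (1 / 2 : ℝ) ^ V * (((RM t R a X z H k V).filter fun S => ky R z H S = e).card : ℝ) +
      B * (X / ((∏ p ∈ e.1, p : ℕ) : ℝ)) := by
    intro e he
    obtain ⟨S₀, J⟩ := e
    have hk' := hKP _ he
    exact per_key hBOX hEQ hLA hD h b hH hκ hk' (hb_box h1 hH hz hκ hκz)
  refine (Finset.sum_le_sum h3).trans ?_
  rw [Finset.sum_add_distrib, ← Finset.mul_sum]
  refine add_le_add le_rfl ?_
  have hsub : T ⊆ (TT X) ×ˢ ((range N ×ˢ range (qq R)).powerset.filter fun J => J.card ≤ k) := by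
    intro e he
    have hk' := hKP e he
    rw [hT, Finset.mem_image] at he
    obtain ⟨S, hS, rfl⟩ := he
    obtain ⟨f1, f2, f3⟩ := rr_facts hS
    rw [Finset.mem_product, Finset.mem_filter, Finset.mem_powerset]
    refine ⟨mem_TT (fun q hq => (hk'.cl q hq).1) ?_, ?_, ?_⟩
    · refine le_trans ?_ f3
      exact Nat.le_of_dvd (Finset.prod_pos fun p hp => (f1 p hp).1.1.pos)
        (Finset.prod_dvd_prod_of_subset _ _ _ (Finset.filter_subset _ _))
    · intro e he
      unfold ky at he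
      rw [Finset.mem_image] at he
      obtain ⟨q, hq, rfl⟩ := he
      have hqS := (Finset.mem_filter.1 hq).1
      have hq0 := (f1 q hqS).1.1.pos
      have hqX : q ≤ X := by
        refine le_trans ?_ f3
        exact Nat.le_of_dvd (Finset.prod_pos fun p hp => (f1 p hp).1.1.pos)
          (Finset.dvd_prod_of_mem _ hqS)
      unfold ph
      rw [Finset.mem_product, Finset.mem_range, Finset.mem_range]
      refine ⟨?_, Nat.mod_lt _ (qq_pos hD.pr)⟩
      have h3 : ((jj H q : ℕ) : ℝ) < N := by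
        refine lt_of_le_of_lt (Nat.floor_le (mul_nonneg (Nat.cast_nonneg _)
          (Real.log_nonneg (by exact_mod_cast hq0)))) ?_
        refine lt_of_le_of_lt ?_ hN
        refine mul_le_mul_of_nonneg_left ?_ (Nat.cast_nonneg _)
        exact Real.log_le_log (by exact_mod_cast hq0) (by exact_mod_cast hqX)
      exact_mod_cast h3
    · have := hk'.card
      omega
  refine (Finset.sum_le_sum_of_subset_of_nonneg hsub fun _ _ _ => by positivity).trans ?_
  rw [Finset.sum_product]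
  simp only [Finset.sum_const, nsmul_eq_mul]
  rw [← Finset.mul_sum]
  have h4 : ((((range N ×ˢ range (qq R)).powerset.filter fun J => J.card ≤ k).card : ℕ) : ℝ) ≤
      (qq R * N + qq R : ℝ) ^ k := by
    have h5 := card_sub (range N ×ˢ range (qq R)) k
    rw [Finset.card_product, Finset.card_range, Finset.card_range] at h5
    have hq1 : (1 : ℝ) ≤ qq R := by exact_mod_cast qq_pos hD.pr
    calc ((((range N ×ˢ range (qq R)).powerset.filter fun J => J.card ≤ k).card : ℕ) : ℝ) ≤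
          (((N * qq R + 1) ^ k : ℕ) : ℝ) := by exact_mod_cast h5
      _ = (N * qq R + 1 : ℝ) ^ k := by push_cast; ring
      _ ≤ _ := by
        apply pow_le_pow_left₀ (by positivity)
        rw [mul_comm (N : ℝ)]
        linarith
  have h5 : ∑ S ∈ TT X, B * (X / ((∏ p ∈ S, p : ℕ) : ℝ)) ≤ B * (X * (1 + Real.log X)) := by
    have h6 : ∀ S ∈ TT X, B * ((X : ℝ) / ((∏ p ∈ S, p : ℕ) : ℝ)) =
        B * X * (1 / ((∏ p ∈ S, p : ℕ) : ℝ)) := by
      intro S _
      ring
    rw [Finset.sum_congr rfl h6, ← Finset.mul_sum]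
    have h7 := mul_le_mul_of_nonneg_left (harm_TT X) (mul_nonneg hB0 (Nat.cast_nonneg X))
    refine h7.trans (le_of_eq ?_)
    ring
  have h6 : 0 ≤ ∑ S ∈ TT X, B * ((X : ℝ) / ((∏ p ∈ S, p : ℕ) : ℝ)) :=
    Finset.sum_nonneg fun _ _ => by positivity
  rw [mul_assoc]
  gcongr

end Pool.Agent.L0h2.M.KEY
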