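import Pool.Agent.L0h2.M.Asy
import Pool.Agent.L0h2.M.BOX
import Pool.Agent.L0h2.M.KEY
import Pool.Agent.L0h2.M.FEW
import Pool.Agent.L0h2.M.Cls
import Pool.Agent.L0h2.K.Fin

/-!
# Joint law for distinct twists: the law for the sets of primes
-/

set_option autoImplicit false

open scoped Classical

namespace Pool.Agent.L0h2.M

open Pool.Agent.L0h2.K (SR cv)

theorem t_DQm_all : S_DQm :=
  t_DQm Pool.Agent.R413.SQ.BIL.t_BIL Pool.Agent.Y356.CQ.t_EQ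
    (t_LAm Pool.Agent.Y948.CQ.t_C2)
    BOX.t_BOXm KEY.t_KEYm Pool.Agent.R413.SQ.CNT.t_CNT
    Pool.Agent.Y488.CX.t_SIE Pool.Agent.L0h2.K.HAL.t_HALk Pool.Agent.L0h2.K.BAD.t_BADk
    FEW.t_FEWm Pool.Agent.L0h2.K.t_LOWk_all Pool.Agent.Y948.CQ.t_C2

/-- **The joint law for pairwise different sets of primes.** -/
theorem law_sets (t : ℕ) (R : Finset ℕ) (hR : ∀ r ∈ R, r.Prime ∧ r % 4 = 1) (hne : R.Nonempty)
    (T : Fin t → Finset ℕ) (hT : ∀ l, T l ⊆ R) (hi : Function.Injective T) (h : ℕ → ZMod 2)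
    (b : Fin t → Bool) : Filter.Tendsto
    (fun X : ℕ => (((SR R X).filter (Pm t h T b)).card : ℝ) / ((SR R X).card : ℝ)) Filter.atTop
    (nhds (∏ l, cv (b l))) := by
  obtain ⟨a, ha⟩ := dm_of hR hne T hT hi
  exact t_DQm_all t R T a h b ha

end Pool.Agent.L0h2.M
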