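import Pool.Agent.L0h2.M.Pr
import Pool.Agent.Y219.CQ.Blk

/-!
# Joint law for distinct twists: the probability of a bad position
-/

set_option autoImplicit false
set_option linter.unusedSectionVars false
set_option linter.unusedVariables false

open scoped Classical

namespace Pool.Agent.L0h2.M

open Function Module
open Pool.Agent.Y759.CX (fr fr_equiv fr_nonneg fr_le_one fr_mono fr_not fr_prod fr_comp fr_exists
  fr_single)
open Pool.Agent.Y219.CQ (F Sy Ns sp fr_avg card_mod finSy finHom finHom2 zx zx_of zx_not mf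
  mf_apply)

section gp

variable {J : Type} [Fintype J] {t : ℕ} {X : Fin t → Type} [∀ j, AddCommGroup (X j)]
  [∀ j, Module F (X j)] [∀ j, Finite (X j)]

/-- the equations of the large variables -/
def InK (C : ∀ j, X j →ₗ[F] (J → F) →ₗ[F] F) (γ : Fin t → J → F) (I : Finset J) (j : Fin t)
    (S : Sy (J → F)) (x : X j) (v : J → F) (c : F) : Prop :=
  v ∈ vI I ∧ ∀ w ∈ vI I, C j x w + S.1 v w + dq (γ j) v w = c * (S.1 w w + dq (γ j) w w)

lemma cnt (G : Finset ((∀ j, X j) × (Fin t → J → F))) (m : Fin t → Finset J)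
    (h : ∀ a ∈ G, ∀ b ∈ G, a.1 = b.1 → (∀ j, ∀ k ∈ m j, a.2 j k = b.2 j k) → a.2 = b.2) :
    (G.card : ℝ) ≤ (∏ j, (Nat.card (X j) : ℝ)) * 2 ^ (∑ j, (m j).card) := by
  have := fun j => Fintype.ofFinite (X j)
  have h1 : G.card ≤ (Finset.univ : Finset ((∀ j, X j) × (∀ j, m j → F))).card := by
    refine Finset.card_le_card_of_injOn (fun a => (a.1, fun j k => a.2 j k))
      (fun _ _ => Finset.mem_coe.2 (Finset.mem_univ _)) fun a ha b hb hab => ?_
    have h2 := (Prod.mk.inj hab).1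
    have h3 := (Prod.mk.inj hab).2
    exact Prod.ext h2 (h a ha b hb h2 fun j k hk => congrFun (congrFun h3 j) ⟨k, hk⟩)
  rw [Finset.card_univ, Fintype.card_prod, Fintype.card_pi, Fintype.card_pi] at h1
  have h2 : ∀ j, Fintype.card (m j → F) = 2 ^ (m j).card := fun j => by
    rw [Fintype.card_fun, ZMod.card, Fintype.card_coe]
  simp only [h2] at h1
  rw [Finset.prod_pow_eq_pow_sum] at h1
  have h3 : ∀ j, (Nat.card (X j) : ℝ) = (Fintype.card (X j) : ℝ) := fun j => by
    rw [Nat.card_eq_fintype_card]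
  simp only [h3]
  exact_mod_cast h1

lemma pX {u : ℕ} (hX : ∀ j, Nat.card (X j) ≤ 2 ^ u) :
    (∏ j, (Nat.card (X j) : ℝ)) ≤ 2 ^ (t * u) := by
  have h1 : (∏ j, (Nat.card (X j) : ℝ)) ≤ ∏ _j : Fin t, (2 : ℝ) ^ u :=
    Finset.prod_le_prod (fun _ _ => Nat.cast_nonneg _) fun j _ => by exact_mod_cast hX j
  refine h1.trans (le_of_eq ?_)
  rw [Finset.prod_const, Finset.card_univ, Fintype.card_fin, ← pow_mul, mul_comm]

lemma InK_row {C : ∀ j, X j →ₗ[F] (J → F) →ₗ[F] F} {γ : Fin t → J → F} {I : Finset J} {j : Fin t}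
    {S : Sy (J → F)} {x : X j} {v : J → F} {c : F} (h : InK C γ I j S x v c) {w : J → F}
    (hw : w ∈ vI I) : S.1 v w + c * S.1 w w = C j x w + dq (γ j) v w + c * dq (γ j) w w := by
  have h1 := h.2 w hw
  have h2 : ∀ a b s q d e : F, a + s + q = d * (b + e) → s + d * b = a + q + d * e := by decide
  exact h2 _ _ _ _ _ _ h1

/-- the bound for one index -/
theorem idx_bound (C : ∀ j, X j →ₗ[F] (J → F) →ₗ[F] F) (γ : Fin t → J → F) (I : Finset J)
    (Q u : ℕ) (hX : ∀ j, Nat.card (X j) ≤ 2 ^ u) (hQ : Q ≤ I.card)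
    (hd : ∀ i l, i ≠ l → Q ≤ (I.filter fun k => γ i k ≠ γ l k).card) (Λ : Finset (Fin t))
    (i0 i1 : Fin t) (c : Fin t → F) (h0 : i0 ∈ Λ) (h1 : ∑ j ∈ Λ, c j = 0 → i1 ∈ Λ ∧ i1 ≠ i0) :
    fr (fun S : Sy (J → F) => ∃ (x : ∀ j, X j) (v : Fin t → J → F),
      (∀ j, j ∉ Λ → x j = 0 ∧ v j = 0) ∧
      LinearIndependent F (fun j : (Λ.erase i0 : Finset (Fin t)) => v j) ∧
      ∑ j ∈ Λ, v j = 0 ∧ ∀ j ∈ Λ, InK C γ I j S (x j) (v j) (c j)) ≤
      2 ^ (t * t) * 2 ^ (t * u) / 2 ^ Q := by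
  have hFX := fun j => Fintype.ofFinite (X j)
  obtain ⟨d, hd'⟩ : ∃ d, d = (Λ.erase i0).card := ⟨_, rfl⟩
  have hdt : d ≤ t := by
    rw [hd']
    refine (Finset.card_le_univ _).trans ?_
    rw [Fintype.card_fin]
  have hdd : (2 : ℝ) ^ (d * d) ≤ 2 ^ (t * t) :=
    pow_le_pow_right₀ (by norm_num) (Nat.mul_le_mul hdt hdt)
  have hcd : Fintype.card (Λ.erase i0 : Finset (Fin t)) = d := by
    rw [Fintype.card_coe, hd']
  have hpX := pX (t := t) hX
  have h01 : ∀ a : F, a = 0 ∨ a = 1 := by decide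
  rcases h01 (∑ j ∈ Λ, c j) with hc | hc
  · -- the sum is zero
    obtain ⟨hi1, hi10⟩ := h1 hc
    obtain ⟨Δ, hΔ⟩ : ∃ Δ : Finset J, Δ = I.filter fun k => γ i0 k ≠ γ i1 k := ⟨_, rfl⟩
    have hΔQ : Q ≤ Δ.card := by
      rw [hΔ]
      exact hd i0 i1 hi10.symm
    have hΔI : Δ ⊆ I := by
      rw [hΔ]
      exact Finset.filter_subset _ _
    obtain ⟨G, hG⟩ : ∃ G : Finset ((∀ j, X j) × (Fin t → J → F)), G = Finset.univ.filter fun a =>
      (∀ j, j ∉ Λ → a.1 j = 0 ∧ a.2 j = 0) ∧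
      LinearIndependent F (fun j : (Λ.erase i0 : Finset (Fin t)) => a.2 j) ∧
      ∑ j ∈ Λ, a.2 j = 0 ∧ (∀ j ∈ Λ, a.2 j ∈ vI I) ∧ ∀ k ∈ I, ∑ j ∈ Λ,
        (C j (a.1 j) (Pi.single k 1) + γ j k * a.2 j k + c j * γ j k) = 0 := ⟨_, rfl⟩
    obtain ⟨m, hm⟩ : ∃ m : Fin t → Finset J, m = fun j => if j = i1 then I \ Δ else
      if j ∈ Λ.erase i0 then I else ∅ := ⟨_, rfl⟩
    have hGc := cnt G m (fun a ha b hb hab hm' => by
      rw [hG, Finset.mem_filter] at ha hb
      obtain ⟨-, ha1, -, ha2, ha3, ha4⟩ := ha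
      obtain ⟨-, hb1, -, hb2, hb3, hb4⟩ := hb
      have e1 : ∀ j, j ≠ i0 → j ≠ i1 → a.2 j = b.2 j := by
        intro j hj0 hj1
        by_cases hj : j ∈ Λ
        · funext k
          by_cases hk : k ∈ I
          · refine hm' j k ?_
            rw [hm]
            show k ∈ if j = i1 then I \ Δ else if j ∈ Λ.erase i0 then I else ∅
            rw [if_neg hj1, if_pos (Finset.mem_erase.2 ⟨hj0, hj⟩)]
            exact hk
          · rw [ha3 j hj k hk, hb3 j hj k hk]
        · rw [(ha1 j hj).2, (hb1 j hj).2]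
      have e2 : a.2 i1 = b.2 i1 := by
        funext k
        by_cases hk : k ∈ I
        · by_cases hkΔ : k ∈ Δ
          · have s1 : ∑ j ∈ Λ, (a.2 j k - b.2 j k) = 0 := by
              rw [Finset.sum_sub_distrib]
              have q1 := congrFun ha2 k
              have q2 := congrFun hb2 k
              rw [Finset.sum_apply] at q1 q2
              rw [q1, q2, sub_self]
            have s2 : ∑ j ∈ Λ, γ j k * (a.2 j k - b.2 j k) = 0 := by
              have q1 := ha4 k hk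
              have q2 := hb4 k hk
              rw [← hab] at q2
              have q3 : ∑ j ∈ Λ, γ j k * (a.2 j k - b.2 j k) =
                  ∑ j ∈ Λ, (C j (a.1 j) (Pi.single k 1) + γ j k * a.2 j k + c j * γ j k) -
                  ∑ j ∈ Λ, (C j (a.1 j) (Pi.single k 1) + γ j k * b.2 j k + c j * γ j k) := by
                rw [← Finset.sum_sub_distrib]
                exact Finset.sum_congr rfl fun j _ => by ring
              rw [q3, q1, q2, sub_self]
            rw [Finset.sum_eq_add_of_mem i0 i1 h0 hi1 hi10.symm (fun j _ hj => by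
              rw [e1 j hj.1 hj.2, sub_self])] at s1
            rw [Finset.sum_eq_add_of_mem i0 i1 h0 hi1 hi10.symm (fun j _ hj => by
              rw [e1 j hj.1 hj.2, sub_self, mul_zero])] at s2
            have hne : γ i0 k ≠ γ i1 k := by
              rw [hΔ, Finset.mem_filter] at hkΔ
              exact hkΔ.2
            have h2 : ∀ p q x y : F, x + y = 0 → p * x + q * y = 0 → p ≠ q → y = 0 := by decide
            exact sub_eq_zero.1 (h2 _ _ _ _ s1 s2 hne)
          · refine hm' i1 k ?_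
            rw [hm]
            show k ∈ if i1 = i1 then I \ Δ else if i1 ∈ Λ.erase i0 then I else ∅
            rw [if_pos rfl]
            exact Finset.mem_sdiff.2 ⟨hk, hkΔ⟩
        · rw [ha3 i1 hi1 k hk, hb3 i1 hi1 k hk]
      have e3 : a.2 i0 = b.2 i0 := by
        have q1 : ∑ j ∈ Λ, (a.2 j - b.2 j) = 0 := by
          rw [Finset.sum_sub_distrib, ha2, hb2, sub_self]
        rw [Finset.sum_eq_single_of_mem i0 h0 (fun j _ hj => by
          by_cases hj1 : j = i1
          · rw [hj1, e2, sub_self]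
          · rw [e1 j hj hj1, sub_self])] at q1
        exact sub_eq_zero.1 q1
      funext j
      by_cases hj0 : j = i0
      · rw [hj0, e3]
      · by_cases hj1 : j = i1
        · rw [hj1, e2]
        · rw [e1 j hj0 hj1])
    have hms : ∑ j, (m j).card + Δ.card ≤ d * I.card := by
      have hi1' : i1 ∈ Λ.erase i0 := Finset.mem_erase.2 ⟨hi10, hi1⟩
      have q1 : ∑ j, (m j).card = ∑ j ∈ Λ.erase i0, (m j).card := by
        symm
        refine Finset.sum_subset (Finset.subset_univ _) fun j _ hj => ?_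
        rw [hm]
        show (if j = i1 then I \ Δ else if j ∈ Λ.erase i0 then I else ∅).card = 0
        rw [if_neg (show j ≠ i1 from fun h => hj (by rw [h]; exact hi1')), if_neg hj,
          Finset.card_empty]
      have q2 : (m i1).card + Δ.card = I.card := by
        rw [hm]
        show (if i1 = i1 then I \ Δ else if i1 ∈ Λ.erase i0 then I else ∅).card + Δ.card = I.card
        rw [if_pos rfl]
        exact Finset.card_sdiff_add_card_eq_card hΔI
      have q3 : ∑ j ∈ (Λ.erase i0).erase i1, (m j).card ≤ (d - 1) * I.card := by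
        have q4 : ((Λ.erase i0).erase i1).card = d - 1 := by
          rw [Finset.card_erase_of_mem hi1', ← hd']
        rw [← q4, ← smul_eq_mul, ← Finset.sum_const]
        refine Finset.sum_le_sum fun j _ => ?_
        rw [hm]
        show (if j = i1 then I \ Δ else if j ∈ Λ.erase i0 then I else ∅).card ≤ I.card
        split_ifs
        · exact Finset.card_le_card Finset.sdiff_subset
        · exact le_rfl
        · rw [Finset.card_empty]
          exact Nat.zero_le _
      have q5 : 1 ≤ d := by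
        rw [hd']
        exact Finset.card_pos.2 ⟨i1, hi1'⟩
      rw [q1, ← Finset.add_sum_erase _ _ hi1']
      obtain ⟨d', rfl⟩ : ∃ d', d = d' + 1 := ⟨d - 1, by omega⟩
      rw [Nat.add_sub_cancel] at q3
      have q6 : (d' + 1) * I.card = d' * I.card + I.card := by ring
      omega
    have hU := fr_union G (fun a (S : Sy (J → F)) => ∀ j ∈ Λ, InK C γ I j S (a.1 j) (a.2 j) (c j))
      (fun S : Sy (J → F) => ∃ (x : ∀ j, X j) (v : Fin t → J → F),
        (∀ j, j ∉ Λ → x j = 0 ∧ v j = 0) ∧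
        LinearIndependent F (fun j : (Λ.erase i0 : Finset (Fin t)) => v j) ∧
        ∑ j ∈ Λ, v j = 0 ∧ ∀ j ∈ Λ, InK C γ I j S (x j) (v j) (c j))
      (2 ^ (d * d) / 2 ^ (d * I.card))
      (by
        rintro S ⟨x, v, hx, hv, hs, hin⟩
        refine ⟨(x, v), ?_, hin⟩
        rw [hG, Finset.mem_filter]
        refine ⟨Finset.mem_univ _, hx, hv, hs, fun j hj => (hin j hj).1, fun k hk => ?_⟩
        have hek : (Pi.single k 1 : J → F) ∈ vI I := fun l hl =>
          Pi.single_eq_of_ne (show l ≠ k from fun h => hl (by rw [h]; exact hk)) _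
        have q1 : ∑ j ∈ Λ, (S.1 (v j) (Pi.single k 1) +
            c j * S.1 (Pi.single k 1) (Pi.single k 1)) = 0 := by
          rw [Finset.sum_add_distrib, ← Finset.sum_mul, hc, zero_mul, add_zero]
          have q2 : S.1 (∑ j ∈ Λ, v j) (Pi.single k 1) = 0 := by
            rw [hs, map_zero]
            rfl
          rw [map_sum, LinearMap.sum_apply] at q2
          exact q2
        rw [← q1]
        refine Finset.sum_congr rfl fun j hj => ?_
        rw [InK_row (hin j hj) hek, dq_single, dq_single, Pi.single_eq_same, mul_one])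
      (by
        intro a ha
        rw [hG, Finset.mem_filter] at ha
        have q1 := pri I (fun j : (Λ.erase i0 : Finset (Fin t)) => a.2 j) ha.2.2.1
          (fun j => c j) ∅ (fun S : Sy (J → F) => ∀ j ∈ Λ, InK C γ I j S (a.1 j) (a.2 j) (c j))
          (fun S S' hS hS' => ⟨fun k hk => absurd hk (Finset.notMem_empty k), fun j w hw => by
            have hj := Finset.mem_of_mem_erase j.2
            rw [InK_row (hS j hj) hw, InK_row (hS' j hj) hw]⟩)
        rw [hcd, Finset.card_empty, pow_zero, mul_one] at q1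
        exact q1)
    refine hU.trans ?_
    calc (G.card : ℝ) * (2 ^ (d * d) / 2 ^ (d * I.card)) ≤
        ((∏ j, (Nat.card (X j) : ℝ)) * 2 ^ (∑ j, (m j).card)) *
          (2 ^ (d * d) / 2 ^ (d * I.card)) := mul_le_mul_of_nonneg_right hGc (by positivity)
      _ ≤ (2 ^ (t * u) * 2 ^ (∑ j, (m j).card)) * (2 ^ (t * t) / 2 ^ (d * I.card)) := by
          gcongr
      _ ≤ 2 ^ (t * t) * 2 ^ (t * u) / 2 ^ Q := by
          rw [mul_div_assoc', div_le_div_iff₀ (by positivity) (by positivity)]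
          have q1 : (2 : ℝ) ^ (∑ j, (m j).card) * 2 ^ Q ≤ 2 ^ (d * I.card) := by
            rw [← pow_add]
            exact pow_le_pow_right₀ (by norm_num) (by omega)
          calc (2 : ℝ) ^ (t * u) * 2 ^ (∑ j, (m j).card) * 2 ^ (t * t) * 2 ^ Q =
              2 ^ (t * t) * 2 ^ (t * u) * (2 ^ (∑ j, (m j).card) * 2 ^ Q) := by ring
            _ ≤ _ := mul_le_mul_of_nonneg_left q1 (by positivity)
  · -- the sum is one
    obtain ⟨G, hG⟩ : ∃ G : Finset ((∀ j, X j) × (Fin t → J → F)), G = Finset.univ.filter fun a =>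
      (∀ j, j ∉ Λ → a.1 j = 0 ∧ a.2 j = 0) ∧
      LinearIndependent F (fun j : (Λ.erase i0 : Finset (Fin t)) => a.2 j) ∧
      ∑ j ∈ Λ, a.2 j = 0 ∧ (∀ j ∈ Λ, a.2 j ∈ vI I) := ⟨_, rfl⟩
    obtain ⟨m, hm⟩ : ∃ m : Fin t → Finset J, m = fun j =>
      if j ∈ Λ.erase i0 then I else ∅ := ⟨_, rfl⟩
    have hGc := cnt G m (fun a ha b hb hab hm' => by
      rw [hG, Finset.mem_filter] at ha hb
      obtain ⟨-, ha1, -, ha2, ha3⟩ := ha
      obtain ⟨-, hb1, -, hb2, hb3⟩ := hb
      have e1 : ∀ j, j ≠ i0 → a.2 j = b.2 j := by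
        intro j hj0
        by_cases hj : j ∈ Λ
        · funext k
          by_cases hk : k ∈ I
          · refine hm' j k ?_
            rw [hm]
            show k ∈ if j ∈ Λ.erase i0 then I else ∅
            rw [if_pos (Finset.mem_erase.2 ⟨hj0, hj⟩)]
            exact hk
          · rw [ha3 j hj k hk, hb3 j hj k hk]
        · rw [(ha1 j hj).2, (hb1 j hj).2]
      have e3 : a.2 i0 = b.2 i0 := by
        have q1 : ∑ j ∈ Λ, (a.2 j - b.2 j) = 0 := by
          rw [Finset.sum_sub_distrib, ha2, hb2, sub_self]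
        rw [Finset.sum_eq_single_of_mem i0 h0 (fun j _ hj => by
          rw [e1 j hj, sub_self])] at q1
        exact sub_eq_zero.1 q1
      funext j
      by_cases hj0 : j = i0
      · rw [hj0, e3]
      · rw [e1 j hj0])
    have hms : ∑ j, (m j).card = d * I.card := by
      have q1 : ∑ j, (m j).card = ∑ j ∈ Λ.erase i0, (m j).card := by
        symm
        refine Finset.sum_subset (Finset.subset_univ _) fun j _ hj => ?_
        rw [hm]
        show (if j ∈ Λ.erase i0 then I else ∅).card = 0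
        rw [if_neg hj, Finset.card_empty]
      rw [q1, hd', ← smul_eq_mul, ← Finset.sum_const]
      refine Finset.sum_congr rfl fun j hj => ?_
      rw [hm]
      show (if j ∈ Λ.erase i0 then I else ∅).card = I.card
      rw [if_pos hj]
    have hU := fr_union G (fun a (S : Sy (J → F)) => ∀ j ∈ Λ, InK C γ I j S (a.1 j) (a.2 j) (c j))
      (fun S : Sy (J → F) => ∃ (x : ∀ j, X j) (v : Fin t → J → F),
        (∀ j, j ∉ Λ → x j = 0 ∧ v j = 0) ∧
        LinearIndependent F (fun j : (Λ.erase i0 : Finset (Fin t)) => v j) ∧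
        ∑ j ∈ Λ, v j = 0 ∧ ∀ j ∈ Λ, InK C γ I j S (x j) (v j) (c j))
      (2 ^ (d * d) / (2 ^ (d * I.card) * 2 ^ I.card))
      (by
        rintro S ⟨x, v, hx, hv, hs, hin⟩
        refine ⟨(x, v), ?_, hin⟩
        rw [hG, Finset.mem_filter]
        exact ⟨Finset.mem_univ _, hx, hv, hs, fun j hj => (hin j hj).1⟩)
      (by
        intro a ha
        rw [hG, Finset.mem_filter] at ha
        have q1 := pri I (fun j : (Λ.erase i0 : Finset (Fin t)) => a.2 j) ha.2.2.1
          (fun j => c j) I (fun S : Sy (J → F) => ∀ j ∈ Λ, InK C γ I j S (a.1 j) (a.2 j) (c j))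
          (fun S S' hS hS' => ⟨fun k hk => by
            have hek : (Pi.single k 1 : J → F) ∈ vI I := fun l hl =>
              Pi.single_eq_of_ne (show l ≠ k from fun h => hl (by rw [h]; exact hk)) _
            have q2 : ∀ S : Sy (J → F), (∀ j ∈ Λ, InK C γ I j S (a.1 j) (a.2 j) (c j)) →
                S.1 (Pi.single k 1) (Pi.single k 1) = ∑ j ∈ Λ, (C j (a.1 j) (Pi.single k 1) +
                  dq (γ j) (a.2 j) (Pi.single k 1) +
                  c j * dq (γ j) (Pi.single k 1) (Pi.single k 1)) := by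
              intro S hS
              have q1 : ∑ j ∈ Λ, (S.1 (a.2 j) (Pi.single k 1) +
                  c j * S.1 (Pi.single k 1) (Pi.single k 1)) =
                  S.1 (Pi.single k 1) (Pi.single k 1) := by
                rw [Finset.sum_add_distrib, ← Finset.sum_mul, hc, one_mul]
                have q2 : S.1 (∑ j ∈ Λ, a.2 j) (Pi.single k 1) = 0 := by
                  rw [ha.2.2.2.1, map_zero]
                  rfl
                rw [map_sum, LinearMap.sum_apply] at q2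
                rw [q2, zero_add]
              rw [← q1]
              exact Finset.sum_congr rfl fun j hj => InK_row (hS j hj) hek
            rw [q2 S hS, q2 S' hS'], fun j w hw => by
            have hj := Finset.mem_of_mem_erase j.2
            rw [InK_row (hS j hj) hw, InK_row (hS' j hj) hw]⟩)
        rw [hcd] at q1
        exact q1)
    refine hU.trans ?_
    calc (G.card : ℝ) * (2 ^ (d * d) / (2 ^ (d * I.card) * 2 ^ I.card)) ≤
        ((∏ j, (Nat.card (X j) : ℝ)) * 2 ^ (∑ j, (m j).card)) *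
          (2 ^ (d * d) / (2 ^ (d * I.card) * 2 ^ I.card)) :=
            mul_le_mul_of_nonneg_right hGc (by positivity)
      _ ≤ (2 ^ (t * u) * 2 ^ (∑ j, (m j).card)) *
          (2 ^ (t * t) / (2 ^ (d * I.card) * 2 ^ I.card)) := by
          gcongr
      _ ≤ 2 ^ (t * t) * 2 ^ (t * u) / 2 ^ Q := by
          rw [hms, mul_div_assoc', div_le_div_iff₀ (by positivity) (by positivity)]
          have q1 : (2 : ℝ) ^ Q ≤ 2 ^ I.card := pow_le_pow_right₀ (by norm_num) hQ
          calc (2 : ℝ) ^ (t * u) * 2 ^ (d * I.card) * 2 ^ (t * t) * 2 ^ Q =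
              2 ^ (t * t) * 2 ^ (t * u) * 2 ^ (d * I.card) * 2 ^ Q := by ring
            _ ≤ 2 ^ (t * t) * 2 ^ (t * u) * 2 ^ (d * I.card) * 2 ^ I.card :=
              mul_le_mul_of_nonneg_left q1 (by positivity)
            _ = _ := by ring

/-- the symmetric form of an index -/
noncomputable def MM (A : ∀ j, X j →ₗ[F] X j →ₗ[F] F) (C : ∀ j, X j →ₗ[F] (J → F) →ₗ[F] F)
    (γ : Fin t → J → F) (j : Fin t) (S : Sy (J → F)) :
    (X j × (J → F)) →ₗ[F] (X j × (J → F)) →ₗ[F] F := mf (A j) (C j) (S.1 + dq (γ j))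

lemma MM_apply (A : ∀ j, X j →ₗ[F] X j →ₗ[F] F) (C : ∀ j, X j →ₗ[F] (J → F) →ₗ[F] F)
    (γ : Fin t → J → F) (j : Fin t) (S : Sy (J → F)) (w w' : X j × (J → F)) :
    MM A C γ j S w w' = A j w.1 w'.1 + C j w.1 w'.2 + C j w'.1 w.2 +
      (S.1 w.2 w'.2 + dq (γ j) w.2 w'.2) := rfl

lemma MM_symm {A : ∀ j, X j →ₗ[F] X j →ₗ[F] F} (hA : ∀ j x y, A j x y = A j y x)
    (C : ∀ j, X j →ₗ[F] (J → F) →ₗ[F] F) (γ : Fin t → J → F) (j : Fin t) (S : Sy (J → F))
    (w w' : X j × (J → F)) : MM A C γ j S w w' = MM A C γ j S w' w := by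
  rw [MM_apply, MM_apply, hA j w.1, S.2 w.2 w'.2, dq_symm]
  ring

/-- the subspace of a set of indices -/
def LL (Y : Type) [AddCommGroup Y] [Module F Y] (I : Finset J) : Submodule F (Y × (J → F)) :=
  (vI I).comap (LinearMap.snd F Y (J → F))

lemma mem_LL {Y : Type} [AddCommGroup Y] [Module F Y] {I : Finset J} {p : Y × (J → F)} :
    p ∈ LL Y I ↔ p.2 ∈ vI I := Iff.rfl

/-- good position -/
def GP (A : ∀ j, X j →ₗ[F] X j →ₗ[F] F) (hA : ∀ j x y, A j x y = A j y x)
    (C : ∀ j, X j →ₗ[F] (J → F) →ₗ[F] F) (γ : Fin t → J → F) (I : Finset J) (S : Sy (J → F)) :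
    Prop :=
  ∀ z : ∀ j, (X j × (J → F)) × F, (∀ j, z j ∈ rx (MM A C γ j S) (MM_symm hA C γ j S) (LL (X j) I)) →
    ∑ j, (z j).1.2 = 0 → ∀ j, z j = 0

/-- the constant -/
noncomputable def KT (t : ℕ) : ℝ :=
  (Fintype.card (Finset (Fin t) × Fin t × Fin t × (Fin t → F)) : ℝ) * 2 ^ (t * t)

/-- **The probability of a bad position.** -/
theorem gp_bound (A : ∀ j, X j →ₗ[F] X j →ₗ[F] F) (hA : ∀ j x y, A j x y = A j y x)
    (C : ∀ j, X j →ₗ[F] (J → F) →ₗ[F] F) (γ : Fin t → J → F) (I : Finset J)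
    (Q u : ℕ) (hX : ∀ j, Nat.card (X j) ≤ 2 ^ u) (hQ : Q ≤ I.card)
    (hd : ∀ i l, i ≠ l → Q ≤ (I.filter fun k => γ i k ≠ γ l k).card)
    (hC : ∀ j x, (∀ w ∈ vI I, C j x w = 0) → x = 0) :
    fr (fun S : Sy (J → F) => ¬ GP A hA C γ I S) ≤ KT t * (2 ^ (t * u) / 2 ^ Q) := by
  have hU := fr_union (Finset.univ : Finset (Finset (Fin t) × Fin t × Fin t × (Fin t → F)))
    (fun a (S : Sy (J → F)) => (a.2.1 ∈ a.1 ∧ (∑ j ∈ a.1, a.2.2.2 j = 0 → a.2.2.1 ∈ a.1 ∧
      a.2.2.1 ≠ a.2.1)) ∧ ∃ (x : ∀ j, X j) (v : Fin t → J → F),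
      (∀ j, j ∉ a.1 → x j = 0 ∧ v j = 0) ∧
      LinearIndependent F (fun j : (a.1.erase a.2.1 : Finset (Fin t)) => v j) ∧
      ∑ j ∈ a.1, v j = 0 ∧ ∀ j ∈ a.1, InK C γ I j S (x j) (v j) (a.2.2.2 j))
    (fun S : Sy (J → F) => ¬ GP A hA C γ I S) (2 ^ (t * t) * 2 ^ (t * u) / 2 ^ Q) ?_ ?_
  · refine hU.trans (le_of_eq ?_)
    rw [Finset.card_univ]
    unfold KT
    ring
  · intro S hS
    unfold GP at hS
    push Not at hS
    obtain ⟨z, hz1, hz2, j0, hj0⟩ := hS
    obtain ⟨Λ, ⟨hΛ1, hΛ2, hΛ3⟩, hmin⟩ := WellFounded.has_min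
      (measure (fun s : Finset (Fin t) => s.card)).wf
      {Λ | Λ.Nonempty ∧ (∀ j ∈ Λ, z j ≠ 0) ∧ ∑ j ∈ Λ, (z j).1.2 = 0}
      ⟨Finset.univ.filter fun j => z j ≠ 0, ⟨j0, Finset.mem_filter.2 ⟨Finset.mem_univ _, hj0⟩⟩,
        fun j hj => (Finset.mem_filter.1 hj).2, by
          rw [← hz2]
          refine Finset.sum_subset (Finset.subset_univ _) fun j _ hj => ?_
          have h1 : z j = 0 := by
            by_contra h
            exact hj (Finset.mem_filter.2 ⟨Finset.mem_univ _, h⟩)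
          rw [h1]
          rfl⟩
    obtain ⟨i0, hi0⟩ := hΛ1
    -- the equations
    have hin : ∀ j, InK C γ I j S (z j).1.1 (z j).1.2 (z j).2 := by
      intro j
      refine ⟨(hz1 j).1, fun w hw => ?_⟩
      have h1 := (hz1 j).2 (0, w) hw
      rw [MM_apply, MM_apply] at h1
      simp only [map_zero, LinearMap.zero_apply, zero_add, add_zero] at h1
      rw [← h1]
      ring
    have hi1 : ∃ i1, ∑ j ∈ Λ, (z j).2 = 0 → i1 ∈ Λ ∧ i1 ≠ i0 := by
      by_contra hne
      push Not at hne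
      have hs : ∀ j ∈ Λ, j = i0 := fun j hj => (hne j).2 hj
      have hc := (hne i0).1
      have hΛe : Λ = {i0} := Finset.eq_singleton_iff_unique_mem.2 ⟨hi0, hs⟩
      rw [hΛe, Finset.sum_singleton] at hc hΛ3
      apply hΛ2 i0 hi0
      have h1 := hin i0
      have h2 : (z i0).1.1 = 0 := hC i0 _ fun w hw => by
        have h3 := h1.2 w hw
        rw [hc, hΛ3, zero_mul, map_zero, map_zero, LinearMap.zero_apply, add_zero, add_zero] at h3
        exact h3
      exact Prod.ext (Prod.ext h2 hΛ3) hc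
    obtain ⟨i1, hi1⟩ := hi1
    refine ⟨(Λ, i0, i1, fun j => (z j).2), Finset.mem_univ _, ⟨hi0, hi1⟩,
      fun j => if j ∈ Λ then (z j).1.1 else 0, fun j => if j ∈ Λ then (z j).1.2 else 0,
      fun j hj => ⟨if_neg hj, if_neg hj⟩, ?_, ?_, ?_⟩
    · rw [Fintype.linearIndependent_iff]
      intro g hg
      by_contra hne
      push Not at hne
      obtain ⟨j1, hj1⟩ := hne
      obtain ⟨g', hg'⟩ : ∃ g' : Fin t → F, ∀ j : (Λ.erase i0 : Finset (Fin t)), g' j = g j :=
        ⟨fun j => if h : j ∈ Λ.erase i0 then g ⟨j, h⟩ else 0, fun j => by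
          show (if h : (j : Fin t) ∈ Λ.erase i0 then g ⟨j, h⟩ else 0) = g j
          rw [dif_pos j.2]⟩
      obtain ⟨Λ', hΛ'⟩ : ∃ Λ' : Finset (Fin t), Λ' = (Λ.erase i0).filter fun j => g' j ≠ 0 :=
        ⟨_, rfl⟩
      have hsub : Λ' ⊆ Λ.erase i0 := by
        rw [hΛ']
        exact Finset.filter_subset _ _
      have hlt : Λ'.card < Λ.card := by
        refine lt_of_le_of_lt (Finset.card_le_card hsub) ?_
        rw [Finset.card_erase_of_mem hi0]
        have := Finset.card_pos.2 ⟨i0, hi0⟩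
        omega
      refine hmin Λ' ⟨⟨j1, ?_⟩, fun j hj => hΛ2 j (Finset.mem_of_mem_erase (hsub hj)), ?_⟩ hlt
      · rw [hΛ', Finset.mem_filter]
        exact ⟨j1.2, by rw [hg']; exact hj1⟩
      · have h01 : ∀ a : F, a ≠ 0 → a = 1 := by decide
        have e1 : ∑ j ∈ Λ', (z j).1.2 = ∑ j ∈ Λ.erase i0, g' j • (z j).1.2 := by
          rw [hΛ', Finset.sum_filter]
          refine Finset.sum_congr rfl fun j _ => ?_
          by_cases h : g' j ≠ 0
          · rw [if_pos h, h01 _ h, one_smul]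
          · rw [if_neg h, not_not.1 h, zero_smul]
        rw [e1, ← Finset.sum_coe_sort (Λ.erase i0), ← hg]
        refine Finset.sum_congr rfl fun j _ => ?_
        rw [hg' j]
        show g j • (z j).1.2 = g j • (if (j : Fin t) ∈ Λ then (z j).1.2 else 0)
        rw [if_pos (Finset.mem_of_mem_erase j.2)]
    · rw [← hΛ3]
      exact Finset.sum_congr rfl fun j hj => if_pos hj
    · intro j hj
      show InK C γ I j S (if j ∈ Λ then (z j).1.1 else 0) (if j ∈ Λ then (z j).1.2 else 0) (z j).2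
      rw [if_pos hj, if_pos hj]
      exact hin j
  · rintro ⟨Λ, i0, i1, c⟩ -
    by_cases h : i0 ∈ Λ ∧ (∑ j ∈ Λ, c j = 0 → i1 ∈ Λ ∧ i1 ≠ i0)
    · refine le_trans (fr_mono fun S hS => ?_) (idx_bound C γ I Q u hX hQ hd Λ i0 i1 c h.1 h.2)
      exact hS.2
    · have h1 : fr (fun S : Sy (J → F) => (i0 ∈ Λ ∧ (∑ j ∈ Λ, c j = 0 → i1 ∈ Λ ∧ i1 ≠ i0)) ∧
          ∃ (x : ∀ j, X j) (v : Fin t → J → F),
          (∀ j, j ∉ Λ → x j = 0 ∧ v j = 0) ∧
          LinearIndependent F (fun j : (Λ.erase i0 : Finset (Fin t)) => v j) ∧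
          ∑ j ∈ Λ, v j = 0 ∧ ∀ j ∈ Λ, InK C γ I j S (x j) (v j) (c j)) = 0 := by
        unfold Pool.Agent.Y759.CX.fr
        have : IsEmpty {S : Sy (J → F) // (i0 ∈ Λ ∧ (∑ j ∈ Λ, c j = 0 → i1 ∈ Λ ∧ i1 ≠ i0)) ∧
          ∃ (x : ∀ j, X j) (v : Fin t → J → F),
          (∀ j, j ∉ Λ → x j = 0 ∧ v j = 0) ∧
          LinearIndependent F (fun j : (Λ.erase i0 : Finset (Fin t)) => v j) ∧
          ∑ j ∈ Λ, v j = 0 ∧ ∀ j ∈ Λ, InK C γ I j S (x j) (v j) (c j)} := ⟨fun x => h x.2.1⟩
        rw [Nat.card_of_isEmpty, Nat.cast_zero, zero_div]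
      refine (le_of_eq h1).trans (by positivity)

end gp

end Pool.Agent.L0h2.M
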