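import Pool.Agent.L0h2.M.W

/-!
# Joint law for distinct twists: the law for the random completions
-/

set_option autoImplicit false
set_option linter.unusedSectionVars false
set_option linter.unusedVariables false

open scoped Classical

namespace Pool.Agent.L0h2.M

open Function Module
open Pool.Agent.Y759.CX (fr fr_equiv fr_nonneg fr_le_one fr_mono fr_not fr_prod fr_comp fr_exists
  fr_single)
open Pool.Agent.Y703.CQ (S_C2 c2 prs GdA)
open Pool.Agent.L0h2.K (cv cv_nonneg cv_le_one mom)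
open Pool.Agent.Y219.CQ (F Sy Ns sp fr_avg card_mod finSy finHom finHom2 zx zx_of zx_not mf
  mf_apply Gs bf bf_apply bf_l bf_r bf_symm bf_add sum_zx gd_iff mA mC mL mZ pa pa_surj)

/-- the probability that a random symmetric completion has a pattern -/
def S_LAm (t : ℕ) : Prop := ∀ (U : Fin t → Type) [∀ l, Fintype (U l)] (J : Type) [Fintype J]
  [LinearOrder J] (U1 : ∀ l, Finset (U l)) (J1 : Finset J), (∃ l, l ∉ J1) →
  ∀ (A : ∀ l, U l → U l → ZMod 2) (B : ∀ l, U l → J → ZMod 2)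
  (C : ∀ l, J → U l → ZMod 2) (f : ∀ l, U l → ZMod 2) (g : Fin t → J → ZMod 2) (I K : Finset J)
  (u Q : ℕ), I ⊆ J1 → K ⊆ J1 → Disjoint K I → (∀ k ∈ J1, k ∈ I ∨ k ∈ K) →
  (∀ l, (U1 l).card ≤ u) → Q ≤ I.card →
  (∀ i l, i ≠ l → Q ≤ (I.filter fun k => ∑ v, C i k v + g i k ≠ ∑ v, C l k v + g l k).card) →
  (∀ l, ∀ u ∈ U1 l, ∀ v ∈ U1 l, A l u v = A l v u) →
  (∀ l, ∀ u ∈ U1 l, ∀ k ∈ J1, B l u k = C l k u) →
  (∀ l, ∀ w : U l → ZMod 2, (∀ u, u ∉ U1 l → w u = 0) → (∃ u, w u ≠ 0) →
    ∃ k ∈ I, ∑ u, w u * C l k u ≠ 0) →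
  ∀ b : Fin t → Bool,
  |((Finset.univ.filter fun α : prs J1 → ZMod 2 =>
      ∀ l, (GdA (U1 l) J1 (A l) (B l) (C l) (Pool.Agent.Y703.CQ.ext α) (f l) (g l) ↔
        b l = true)).card : ℝ) / 2 ^ (prs J1).card - ∏ l, cv (b l)| ≤
    K.card * (KT t * (2 ^ (t * u) / 2 ^ Q)) + t * (4 * 2 ^ u / 2 ^ K.card)

theorem t_LAm (h2 : S_C2) (t : ℕ) : S_LAm t := by
  intro U _ J _ _ U1 J1 hJ A B C f g I K u Q hIJ hKJ hKI hun hU hQ hd hA hB hC b
  obtain ⟨γ, hγ⟩ : ∃ γ : Fin t → J1 → F, γ = fun l (k : J1) => ∑ v, C l k v + g l k := ⟨_, rfl⟩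
  obtain ⟨K', hK'⟩ : ∃ K' : Finset J1, K' = K.subtype (· ∈ J1) := ⟨_, rfl⟩
  obtain ⟨I', hI'⟩ : ∃ I' : Finset J1, I' = I.subtype (· ∈ J1) := ⟨_, rfl⟩
  have hK'm : ∀ k : J1, k ∈ K' ↔ (k : J) ∈ K := fun k => by rw [hK', Finset.mem_subtype]
  have hI'm : ∀ k : J1, k ∈ I' ↔ (k : J) ∈ I := fun k => by rw [hI', Finset.mem_subtype]
  have hcK : K'.card = K.card := by
    rw [hK', Finset.card_subtype, Finset.filter_true_of_mem fun x hx => hKJ hx]
  have hcI : I'.card = I.card := by
    rw [hI', Finset.card_subtype, Finset.filter_true_of_mem fun x hx => hIJ hx]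
  have hcard : ∀ (P : J → Prop) [DecidablePred P], ((I'.filter fun k : J1 => P k).card) =
      (I.filter P).card := by
    intro P _
    rw [← Finset.card_map (Function.Embedding.subtype (· ∈ J1))]
    congr 1
    ext x
    simp only [Finset.mem_map, Finset.mem_filter, Function.Embedding.coe_subtype, hI'm]
    constructor
    · rintro ⟨y, ⟨hy1, hy2⟩, rfl⟩
      exact ⟨hy1, hy2⟩
    · rintro ⟨hx1, hx3⟩
      exact ⟨⟨x, hIJ hx1⟩, ⟨hx1, hx3⟩, rfl⟩
  have key := law h2 (fun l => bf (mA (U1 l) (A l) (B l) (f l)))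
    (fun l x y => bf_symm _ (fun v w => by
      show mA (U1 l) (A l) (B l) (f l) v w = mA (U1 l) (A l) (B l) (f l) w v
      unfold Pool.Agent.Y219.CQ.mA
      by_cases huv : v = w
      · rw [huv]
      · rw [if_neg huv, if_neg (Ne.symm huv), hA l v v.2 w w.2]) x y)
    (fun l => bf (mC (U1 l) J1 (C l))) γ I' K' (by
      rw [Finset.disjoint_left]
      intro k hk hk'
      exact Finset.disjoint_left.1 hKI ((hK'm k).1 hk) ((hI'm k).1 hk'))
    (fun k => by
      rcases hun k k.2 with h | h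
      · exact Or.inl ((hI'm k).2 h)
      · exact Or.inr ((hK'm k).2 h)) Q u
    (fun l => by
      rw [Nat.card_fun, Nat.card_eq_fintype_card (α := F), ZMod.card, Nat.card_eq_fintype_card,
        Fintype.card_coe]
      exact Nat.pow_le_pow_right (by norm_num) (hU l))
    (by
      rw [hcI]
      exact hQ)
    (fun i l hil => by
      have h3 := hcard (fun k => ∑ v, C i k v + g i k ≠ ∑ v, C l k v + g l k)
      rw [hγ]
      exact (hd i l hil).trans (le_of_eq h3.symm))
    (fun l x hx => by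
      by_contra hne
      obtain ⟨k, hk, hk'⟩ := hC l (zx (U1 l) x) (fun u hu => zx_not (U1 l) x hu) (by
        by_contra hc
        push Not at hc
        exact hne (funext fun u => by rw [← zx_of (U1 l) x u, hc]; rfl))
      apply hk'
      have h3 := hx (Pi.single ⟨k, hIJ hk⟩ 1) (fun m hm => Pi.single_eq_of_ne (by
        rintro rfl
        exact hm ((hI'm _).2 hk)) _)
      rw [bf_l, Finset.sum_eq_single ⟨k, hIJ hk⟩] at h3
      · rw [Pi.single_eq_same, mul_one] at h3
        rw [← h3]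
        have h4 : ∑ u, zx (U1 l) x u * C l k u = ∑ u, C l k u * zx (U1 l) x u :=
          Finset.sum_congr rfl fun u _ => mul_comm _ _
        rw [h4, sum_zx]
        exact Finset.sum_congr rfl fun u _ => by rw [mul_comm]; rfl
      · intro m _ hm
        rw [Pi.single_eq_of_ne hm, mul_zero]
      · intro h
        exact absurd (Finset.mem_univ _) h) b
  rw [hcK] at key
  have h5 : ((Finset.univ.filter fun α : prs J1 → ZMod 2 =>
      ∀ l, (GdA (U1 l) J1 (A l) (B l) (C l) (Pool.Agent.Y703.CQ.ext α) (f l) (g l) ↔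
        b l = true)).card : ℝ) / 2 ^ (prs J1).card = fr (fun S : Sy (J1 → F) => ∀ l : Fin t,
        (Gs (bf (mA (U1 l) (A l) (B l) (f l))) (bf (mC (U1 l) J1 (C l))) (S.1 + dq (γ l)) ↔
          b l = true)) := by
    rw [← fr_comp (pa J1) (pa_surj J1 hJ)]
    unfold Pool.Agent.Y759.CX.fr
    have h6 : Nat.card (prs J1 → F) = 2 ^ (prs J1).card := by
      rw [Nat.card_fun, Nat.card_eq_fintype_card, Nat.card_eq_fintype_card, ZMod.card,
        Fintype.card_coe]
    rw [h6, Nat.card_eq_fintype_card, Fintype.card_subtype]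
    push_cast
    congr 3
    refine Finset.filter_congr fun α _ => ?_
    refine forall_congr' fun l => ?_
    rw [Pool.Agent.Y219.CQ.gd_iff (U1 l) J1 (A l) (B l) (C l) (f l) (g l) (hA l) (hB l) α]
    have hx2 : bf (fun k m : J1 => mL J1 α k m + mZ J1 (C l) (g l) k m) =
        (pa J1 α).1 + dq (γ l) := by
      rw [bf_add]
      show bf (mL J1 α) + bf (fun k m => mZ J1 (C l) (g l) k m) = bf (mL J1 α) + dq (γ l)
      congr 1
      refine LinearMap.ext fun x => LinearMap.ext fun y => ?_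
      rw [bf_apply, dq_apply]
      refine Finset.sum_congr rfl fun k _ => ?_
      rw [Finset.sum_eq_single k]
      · unfold Pool.Agent.Y219.CQ.mZ
        rw [if_pos rfl, hγ]
        ring
      · intro m _ hm
        unfold Pool.Agent.Y219.CQ.mZ
        rw [if_neg (Ne.symm hm), mul_zero, zero_mul]
      · intro h
        exact absurd (Finset.mem_univ _) h
    rw [hx2]
  rw [h5]
  exact key

end Pool.Agent.L0h2.M
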