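import Pool.Agent.L0h2.M.Fin
import Pool.Agent.R413.SQ.NS
import Pool.Agent.R413.SQ.BOX

/-!
# Joint law for distinct twists: all the numbers `D` of the class
-/

set_option autoImplicit false
set_option linter.unusedVariables false

open scoped Classical

namespace Pool.Agent.L0h2.M

open Finset hiding mk
open Pool.Agent.R413.SQ (mk Gd Sp In SS Cl)
open Pool.Agent.L0h2.K (SR cv mem_SR of_SR cv_nonneg cv_le_one)

/-- the part of the sets with a given intersection with `R` -/
theorem part_card {R P : Finset ℕ} (hR : ∀ r ∈ R, r.Prime ∧ r % 4 = 1) (hP : P ⊆ R) (X : ℕ)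
    (Q : Finset ℕ → Prop) :
    ((SS ∅ ∅ X).filter fun S => S ∩ R = P ∧ Q (S \ R)).card =
      ((SR R (X / ∏ p ∈ P, p)).filter Q).card := by
  have hP0 : 0 < ∏ p ∈ P, p := Finset.prod_pos fun p hp => (hR p (hP hp)).1.pos
  refine Finset.card_bij (fun S _ => S \ R) ?_ ?_ ?_
  · intro S hS
    rw [Finset.mem_filter] at hS
    obtain ⟨h1, h2, h3⟩ := hS
    unfold Pool.Agent.R413.SQ.SS at h1
    rw [Finset.mem_filter] at h1
    obtain ⟨h4, h5, h6⟩ := h1
    rw [Finset.mem_filter]
    refine ⟨of_SR (fun p hp => Pool.Agent.R413.SQ.pr1 (h5 p (Finset.mem_sdiff.1 hp).1)) ?_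
      Finset.sdiff_disjoint, h3⟩
    rw [Nat.le_div_iff_mul_le hP0, ← h2]
    refine le_trans (le_of_eq ?_) h6
    rw [mul_comm, Finset.prod_inter_mul_prod_sdiff]
  · intro S hS S' hS' h
    rw [Finset.mem_filter] at hS hS'
    have h' : S \ R = S' \ R := h
    rw [← Finset.sdiff_union_inter S R, ← Finset.sdiff_union_inter S' R, h', hS.2.1, hS'.2.1]
  · intro S hS
    rw [Finset.mem_filter] at hS
    obtain ⟨h1, h2, h3⟩ := mem_SR hS.1
    have hPS : Disjoint P S := (Finset.disjoint_of_subset_right hP h3).symm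
    have e1 : (P ∪ S) \ R = S := by
      ext x
      rw [Finset.mem_sdiff, Finset.mem_union]
      constructor
      · rintro ⟨h | h, h'⟩
        · exact absurd (hP h) h'
        · exact h
      · exact fun h => ⟨Or.inr h, Finset.disjoint_left.1 h3 h⟩
    have e2 : (P ∪ S) ∩ R = P := by
      ext x
      rw [Finset.mem_inter, Finset.mem_union]
      constructor
      · rintro ⟨h | h, h'⟩
        · exact h
        · exact absurd h' (Finset.disjoint_left.1 h3 h)
      · exact fun h => ⟨Or.inl h, hP h⟩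
    refine ⟨P ∪ S, ?_, e1⟩
    rw [Finset.mem_filter, e1]
    refine ⟨?_, e2, hS.2⟩
    have hpr : ∀ p ∈ P ∪ S, p.Prime ∧ p % 4 = 1 := fun p hp => by
      rcases Finset.mem_union.1 hp with h | h
      · exact hR p (hP h)
      · exact h1 p h
    have hprod : ∏ p ∈ P ∪ S, p ≤ X := by
      rw [Finset.prod_union hPS, mul_comm]
      exact (Nat.le_div_iff_mul_le hP0).1 h2
    have h6 := of_SR (R := ∅) hpr hprod (Finset.disjoint_empty_right _)
    unfold Pool.Agent.L0h2.K.SR at h6
    exact (Finset.mem_filter.1 h6).1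

theorem sym_split {R : Finset ℕ} (S T : Finset ℕ) (hT : T ⊆ R) :
    symmDiff S T = (S \ R) ∪ symmDiff (S ∩ R) T := by
  ext x
  simp only [Finset.mem_symmDiff, Finset.mem_union, Finset.mem_sdiff, Finset.mem_inter]
  have := @hT x
  tauto

/-- the pattern for all the sets -/
def Ps (t : ℕ) (h : ℕ → ZMod 2) (T : Fin t → Finset ℕ) (b : Fin t → Bool) (S : Finset ℕ) : Prop :=
  ∀ l, (Gd h (symmDiff S (T l)) ↔ b l = true)

/-- **The joint law for all the sets of the class.** -/
theorem law_sym (t : ℕ) (R : Finset ℕ) (hR : ∀ r ∈ R, r.Prime ∧ r % 4 = 1)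
    (T : Fin t → Finset ℕ) (hT : ∀ l, T l ⊆ R) (hi : Function.Injective T) (h : ℕ → ZMod 2)
    (b : Fin t → Bool) : Filter.Tendsto
    (fun X : ℕ => (((SS ∅ ∅ X).filter (Ps t h T b)).card : ℝ) /
      ((SS ∅ ∅ X).card : ℝ)) Filter.atTop (nhds (∏ l, cv (b l))) := by
  -- a nonempty set of primes
  obtain ⟨R', hR', hRne, hRR⟩ : ∃ R' : Finset ℕ, (∀ r ∈ R', r.Prime ∧ r % 4 = 1) ∧ R'.Nonempty ∧
      R ⊆ R' := by
    refine ⟨insert 5 R, fun r hr => ?_, ⟨5, Finset.mem_insert_self _ _⟩, Finset.subset_insert _ _⟩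
    rcases Finset.mem_insert.1 hr with rfl | hr
    · exact ⟨by norm_num, rfl⟩
    · exact hR r hr
  have hT' : ∀ l, T l ⊆ R' := fun l => (hT l).trans hRR
  obtain ⟨c, hc⟩ : ∃ c, c = ∏ l, cv (b l) := ⟨_, rfl⟩
  rw [← hc]
  -- the laws of the parts
  have hpart : ∀ P ∈ R'.powerset, Filter.Tendsto
      (fun X : ℕ => (((SR R' (X / ∏ p ∈ P, p)).filter
        (Pm t h (fun l => symmDiff P (T l)) b)).card : ℝ) /
          ((SR R' (X / ∏ p ∈ P, p)).card : ℝ)) Filter.atTop (nhds c) := by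
    intro P hP
    rw [Finset.mem_powerset] at hP
    have hP0 : 0 < ∏ p ∈ P, p := Finset.prod_pos fun p hp => (hR' p (hP hp)).1.pos
    have h1 := law_sets t R' hR' hRne (fun l => symmDiff P (T l)) (fun l x hx => by
      rw [Finset.mem_symmDiff] at hx
      rcases hx with hx | hx
      · exact hP hx.1
      · exact hT' l hx.1) (fun l l' hll => hi (symmDiff_right_injective P hll)) h b
    rw [← hc] at h1
    exact h1.comp (Nat.tendsto_div_const_atTop hP0.ne')
  have hsplit : ∀ (X : ℕ) (Q : Finset ℕ → Prop), (((SS ∅ ∅ X).filter Q).card : ℝ) =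
      ∑ P ∈ R'.powerset, (((SS ∅ ∅ X).filter fun S => S ∩ R' = P ∧ Q S).card : ℝ) := by
    intro X Q
    rw [Finset.card_eq_sum_card_fiberwise (f := fun S => S ∩ R') (t := R'.powerset) (by
      intro S _
      exact Finset.mem_coe.2 (Finset.mem_powerset.2 Finset.inter_subset_right))]
    push_cast
    refine Finset.sum_congr rfl fun P _ => ?_
    congr 2
    ext S
    simp only [Finset.mem_filter]
    tauto
  have e1 : ∀ X : ℕ, (((SS ∅ ∅ X).filter (Ps t h T b)).card : ℝ) = ∑ P ∈ R'.powerset, (((SR R' (X / ∏ p ∈ P, p)).filter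
        (Pm t h (fun l => symmDiff P (T l)) b)).card : ℝ) := by
    intro X
    rw [hsplit]
    refine Finset.sum_congr rfl fun P hP => ?_
    rw [← part_card hR' (Finset.mem_powerset.1 hP)]
    congr 2
    refine Finset.filter_congr fun S _ => ?_
    refine and_congr_right fun hS => ?_
    unfold Pm Ps
    refine forall_congr' fun l => ?_
    rw [sym_split S (T l) (hT' l), hS]
  have e2 : ∀ X : ℕ, ((SS ∅ ∅ X).card : ℝ) = ∑ P ∈ R'.powerset,
      ((SR R' (X / ∏ p ∈ P, p)).card : ℝ) := by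
    intro X
    have h1 := hsplit X (fun _ => True)
    rw [Finset.filter_true] at h1
    rw [h1]
    refine Finset.sum_congr rfl fun P hP => ?_
    have h2 := part_card hR' (Finset.mem_powerset.1 hP) X (fun _ => True)
    rw [Finset.filter_true] at h2
    rw [← h2]
  rw [Metric.tendsto_nhds]
  intro ε hε
  have hev : ∀ᶠ X : ℕ in Filter.atTop, ∀ P ∈ R'.powerset,
      |(((SR R' (X / ∏ p ∈ P, p)).filter (Pm t h (fun l => symmDiff P (T l)) b)).card : ℝ) /
        ((SR R' (X / ∏ p ∈ P, p)).card : ℝ) - c| < ε / 2 := by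
    rw [Filter.eventually_all_finset]
    intro P hP
    have h1 := Metric.tendsto_nhds.1 (hpart P hP) (ε / 2) (by positivity)
    filter_upwards [h1] with X hX
    rwa [Real.dist_eq] at hX
  filter_upwards [hev, Filter.eventually_ge_atTop 1] with X hX hX1
  have hpos : (0 : ℝ) < ((SS ∅ ∅ X).card : ℝ) := by
    have h1 : (∅ : Finset ℕ) ∈ SS ∅ ∅ X := by
      have h6 := of_SR (R := ∅) (X := X) (S := ∅) (fun p hp => absurd hp (Finset.notMem_empty p))
        (by rw [Finset.prod_empty]; exact hX1) (Finset.disjoint_empty_right _)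
      unfold Pool.Agent.L0h2.K.SR at h6
      exact (Finset.mem_filter.1 h6).1
    exact_mod_cast Finset.card_pos.2 ⟨∅, h1⟩
  rw [Real.dist_eq]
  have e3 : (((SS ∅ ∅ X).filter (Ps t h T b)).card : ℝ) /
      ((SS ∅ ∅ X).card : ℝ) - c = ((((SS ∅ ∅ X).filter (Ps t h T b)).card : ℝ) - c * ((SS ∅ ∅ X).card : ℝ)) / ((SS ∅ ∅ X).card : ℝ) := by
    rw [sub_div, mul_div_cancel_right₀ _ hpos.ne']
  rw [e3, abs_div, abs_of_pos hpos, div_lt_iff₀ hpos]
  have h4 : |(((SS ∅ ∅ X).filter (Ps t h T b)).card : ℝ) -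
      c * ((SS ∅ ∅ X).card : ℝ)| ≤ ε / 2 * ((SS ∅ ∅ X).card : ℝ) := by
    rw [e1, e2, Finset.mul_sum, ← Finset.sum_sub_distrib, Finset.mul_sum]
    refine (Finset.abs_sum_le_sum_abs _ _).trans (Finset.sum_le_sum fun P hP => ?_)
    have h5 := hX P hP
    rcases (Nat.cast_nonneg (α := ℝ) (SR R' (X / ∏ p ∈ P, p)).card).eq_or_lt with h6 | h6
    · have h7 : ((((SR R' (X / ∏ p ∈ P, p)).filter
          (Pm t h (fun l => symmDiff P (T l)) b)).card : ℕ) : ℝ) ≤
          ((SR R' (X / ∏ p ∈ P, p)).card : ℝ) := by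
        exact_mod_cast Finset.card_filter_le _ _
      have h8 : (0 : ℝ) ≤ ((((SR R' (X / ∏ p ∈ P, p)).filter
          (Pm t h (fun l => symmDiff P (T l)) b)).card : ℕ) : ℝ) := Nat.cast_nonneg _
      rw [← h6] at h7 ⊢
      rw [le_antisymm h7 h8]
      simp
    · have h7 : ((((SR R' (X / ∏ p ∈ P, p)).filter
          (Pm t h (fun l => symmDiff P (T l)) b)).card : ℕ) : ℝ) -
          c * ((SR R' (X / ∏ p ∈ P, p)).card : ℝ) =
          (((((SR R' (X / ∏ p ∈ P, p)).filter
          (Pm t h (fun l => symmDiff P (T l)) b)).card : ℕ) : ℝ) /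
            ((SR R' (X / ∏ p ∈ P, p)).card : ℝ) - c) * ((SR R' (X / ∏ p ∈ P, p)).card : ℝ) := by
        rw [sub_mul, div_mul_cancel₀ _ h6.ne']
      rw [h7, abs_mul, abs_of_pos h6]
      exact mul_le_mul_of_nonneg_right h5.le h6.le
  refine lt_of_le_of_lt h4 ?_
  exact mul_lt_mul_of_pos_right (by linarith) hpos

/-- the squarefree part of the product of two squarefree numbers -/
def tw (D M : ℕ) : ℕ := D * M / (Nat.gcd D M) ^ 2

theorem tw_eq {D M : ℕ} : tw D M = (D / Nat.gcd D M) * (M / Nat.gcd D M) := by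
  unfold tw
  rw [sq, Nat.mul_div_mul_comm (Nat.gcd_dvd_left D M) (Nat.gcd_dvd_right D M)]

theorem sq_div {D g : ℕ} (h : Squarefree D) (hg : g ∣ D) : Nat.Coprime (D / g) g := by
  obtain ⟨k, rfl⟩ := hg
  have hg0 : 0 < g := by
    rcases Nat.eq_zero_or_pos g with h0 | h0
    · rw [h0, zero_mul] at h
      exact absurd h not_squarefree_zero
    · exact h0
  rw [Nat.mul_div_cancel_left _ hg0]
  exact (Nat.coprime_of_squarefree_mul h).symm

theorem tw_sq {D M : ℕ} (hD : Squarefree D) (hM : Squarefree M) :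
    Squarefree (tw D M) ∧ (tw D M).primeFactors = symmDiff D.primeFactors M.primeFactors := by
  have hD0 := hD.ne_zero
  have hM0 := hM.ne_zero
  obtain ⟨g, hg⟩ : ∃ g, g = Nat.gcd D M := ⟨_, rfl⟩
  have hg0 : g ≠ 0 := by
    rw [hg]
    exact Nat.gcd_ne_zero_left hD0
  have hgD : g ∣ D := hg ▸ Nat.gcd_dvd_left D M
  have hgM : g ∣ M := hg ▸ Nat.gcd_dvd_right D M
  have h1 := sq_div hD hgD
  have h2 := sq_div hM hgM
  have h3 : Nat.Coprime (D / g) (M / g) := by
    rw [hg]
    exact Nat.coprime_div_gcd_div_gcd (Nat.gcd_pos_of_pos_left _ (Nat.pos_of_ne_zero hD0))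
  have e1 : (D / g).primeFactors = D.primeFactors \ g.primeFactors := by
    have h4 : D.primeFactors = (D / g).primeFactors ∪ g.primeFactors := by
      conv_lhs => rw [← Nat.div_mul_cancel hgD]
      exact Nat.Coprime.primeFactors_mul h1
    rw [h4, Finset.union_sdiff_right, Finset.sdiff_eq_self_of_disjoint h1.disjoint_primeFactors]
  have e2 : (M / g).primeFactors = M.primeFactors \ g.primeFactors := by
    have h4 : M.primeFactors = (M / g).primeFactors ∪ g.primeFactors := by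
      conv_lhs => rw [← Nat.div_mul_cancel hgM]
      exact Nat.Coprime.primeFactors_mul h2
    rw [h4, Finset.union_sdiff_right, Finset.sdiff_eq_self_of_disjoint h2.disjoint_primeFactors]
  have e3 : g.primeFactors = D.primeFactors ∩ M.primeFactors := by
    rw [hg]
    exact Nat.primeFactors_gcd hD0 hM0
  rw [tw_eq, ← hg]
  refine ⟨(Nat.squarefree_mul h3).2 ⟨hD.squarefree_of_dvd (Nat.div_dvd_of_dvd hgD),
    hM.squarefree_of_dvd (Nat.div_dvd_of_dvd hgM)⟩, ?_⟩
  rw [h3.primeFactors_mul, e1, e2, e3]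
  ext x
  simp only [Finset.mem_union, Finset.mem_sdiff, Finset.mem_inter, Finset.mem_symmDiff]
  tauto

/-- squarefree, all prime factors `1` modulo `4` -/
def Ad (D : ℕ) : Prop := Squarefree D ∧ ∀ p ∈ D.primeFactors, p % 4 = 1

/-- the number of the `D ≤ X` of the class with a property -/
noncomputable def num (Q : ℕ → Prop) (X : ℕ) : ℕ :=
  ((Icc 1 X).filter fun D => Ad D ∧ Q D).card

theorem num_eq {Q : ℕ → Prop} {E : Finset ℕ → Prop}
    (h : ∀ D, Ad D → (Q D ↔ E D.primeFactors)) (X : ℕ) :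
    num Q X = ((SS ∅ ∅ X).filter E).card := by
  rw [← Pool.Agent.R413.SQ.NS.card_eq]
  unfold num
  refine congrArg Finset.card (Finset.ext fun D => ?_)
  rw [Finset.mem_filter, Finset.mem_filter]
  refine and_congr_right fun _ => ?_
  have h1 : Ad D ↔ Squarefree D ∧ Cl ∅ ∅ D.primeFactors := by
    unfold Ad
    refine and_congr_right fun _ => ?_
    constructor
    · intro h2 p hp
      exact Pool.Agent.R413.SQ.of_pr1 ∅ (Nat.prime_of_mem_primeFactors hp) (h2 p hp)
    · intro h2 p hp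
      exact (Pool.Agent.R413.SQ.pr1 (h2 p hp)).2
  constructor
  · rintro ⟨h2, h3⟩
    exact ⟨h2.1, (h1.1 h2).2, (h D h2).1 h3⟩
  · rintro ⟨h2, h3, h4⟩
    have h5 := h1.2 ⟨h2, h3⟩
    exact ⟨h5, (h D h5).2 h4⟩

/-- **The joint law for different twists.** -/
theorem law_D (t : ℕ) (M : Fin t → ℕ) (hM : ∀ i, Ad (M i)) (hi : Function.Injective M)
    (h : ℕ → ZMod 2) (b : Fin t → Bool) (Q : ℕ → Prop)
    (hQ : ∀ D, Ad D → (Q D ↔ ∀ i, (Gd h (tw D (M i)).primeFactors ↔ b i = true))) :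
    Filter.Tendsto (fun X : ℕ => (num Q X : ℝ) / (num (fun _ => True) X : ℝ)) Filter.atTop
      (nhds (∏ l, cv (b l))) := by
  have h1 := law_sym t (univ.biUnion fun i => (M i).primeFactors) (fun r hr => by
    rw [Finset.mem_biUnion] at hr
    obtain ⟨i, _, hi⟩ := hr
    exact ⟨Nat.prime_of_mem_primeFactors hi, (hM i).2 r hi⟩) (fun i => (M i).primeFactors)
    (fun i => Finset.subset_biUnion_of_mem (fun i => (M i).primeFactors) (Finset.mem_univ i))
    (fun i j hij => hi (by
      have h2 : (M i).primeFactors = (M j).primeFactors := hij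
      rw [← Nat.prod_primeFactors_of_squarefree (hM i).1,
        ← Nat.prod_primeFactors_of_squarefree (hM j).1, h2])) h b
  refine h1.congr fun X => ?_
  rw [num_eq (Q := Q) (E := Ps t h (fun i => (M i).primeFactors) b) (fun D hD => by
    rw [hQ D hD]
    unfold Ps
    refine forall_congr' fun i => ?_
    rw [(tw_sq hD.1 (hM i).1).2]), num_eq (Q := fun _ => True) (E := fun _ => True)
    (fun _ _ => Iff.rfl), Finset.filter_true]

end Pool.Agent.L0h2.M
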