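import Pool.Agent.L0h2.M.Bd
import Pool.Agent.Y219.CQ.LA

/-!
# Joint law for distinct twists: the probability of prescribed rows
-/

set_option autoImplicit false
set_option linter.unusedSectionVars false
set_option linter.unusedVariables false

open scoped Classical

namespace Pool.Agent.L0h2.M

open Function Module
open Pool.Agent.Y759.CX (fr fr_equiv fr_nonneg fr_le_one fr_mono fr_not fr_prod fr_comp fr_exists
  fr_single)
open Pool.Agent.Y219.CQ (F Sy Ns sp fr_avg card_mod finSy finHom finHom2 zx zx_of zx_not)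

section pr

variable {J : Type} [Fintype J]

/-- the functions supported in a set -/
def vI (I : Finset J) : Submodule F (J → F) where
  carrier := {v | ∀ k, k ∉ I → v k = 0}
  zero_mem' := fun _ _ => rfl
  add_mem' := fun {a b} ha hb k hk => by
    show a k + b k = 0
    rw [ha k hk, hb k hk, add_zero]
  smul_mem' := fun c a ha k hk => by
    show c * a k = 0
    rw [ha k hk, mul_zero]

lemma mem_vI {I : Finset J} {v : J → F} : v ∈ vI I ↔ ∀ k, k ∉ I → v k = 0 := Iff.rfl

lemma vI_rank (I : Finset J) : finrank F (vI I) = I.card := by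
  have h : finrank F (vI I) = finrank F (I → F) := by
    refine LinearEquiv.finrank_eq
      { toFun := fun v k => v.1 k
        map_add' := fun _ _ => rfl
        map_smul' := fun _ _ => rfl
        invFun := fun x => ⟨zx I x, fun k hk => zx_not I x hk⟩
        left_inv := fun v => by
          refine Subtype.ext (funext fun k => ?_)
          show zx I (fun k => v.1 k) k = v.1 k
          by_cases hk : k ∈ I
          · exact zx_of I (fun k => v.1 k) ⟨k, hk⟩
          · rw [zx_not I _ hk, v.2 k hk]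
        right_inv := fun x => by
          funext k
          exact zx_of I x k }
  rw [h, finrank_fintype_fun_eq_card, Fintype.card_coe]

/-- the diagonal form -/
noncomputable def dq (γ : J → F) : (J → F) →ₗ[F] (J → F) →ₗ[F] F :=
  LinearMap.mk₂ F (fun y y' => ∑ k, γ k * (y k * y' k))
    (fun x y z => by
      rw [← Finset.sum_add_distrib]
      exact Finset.sum_congr rfl fun k _ => by rw [Pi.add_apply]; ring)
    (fun a x y => by
      rw [smul_eq_mul, Finset.mul_sum]
      exact Finset.sum_congr rfl fun k _ => by rw [Pi.smul_apply, smul_eq_mul]; ring)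
    (fun x y z => by
      rw [← Finset.sum_add_distrib]
      exact Finset.sum_congr rfl fun k _ => by rw [Pi.add_apply]; ring)
    (fun a x y => by
      rw [smul_eq_mul, Finset.mul_sum]
      exact Finset.sum_congr rfl fun k _ => by rw [Pi.smul_apply, smul_eq_mul]; ring)

lemma dq_apply (γ y y' : J → F) : dq γ y y' = ∑ k, γ k * (y k * y' k) := rfl

lemma dq_symm (γ y y' : J → F) : dq γ y y' = dq γ y' y := by
  rw [dq_apply, dq_apply]
  exact Finset.sum_congr rfl fun k _ => by rw [mul_comm (y k)]

lemma dq_single (γ v : J → F) (k : J) : dq γ v (Pi.single k 1) = γ k * v k := by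
  rw [dq_apply, Finset.sum_eq_single k]
  · rw [Pi.single_eq_same, mul_one]
  · intro l _ hl
    rw [Pi.single_eq_of_ne hl, mul_zero, mul_zero]
  · intro h
    exact absurd (Finset.mem_univ _) h

lemma dq_add (γ γ' : J → F) : dq (γ + γ') = dq γ + dq γ' := by
  refine LinearMap.ext fun x => LinearMap.ext fun y => ?_
  show dq (γ + γ') x y = dq γ x y + dq γ' x y
  rw [dq_apply, dq_apply, dq_apply, ← Finset.sum_add_distrib]
  exact Finset.sum_congr rfl fun k _ => by rw [Pi.add_apply]; ring

/-- the alternating form of a family of functionals -/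
noncomputable def r0 {d : Type} [Fintype d] {W : Type} [AddCommGroup W] [Module F W]
    (ε : d → (J → F) →ₗ[F] F) (π : (J → F) →ₗ[F] W) (β : d → (W →ₗ[F] F)) :
    (J → F) →ₗ[F] (J → F) →ₗ[F] F :=
  LinearMap.mk₂ F (fun y y' => ∑ j, (ε j y * β j (π y') + ε j y' * β j (π y)))
    (fun x y z => by
      rw [← Finset.sum_add_distrib]
      exact Finset.sum_congr rfl fun k _ => by simp only [map_add]; ring)
    (fun a x y => by
      rw [smul_eq_mul, Finset.mul_sum]
      exact Finset.sum_congr rfl fun k _ => by simp only [map_smul, smul_eq_mul]; ring)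
    (fun x y z => by
      rw [← Finset.sum_add_distrib]
      exact Finset.sum_congr rfl fun k _ => by simp only [map_add]; ring)
    (fun a x y => by
      rw [smul_eq_mul, Finset.mul_sum]
      exact Finset.sum_congr rfl fun k _ => by simp only [map_smul, smul_eq_mul]; ring)

lemma r0_apply {d : Type} [Fintype d] {W : Type} [AddCommGroup W] [Module F W]
    (ε : d → (J → F) →ₗ[F] F) (π : (J → F) →ₗ[F] W) (β : d → (W →ₗ[F] F)) (y y' : J → F) :
    r0 ε π β y y' = ∑ j, (ε j y * β j (π y') + ε j y' * β j (π y)) := rfl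

/-- **The probability of prescribed rows.** -/
theorem pri (I : Finset J) {d : Type} [Fintype d] (v : d → (J → F)) (hv : LinearIndependent F v)
    (c : d → F) (Δ : Finset J) (E : Sy (J → F) → Prop)
    (hE : ∀ S S', E S → E S' → (∀ k ∈ Δ, S.1 (Pi.single k 1) (Pi.single k 1) =
      S'.1 (Pi.single k 1) (Pi.single k 1)) ∧ ∀ j, ∀ w ∈ vI I,
        S.1 (v j) w + c j * S.1 w w = S'.1 (v j) w + c j * S'.1 w w) :
    fr E ≤ 2 ^ (Fintype.card d * Fintype.card d) /
      (2 ^ (Fintype.card d * I.card) * 2 ^ Δ.card) := by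
  -- the dual functionals
  obtain ⟨T, hT⟩ : ∃ T : (d → F) →ₗ[F] (J → F), ∀ a, T a = ∑ j, a j • v j :=
    ⟨Fintype.linearCombination F v, fun a => by rw [Fintype.linearCombination_apply]⟩
  have hTi : LinearMap.ker T = ⊥ := by
    rw [LinearMap.ker_eq_bot']
    intro a ha
    rw [hT] at ha
    exact funext (Fintype.linearIndependent_iff.1 hv a ha)
  obtain ⟨G, hG⟩ := LinearMap.exists_leftInverse_of_injective T hTi
  have hGv : ∀ j, G (v j) = Pi.single j 1 := by
    intro j
    have h1 : T (Pi.single j 1) = v j := by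
      rw [hT, Finset.sum_eq_single j]
      · rw [Pi.single_eq_same, one_smul]
      · intro i _ hi
        rw [Pi.single_eq_of_ne hi, zero_smul]
      · intro h
        exact absurd (Finset.mem_univ _) h
    rw [← h1]
    exact LinearMap.congr_fun hG _
  let ε : d → (J → F) →ₗ[F] F := fun j => (LinearMap.proj j) ∘ₗ G
  have hε : ∀ j y, ε j y = G y j := fun _ _ => rfl
  -- the complement
  obtain ⟨W, hW⟩ : ∃ W : Submodule F (J → F), W = vI I ⊓ LinearMap.ker G := ⟨_, rfl⟩
  have hWm : ∀ w, w ∈ W ↔ w ∈ vI I ∧ G w = 0 := fun w => by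
    rw [hW]
    exact Iff.rfl
  obtain ⟨π, hπ⟩ := LinearMap.exists_leftInverse_of_injective W.subtype
    (LinearMap.ker_eq_bot.2 W.injective_subtype)
  have hπw : ∀ w (hw : w ∈ W), π w = ⟨w, hw⟩ := fun w hw => LinearMap.congr_fun hπ ⟨w, hw⟩
  have hWr : I.card ≤ Fintype.card d + finrank F W := by
    let G' : vI I →ₗ[F] (d → F) := G ∘ₗ (vI I).subtype
    have h1 := LinearMap.finrank_range_add_finrank_ker G'
    rw [vI_rank] at h1
    have h2 : finrank F (LinearMap.range G') ≤ Fintype.card d := by
      have h3 := Submodule.finrank_le (LinearMap.range G')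
      rwa [finrank_fintype_fun_eq_card] at h3
    have h3 : finrank F (LinearMap.ker G') = finrank F W := by
      refine LinearEquiv.finrank_eq
        { toFun := fun z => ⟨z.1.1, (hWm _).2 ⟨z.1.2, z.2⟩⟩
          map_add' := fun _ _ => rfl
          map_smul' := fun _ _ => rfl
          invFun := fun w => ⟨⟨w.1, ((hWm _).1 w.2).1⟩, ((hWm _).1 w.2).2⟩
          left_inv := fun _ => rfl
          right_inv := fun _ => rfl }
    omega
  -- the group
  have hsy : ∀ (δ : Δ → F) (β : d → (W →ₗ[F] F)), (dq (zx Δ δ) + r0 ε π β) ∈ Sy (J → F) := by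
    intro δ β x y
    show dq (zx Δ δ) x y + r0 ε π β x y = dq (zx Δ δ) y x + r0 ε π β y x
    rw [dq_symm, r0_apply, r0_apply]
    congr 1
    exact Finset.sum_congr rfl fun j _ => add_comm _ _
  let φ : ((Δ → F) × (d → (W →ₗ[F] F))) →+ Sy (J → F) :=
    { toFun := fun h => ⟨dq (zx Δ h.1) + r0 ε π h.2, hsy h.1 h.2⟩
      map_zero' := by
        refine Subtype.ext (LinearMap.ext fun x => LinearMap.ext fun y => ?_)
        show dq (zx Δ 0) x y + r0 ε π 0 x y = 0
        rw [dq_apply, r0_apply]
        have h1 : ∀ k, zx Δ (0 : Δ → F) k = 0 := fun k => by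
          by_cases hk : k ∈ Δ
          · exact zx_of Δ 0 ⟨k, hk⟩
          · exact zx_not Δ 0 hk
        have h2 : ∑ k, zx Δ (0 : Δ → F) k * (x k * y k) = 0 :=
          Finset.sum_eq_zero fun k _ => by rw [h1, zero_mul]
        have h3 : ∑ j : d, (ε j x * (0 : d → (W →ₗ[F] F)) j (π y) +
            ε j y * (0 : d → (W →ₗ[F] F)) j (π x)) = 0 :=
          Finset.sum_eq_zero fun j _ => by
            rw [Pi.zero_apply, LinearMap.zero_apply, LinearMap.zero_apply, mul_zero, mul_zero,
              add_zero]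
        rw [h2, h3, add_zero]
      map_add' := fun a b => by
        refine Subtype.ext (LinearMap.ext fun x => LinearMap.ext fun y => ?_)
        show dq (zx Δ (a.1 + b.1)) x y + r0 ε π (a.2 + b.2) x y =
          (dq (zx Δ a.1) x y + r0 ε π a.2 x y) + (dq (zx Δ b.1) x y + r0 ε π b.2 x y)
        have h1 : zx Δ (a.1 + b.1) = zx Δ a.1 + zx Δ b.1 := by
          funext k
          rw [Pi.add_apply]
          by_cases hk : k ∈ Δ
          · have h2 := zx_of Δ (a.1 + b.1) ⟨k, hk⟩
            have h3 := zx_of Δ a.1 ⟨k, hk⟩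
            have h4 := zx_of Δ b.1 ⟨k, hk⟩
            have h2' : zx Δ (a.1 + b.1) k = (a.1 + b.1) ⟨k, hk⟩ := h2
            have h3' : zx Δ a.1 k = a.1 ⟨k, hk⟩ := h3
            have h4' : zx Δ b.1 k = b.1 ⟨k, hk⟩ := h4
            rw [h2', h3', h4', Pi.add_apply]
          · rw [zx_not Δ _ hk, zx_not Δ _ hk, zx_not Δ _ hk, add_zero]
        have h2 : r0 ε π (a.2 + b.2) x y = r0 ε π a.2 x y + r0 ε π b.2 x y := by
          rw [r0_apply, r0_apply, r0_apply, ← Finset.sum_add_distrib]
          refine Finset.sum_congr rfl fun j _ => ?_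
          rw [Pi.add_apply, LinearMap.add_apply, LinearMap.add_apply]
          ring
        rw [h1, h2, dq_add, LinearMap.add_apply, LinearMap.add_apply]
        ring }
  have hφ : ∀ (S : Sy (J → F)) (h : (Δ → F) × (d → (W →ₗ[F] F))) (x y : J → F),
      (S + φ h).1 x y = S.1 x y + (dq (zx Δ h.1) x y + r0 ε π h.2 x y) := fun _ _ _ _ => rfl
  have halt : ∀ (β : d → (W →ₗ[F] F)) (y : J → F), r0 ε π β y y = 0 := by
    intro β y
    rw [r0_apply]
    exact Finset.sum_eq_zero fun j _ => CharTwo.add_self_eq_zero _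
  have hrow : ∀ (β : d → (W →ₗ[F] F)) (j : d) (w : J → F) (hw : w ∈ W),
      r0 ε π β (v j) w = β j ⟨w, hw⟩ := by
    intro β j w hw
    rw [r0_apply, Finset.sum_eq_single j]
    · rw [hε, hε, hGv, ((hWm w).1 hw).2, Pi.single_eq_same, one_mul, hπw w hw, Pi.zero_apply,
        zero_mul, add_zero]
    · intro i _ hi
      rw [hε, hε, hGv, ((hWm w).1 hw).2, Pi.single_eq_of_ne hi, zero_mul, Pi.zero_apply,
        zero_mul, add_zero]
    · intro h
      exact absurd (Finset.mem_univ _) h
  have key := fr_inj φ E (fun S a b ha hb => by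
    obtain ⟨h1, h2⟩ := hE _ _ ha hb
    have hδ : a.1 = b.1 := by
      funext k
      have h3 := h1 k k.2
      rw [hφ, hφ, halt, halt, dq_single, dq_single, Pi.single_eq_same, mul_one, mul_one, add_zero,
        add_zero, zx_of, zx_of] at h3
      exact add_left_cancel h3
    refine Prod.ext hδ (funext fun j => LinearMap.ext fun w => ?_)
    have h3 := h2 j w.1 ((hWm _).1 w.2).1
    rw [hφ, hφ, hφ, hφ, halt, halt, hrow _ _ _ w.2, hrow _ _ _ w.2, hδ] at h3
    have h4 : a.2 j w - b.2 j w = (S.1 (v j) w.1 + (dq (zx Δ b.1) (v j) w.1 + a.2 j ⟨w.1, w.2⟩) +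
      c j * (S.1 w.1 w.1 + (dq (zx Δ b.1) w.1 w.1 + 0))) - (S.1 (v j) w.1 +
        (dq (zx Δ b.1) (v j) w.1 + b.2 j ⟨w.1, w.2⟩) +
      c j * (S.1 w.1 w.1 + (dq (zx Δ b.1) w.1 w.1 + 0))) := by ring
    rw [h3, sub_self] at h4
    exact sub_eq_zero.1 h4)
  refine key.trans ?_
  have hcard : Nat.card ((Δ → F) × (d → (W →ₗ[F] F))) =
      2 ^ Δ.card * 2 ^ (Fintype.card d * finrank F W) := by
    rw [Nat.card_prod, Nat.card_fun, Nat.card_eq_fintype_card (α := F), ZMod.card,
      Nat.card_eq_fintype_card (α := Δ), Fintype.card_coe, Nat.card_fun, card_mod (W →ₗ[F] F)]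
    have h6 : finrank F (W →ₗ[F] F) = finrank F W := Subspace.dual_finrank_eq
    rw [h6, ← pow_mul, Nat.card_eq_fintype_card, mul_comm (finrank F W)]
  rw [hcard]
  push_cast
  rw [div_le_div_iff₀ (by positivity) (by positivity), one_mul]
  have h5 : (2 : ℝ) ^ (Fintype.card d * I.card) ≤
      2 ^ (Fintype.card d * Fintype.card d) * 2 ^ (Fintype.card d * finrank F W) := by
    rw [← pow_add]
    refine pow_le_pow_right₀ (by norm_num) ?_
    rw [← mul_add]
    exact Nat.mul_le_mul_left _ hWr
  calc (2 : ℝ) ^ (Fintype.card d * I.card) * 2 ^ Δ.card ≤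
      2 ^ (Fintype.card d * Fintype.card d) * 2 ^ (Fintype.card d * finrank F W) * 2 ^ Δ.card :=
        mul_le_mul_of_nonneg_right h5 (by positivity)
    _ = _ := by ring

end pr

end Pool.Agent.L0h2.M
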