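import Pool.Agent.L0h2.M.LM
import Pool.Agent.L0h2.K.Stm

/-!
# Joint law for distinct twists: the statements of the parts
-/

set_option autoImplicit false
set_option linter.unusedVariables false

open scoped Classical

namespace Pool.Agent.L0h2.M

open Finset hiding mk
open Pool.Agent.Y703.CX (sm la jj XX eL zz kk S_SIE)
open Pool.Agent.Y703.CQ (nr sg prs HB S_EQ ext GdA S_SYM S_C2 c2)
open Pool.Agent.R413.SQ (mk Sp In Gd SS S_BIL)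
open Pool.Agent.L0h2.K (qq dR Zc SR Nz cv S_HALk S_BADk S_LOWk eta)

/-- the data: the primes, the different twists and the private classes -/
structure Dm (t : ℕ) (R : Finset ℕ) (T : Fin t → Finset ℕ) (a : ℕ → ℕ) : Prop where
  pr : ∀ r ∈ R, r.Prime ∧ r % 4 = 1
  ne : R.Nonempty
  sub : ∀ l, T l ⊆ R
  inj : Function.Injective T
  lt : ∀ r ∈ R, a r < qq R
  cop : ∀ r ∈ R, Nat.Coprime (a r) (qq R)
  a4 : ∀ r ∈ R, a r % 4 = 1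
  am : ∀ r ∈ R, mk (a r) = 1
  self : ∀ r ∈ R, nr r (a r) = 1
  oth : ∀ r ∈ R, ∀ r' ∈ R, r' ≠ r → nr r' (a r) = 0

/-- the pattern -/
def Pm (t : ℕ) (h : ℕ → ZMod 2) (T : Fin t → Finset ℕ) (b : Fin t → Bool) (S : Finset ℕ) : Prop :=
  ∀ l, (Gd h (S ∪ T l) ↔ b l = true)

/-- the error of the law -/
noncomputable def er (t u Q n : ℕ) : ℝ :=
  n * (KT t * (2 ^ (t * u) / 2 ^ Q)) + t * (4 * 2 ^ u / 2 ^ n)

/-- the count in a box -/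
def S_BOXm (t : ℕ) : Prop := S_EQ → S_LAm t → ∀ (R : Finset ℕ) (T : Fin t → Finset ℕ)
  (h : ℕ → ZMod 2) (b : Fin t → Bool) (ι : Type) [Fintype ι] [LinearOrder ι]
  (J1 JZ I K : Finset ι) (JR : ℕ → Finset ι) (C : ι → Finset ℕ)
  (X : ι → ℕ) (κ : ℝ) (S₀ : Finset ℕ) (u Q : ℕ), 0 ≤ κ →
  (∀ i, (C i).card ≤ X i) → HB J1 C X κ → (∀ u ∈ S₀, (u.Prime ∧ u % 4 = 1) ∧ u ≠ 2) →
  (∀ u ∈ R, (u.Prime ∧ u % 4 = 1) ∧ u ≠ 2) → Disjoint S₀ R → R.Nonempty → (∀ l, T l ⊆ R) →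
  Function.Injective T →
  (∀ i, ∀ p ∈ C i, (p.Prime ∧ p % 4 = 1) ∧ p ≠ 2 ∧ p ∉ S₀ ∧ (i ∈ J1 ↔ mk p = 1)) →
  (∀ i, ∀ p ∈ C i, p ∉ R) → (∀ i, ∀ p ∈ C i, (i ∈ JZ ↔ Zc R p)) →
  (∀ i, ∀ p ∈ C i, ∀ q ∈ C i, ∀ r ∈ R, nr r p = nr r q) →
  JZ ⊆ I → I ⊆ J1 → K ⊆ J1 → Disjoint K I → (∀ k ∈ J1, k ∈ I ∨ k ∈ K) →
  (∀ r ∈ R, ∀ i ∈ JR r, ∀ p ∈ C i, nr r p = 1 ∧ ∀ r' ∈ R, r' ≠ r → nr r' p = 0) →
  (∀ r ∈ R, JR r ⊆ I) → (∀ r ∈ R, Q ≤ (JR r).card) → 1 ≤ Q → S₀.card + R.card ≤ u →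
  (∀ i l, i ≠ l → Disjoint (C i) (C l)) → (∃ i, i ∉ J1) →
  |(((Fintype.piFinset C).filter fun p => Nz R S₀ (univ.image p) ∧
      Pm t h T b (S₀ ∪ univ.image p)).card : ℝ) -
      (∏ l, cv (b l)) * (((Fintype.piFinset C).filter fun p => Nz R S₀ (univ.image p)).card : ℝ)| ≤
    er t u Q K.card *
      (((Fintype.piFinset C).filter fun p => Nz R S₀ (univ.image p)).card : ℝ) +
    2 ^ ((2 * S₀.card + 1) * Fintype.card ι + (prs J1).card) * (κ * ∏ j, (X j : ℝ))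

/-- the regular sets -/
noncomputable def RM (t : ℕ) (R : Finset ℕ) (a : ℕ → ℕ) (X z H k V : ℕ) : Finset (Finset ℕ) :=
  (SR R X).filter fun S => Set.InjOn (jj H) (la z S : Set ℕ) ∧ S.card ≤ k ∧
    (∏ p ∈ sm z S, p) * ∏ p ∈ la z S, XX H (jj H p) ≤ X ∧
    (∀ r ∈ R, (t + 2) * ((sm z S).card + R.card) + 3 * V ≤
      ((la z S).filter fun p => p % qq R = a r).card) ∧
    ∃ p ∈ la z S, mk p ≠ 1

/-- the sum over the boxes -/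
def S_KEYm (t : ℕ) : Prop := S_BIL → S_EQ → S_LAm t → S_BOXm t → ∃ C : ℝ, 1 ≤ C ∧
  ∀ (R : Finset ℕ) (T : Fin t → Finset ℕ) (a : ℕ → ℕ) (h : ℕ → ZMod 2) (b : Fin t → Bool)
  (X z H k V N : ℕ) (κ : ℝ), Dm t R T a → 1 ≤ X → 1 ≤ H → 1 ≤ z →
  0 ≤ κ → C ≤ κ ^ 12 * z → (H : ℝ) * Real.log X < N →
  |(((RM t R a X z H k V).filter fun S => Nz R (sm z S) (la z S) ∧ Pm t h T b S).card : ℝ) -
      (∏ l, cv (b l)) *
        (((RM t R a X z H k V).filter fun S => Nz R (sm z S) (la z S)).card : ℝ)| ≤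
    (KT t + 4 * t) * (1 / 2 : ℝ) ^ V * ((RM t R a X z H k V).card : ℝ) +
    (qq R * N + qq R : ℝ) ^ k * (3 ^ (3 * k ^ 2) * κ) * (X * (1 + Real.log X))

/-- few sets have few large primes in a class -/
def S_FEWm : Prop := S_SIE → ∀ R : Finset ℕ, (∀ r ∈ R, r.Prime ∧ r % 4 = 1) → ∀ (c κ V : ℕ),
  c < qq R → Nat.Coprime c (qq R) → c % 4 = 1 → 1 ≤ κ →
  ∃ (C : ℝ) (X₀ : ℕ), ∀ X : ℕ, X₀ ≤ X →
  (((SR R X).filter fun S => ((la (zz X) S).filter fun p => p % qq R = c).card ≤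
      κ * (sm (zz X) S).card + V).card : ℝ) ≤ C * X * (Real.log X) ^ (-(1 / 2) - eta R : ℝ)

/-- the joint law for the sets of primes -/
def S_DQm : Prop := ∀ (t : ℕ) (R : Finset ℕ) (T : Fin t → Finset ℕ) (a : ℕ → ℕ)
  (h : ℕ → ZMod 2) (b : Fin t → Bool), Dm t R T a → Filter.Tendsto
  (fun X : ℕ => (((SR R X).filter (Pm t h T b)).card : ℝ) / ((SR R X).card : ℝ)) Filter.atTop
  (nhds (∏ l, cv (b l)))

theorem er_bound (t u V : ℕ) : er t u ((t + 1) * u + 2 * V) (u + V) ≤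
    (KT t + 4 * t) * (1 / 2 : ℝ) ^ V := by
  have hK : 0 ≤ KT t := by unfold KT; positivity
  unfold er
  have h1 : (2 : ℝ) ^ (t * u) / 2 ^ ((t + 1) * u + 2 * V) = 1 / (2 ^ (u + V) * 2 ^ V) := by
    rw [div_eq_div_iff (by positivity) (by positivity), one_mul, ← pow_add, ← pow_add]
    congr 1
    ring
  have h2 : (4 : ℝ) * 2 ^ u / 2 ^ (u + V) = 4 * (1 / 2) ^ V := by
    rw [pow_add, one_div_pow]
    field_simp
  have h3 : ((u + V : ℕ) : ℝ) ≤ 2 ^ (u + V) := by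
    exact_mod_cast (Nat.lt_two_pow_self (n := u + V)).le
  rw [h1, h2]
  have h4 : ((u + V : ℕ) : ℝ) * (KT t * (1 / (2 ^ (u + V) * 2 ^ V))) ≤ KT t * (1 / 2) ^ V := by
    calc ((u + V : ℕ) : ℝ) * (KT t * (1 / (2 ^ (u + V) * 2 ^ V))) ≤
        2 ^ (u + V) * (KT t * (1 / (2 ^ (u + V) * 2 ^ V))) :=
          mul_le_mul_of_nonneg_right h3 (by positivity)
      _ = KT t * (1 / 2) ^ V := by
          rw [one_div_pow]
          field_simp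
  calc _ ≤ KT t * (1 / 2) ^ V + t * (4 * (1 / 2 : ℝ) ^ V) := add_le_add h4 le_rfl
    _ = _ := by ring

end Pool.Agent.L0h2.M
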