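import Pool.Agent.L0h2.M.Ch

/-!
# Joint law for distinct twists: the distribution after several steps, and the joint law
-/

set_option autoImplicit false
set_option linter.unusedSectionVars false
set_option linter.unusedVariables false

open scoped Classical

namespace Pool.Agent.L0h2.M

open Function Module
open Pool.Agent.Y759.CX (fr fr_equiv fr_nonneg fr_le_one fr_mono fr_not fr_prod fr_comp fr_exists
  fr_single)
open Pool.Agent.Y703.CQ (S_C2 c2)
open Pool.Agent.L0h2.K (cv cv_nonneg cv_le_one mom)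
open Pool.Agent.Y219.CQ (F Sy Ns sp fr_avg card_mod finSy finHom finHom2 zx zx_of zx_not mf
  mf_apply Gs)

/-- the indicator of zero -/
noncomputable def u0 (r : ℕ) : ℝ := if r = 0 then 1 else 0

/-- the product -/
noncomputable def Pp (N r : ℕ) : ℝ := ∏ i ∈ Finset.range r, (1 - (1 / 2 : ℝ) ^ (N - i))

lemma Pp_zero (N : ℕ) : Pp N 0 = 1 := Finset.prod_range_zero _

lemma Pp_succ (N r : ℕ) : Pp N (r + 1) = Pp N r * (1 - (1 / 2 : ℝ) ^ (N - r)) :=
  Finset.prod_range_succ _ _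

lemma Pp_ss (N r : ℕ) : Pp (N + 1) (r + 1) = (1 - (1 / 2 : ℝ) ^ (N + 1)) * Pp N r := by
  unfold Pp
  rw [Finset.prod_range_succ', mul_comm]
  congr 1
  refine Finset.prod_congr rfl fun i _ => ?_
  rw [Nat.add_sub_add_right]

lemma Pp_big {N r : ℕ} (h : N < r) : Pp N r = 0 := by
  unfold Pp
  refine Finset.prod_eq_zero (Finset.mem_range.2 h) ?_
  rw [Nat.sub_self, pow_zero, sub_self]

lemma pw1 (n : ℕ) : ((1 : ℝ) / 2) ^ n ≤ 1 := pow_le_one₀ (by norm_num) (by norm_num)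

lemma Pp_nonneg (N r : ℕ) : 0 ≤ Pp N r :=
  Finset.prod_nonneg fun i _ => by linarith [pw1 (N - i)]

lemma Pp_le_one (N r : ℕ) : Pp N r ≤ 1 :=
  Finset.prod_le_one (fun i _ => by linarith [pw1 (N - i)]) fun i _ => by
    have : (0 : ℝ) ≤ (1 / 2) ^ (N - i) := by positivity
    linarith

lemma sp_even (a : ℕ) : sp (2 * a) = ∏ i ∈ Finset.range a, (1 - (1 / 2 : ℝ) ^ (2 * i + 1)) := by
  unfold Pool.Agent.Y219.CQ.sp
  rw [show (2 * a + 1) / 2 = a by omega]

lemma sp_odd (a : ℕ) :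
    sp (2 * a + 1) = ∏ i ∈ Finset.range (a + 1), (1 - (1 / 2 : ℝ) ^ (2 * i + 1)) := by
  unfold Pool.Agent.Y219.CQ.sp
  rw [show (2 * a + 1 + 1) / 2 = a + 1 by omega]

lemma sp_pred (a : ℕ) :
    sp (2 * a - 1) = ∏ i ∈ Finset.range a, (1 - (1 / 2 : ℝ) ^ (2 * i + 1)) := by
  unfold Pool.Agent.Y219.CQ.sp
  rw [show (2 * a - 1 + 1) / 2 = a by omega]

lemma spid (n : ℕ) : 2 * sp (n + 1) = sp n + (1 - (1 / 2 : ℝ) ^ n) * sp (n - 1) := by
  obtain ⟨a, ha | ha⟩ := Nat.even_or_odd' n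
  · rw [ha, sp_odd, sp_even, sp_pred, Finset.prod_range_succ]
    ring
  · rw [ha, show 2 * a + 1 + 1 = 2 * (a + 1) by ring, Nat.add_sub_cancel, sp_even, sp_odd, sp_even,
      Finset.prod_range_succ]
    ring

lemma sp_nonneg (n : ℕ) : 0 ≤ sp n :=
  Finset.prod_nonneg fun i _ => by linarith [pw1 (2 * i + 1)]

lemma sp_le_one (n : ℕ) : sp n ≤ 1 :=
  Finset.prod_le_one (fun i _ => by linarith [pw1 (2 * i + 1)]) fun i _ => by
    have : (0 : ℝ) ≤ (1 / 2) ^ (2 * i + 1) := by positivity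
    linarith

/-- the probability of corank zero after `N` steps -/
noncomputable def wN (N r : ℕ) : ℝ := Pp N r * sp (N - r)

lemma Tr_wN (N r : ℕ) : Tr (wN N) r = wN (N + 1) r := by
  unfold Tr wN
  rcases Nat.eq_zero_or_pos r with hr | hr
  · rw [hr, Pp_zero, Pp_zero, pow_zero, Nat.sub_zero, Nat.sub_zero, zero_add, pow_one, Pp_succ,
      Pp_zero, Nat.sub_zero]
    have h := spid N
    linarith
  · obtain ⟨s, rfl⟩ : ∃ s, r = s + 1 := ⟨r - 1, by omega⟩
    rw [Nat.add_sub_cancel, Nat.add_sub_add_right, Pp_ss]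
    by_cases hs : N < s
    · rw [Pp_big hs, Pp_big (show N < s + 1 by omega), Pp_big (show N < s + 1 + 1 by omega)]
      ring
    · obtain ⟨m, rfl⟩ : ∃ m, N = s + m := ⟨N - s, by omega⟩
      rw [Pp_succ (s + m) (s + 1), Pp_succ (s + m) s, Nat.add_sub_cancel_left,
        show s + m - (s + 1) = m - 1 by omega,
        show s + m - (s + 1 + 1) = m - 1 - 1 by omega]
      rcases Nat.eq_zero_or_pos m with hm | hm
      · rw [hm]
        simp only [Nat.add_zero, pow_zero, sub_self, mul_zero, zero_mul]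
        ring
      · obtain ⟨m', rfl⟩ : ∃ m', m = m' + 1 := ⟨m - 1, by omega⟩
        rw [Nat.add_sub_cancel]
        have h := spid m'
        have e1 : ((1 : ℝ) / 2) ^ (s + (m' + 1) + 1) = (1 / 2) ^ (s + 1) * (1 / 2) ^ (m' + 1) := by
          rw [← pow_add]
          congr 1
          ring
        have e2 : ((1 : ℝ) / 2) ^ (s + 1 + 1) = (1 / 2) ^ (s + 1) * (1 / 2) := pow_succ _ _
        rw [e1, e2]
        have e3 : sp m' + (1 - (1 / 2 : ℝ) ^ m') * sp (m' - 1) = 2 * sp (m' + 1) := h.symm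
        calc (1 - (1 / 2 : ℝ) ^ (s + 1)) * (Pp (s + (m' + 1)) s * sp (m' + 1)) +
            (1 / 2) ^ (s + 1) * (1 / 2) * (Pp (s + (m' + 1)) s * (1 - (1 / 2) ^ (m' + 1)) * sp m' +
              Pp (s + (m' + 1)) s * (1 - (1 / 2) ^ (m' + 1)) * (1 - (1 / 2) ^ m') * sp (m' - 1)) =
            (1 - (1 / 2 : ℝ) ^ (s + 1)) * (Pp (s + (m' + 1)) s * sp (m' + 1)) +
            (1 / 2) ^ (s + 1) * (1 / 2) * (Pp (s + (m' + 1)) s * (1 - (1 / 2) ^ (m' + 1)) *
              (sp m' + (1 - (1 / 2 : ℝ) ^ m') * sp (m' - 1))) := by ring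
          _ = _ := by
            rw [e3]
            ring

lemma Tr_iter (N : ℕ) : Tr^[N] u0 = wN N := by
  induction N with
  | zero =>
    funext r
    show u0 r = wN 0 r
    unfold u0 wN
    by_cases hr : r = 0
    · rw [if_pos hr, hr, Pp_zero]
      unfold Pool.Agent.Y219.CQ.sp
      simp
    · rw [if_neg hr, Pp_big (Nat.pos_of_ne_zero hr), zero_mul]
  | succ N ih =>
    rw [Function.iterate_succ_apply', ih]
    funext r
    exact Tr_wN N r

lemma Pp_low (N r : ℕ) : 1 - 2 ^ r / 2 ^ N ≤ Pp N r := by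
  induction r with
  | zero =>
    rw [Pp_zero]
    have : (0 : ℝ) ≤ 2 ^ 0 / 2 ^ N := by positivity
    linarith
  | succ r ih =>
    rw [Pp_succ]
    have h1 := Pp_le_one N r
    have h2 := Pp_nonneg N r
    have h3 : ((1 : ℝ) / 2) ^ (N - r) ≤ 2 ^ r / 2 ^ N ∨ N ≤ r := by
      rcases le_or_gt N r with h | h
      · exact Or.inr h
      · left
        rw [one_div_pow, div_le_div_iff₀ (by positivity) (by positivity), one_mul, ← pow_add]
        exact pow_le_pow_right₀ (by norm_num) (by omega)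
    rcases h3 with h3 | h3
    · have h4 : (0 : ℝ) ≤ (1 / 2) ^ (N - r) := by positivity
      have h5 : (2 : ℝ) ^ (r + 1) / 2 ^ N = 2 ^ r / 2 ^ N + 2 ^ r / 2 ^ N := by
        rw [pow_succ]
        ring
      rw [h5]
      have h6 : Pp N r * (1 / 2) ^ (N - r) ≤ 1 * (1 / 2) ^ (N - r) :=
        mul_le_mul_of_nonneg_right h1 h4
      nlinarith
    · have h4 : (1 : ℝ) ≤ 2 ^ (r + 1) / 2 ^ N := by
        rw [le_div_iff₀ (by positivity), one_mul]
        exact pow_le_pow_right₀ (by norm_num) (by omega)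
      have h5 : 0 ≤ Pp N r * (1 - (1 / 2 : ℝ) ^ (N - r)) :=
        mul_nonneg h2 (by linarith [pw1 (N - r)])
      linarith

lemma wN_c2 (hc2 : S_C2) (N r : ℕ) : |wN N r - c2| ≤ 2 * 2 ^ r / 2 ^ N := by
  have h1 := hc2.2.1
  have h2 := hc2.2.2.1
  rcases lt_or_ge N r with h | h
  · have h3 : wN N r = 0 := by
      unfold wN
      rw [Pp_big h, zero_mul]
    have h4 : (1 : ℝ) ≤ 2 * 2 ^ r / 2 ^ N := by
      rw [le_div_iff₀ (by positivity), one_mul]
      have h5 : (2 : ℝ) ^ N ≤ 2 ^ r := pow_le_pow_right₀ (by norm_num) h.le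
      have h6 : (0 : ℝ) < 2 ^ r := by positivity
      linarith
    rw [h3, zero_sub, abs_neg, abs_of_pos h1]
    linarith
  · have h3 : |sp (N - r) - c2| ≤ 2 ^ r / 2 ^ N := by
      refine (hc2.1 ((N - r + 1) / 2)).trans ?_
      have h4 : (1 / 4 : ℝ) ^ ((N - r + 1) / 2) ≤ (1 / 2) ^ (N - r) := by
        have h2 : (1 / 4 : ℝ) = (1 / 2) ^ 2 := by norm_num
        rw [h2, ← pow_mul]
        exact pow_le_pow_of_le_one (by norm_num) (by norm_num) (by omega)
      refine h4.trans ?_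
      rw [one_div_pow, div_le_div_iff₀ (by positivity) (by positivity), one_mul, ← pow_add]
      exact pow_le_pow_right₀ (by norm_num) (by omega)
    have h4 := Pp_low N r
    have h5 := Pp_le_one N r
    have h6 := sp_nonneg (N - r)
    have h7 := sp_le_one (N - r)
    have h8 : |Pp N r - 1| ≤ 2 ^ r / 2 ^ N := by
      rw [abs_le]
      have h9 : (0 : ℝ) ≤ 2 ^ r / 2 ^ N := by positivity
      constructor <;> linarith
    have h9 : wN N r - c2 = (Pp N r - 1) * sp (N - r) + (sp (N - r) - c2) := by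
      unfold wN
      ring
    rw [h9]
    refine (abs_add_le _ _).trans ?_
    rw [abs_mul, abs_of_nonneg h6]
    have h10 : |Pp N r - 1| * sp (N - r) ≤ 2 ^ r / 2 ^ N :=
      (mul_le_of_le_one_right (abs_nonneg _) h7).trans h8
    have h11 : (2 : ℝ) * 2 ^ r / 2 ^ N = 2 ^ r / 2 ^ N + 2 ^ r / 2 ^ N := by ring
    rw [h11]
    linarith

/-- the function of a value of the pattern -/
noncomputable def ub (b : Bool) (r : ℕ) : ℝ := if b = true then u0 r else 1 - u0 r

lemma u0_01 (r : ℕ) : 0 ≤ u0 r ∧ u0 r ≤ 1 := by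
  unfold u0
  split_ifs <;> norm_num

lemma ub_nonneg (b : Bool) (r : ℕ) : 0 ≤ ub b r := by
  have := u0_01 r
  unfold ub
  split_ifs <;> linarith

lemma ub_le_one (b : Bool) (r : ℕ) : ub b r ≤ 1 := by
  have := u0_01 r
  unfold ub
  split_ifs <;> linarith

lemma Tr_compl (u : ℕ → ℝ) (r : ℕ) : Tr (fun r => 1 - u r) r = 1 - Tr u r := by
  unfold Tr
  have h : (1 / 2 : ℝ) ^ (r + 1) = (1 / 2) ^ r / 2 := by
    rw [pow_succ]
    ring
  rw [h]
  ring

lemma Tr_it_compl (N : ℕ) : ∀ (u : ℕ → ℝ), Tr^[N] (fun r => 1 - u r) = fun r => 1 - (Tr^[N] u) r := by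
  induction N with
  | zero => intro u; rfl
  | succ N ih =>
    intro u
    rw [Function.iterate_succ_apply, Function.iterate_succ_apply]
    have h : Tr (fun r => 1 - u r) = fun r => 1 - Tr u r := funext fun r => Tr_compl u r
    rw [h, ih]

lemma Tr_ub (hc2 : S_C2) (N : ℕ) (b : Bool) (r : ℕ) :
    |(Tr^[N] (ub b)) r - cv b| ≤ 2 * 2 ^ r / 2 ^ N := by
  unfold cv
  cases b
  · have h : ub false = fun r => 1 - u0 r := by
      funext r
      unfold ub
      rw [if_neg (by simp)]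
    rw [h, Tr_it_compl, Tr_iter, if_neg (by simp)]
    have h2 : (1 - wN N r) - (1 - c2) = -(wN N r - c2) := by ring
    show |(1 - wN N r) - (1 - c2)| ≤ _
    rw [h2, abs_neg]
    exact wN_c2 hc2 N r
  · have h : ub true = u0 := by
      funext r
      unfold ub
      rw [if_pos rfl]
    rw [h, Tr_iter, if_pos rfl]
    exact wN_c2 hc2 N r

lemma it_01 (N : ℕ) : ∀ (u : ℕ → ℝ), (∀ r, 0 ≤ u r) → (∀ r, u r ≤ 1) →
    (∀ r, 0 ≤ (Tr^[N] u) r) ∧ ∀ r, (Tr^[N] u) r ≤ 1 := by
  induction N with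
  | zero => intro u h0 h1; exact ⟨h0, h1⟩
  | succ N ih =>
    intro u h0 h1
    rw [Function.iterate_succ_apply]
    exact ih (Tr u) (Tr_nonneg h0) (Tr_le_one h1)

lemma prod_diff {t : ℕ} (a c : Fin t → ℝ) (ha0 : ∀ j, 0 ≤ a j) (ha1 : ∀ j, a j ≤ 1)
    (hc0 : ∀ j, 0 ≤ c j) (hc1 : ∀ j, c j ≤ 1) : |∏ j, a j - ∏ j, c j| ≤ ∑ j, |a j - c j| := by
  have key : ∀ s : Finset (Fin t), |∏ j ∈ s, a j - ∏ j ∈ s, c j| ≤ ∑ j ∈ s, |a j - c j| := by
    intro s
    induction s using Finset.induction_on with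
    | empty => simp
    | insert j s hj ih =>
      rw [Finset.prod_insert hj, Finset.prod_insert hj, Finset.sum_insert hj]
      have h1 : a j * ∏ j ∈ s, a j - c j * ∏ j ∈ s, c j =
          (a j - c j) * ∏ j ∈ s, a j + c j * (∏ j ∈ s, a j - ∏ j ∈ s, c j) := by ring
      rw [h1]
      refine (abs_add_le _ _).trans (add_le_add ?_ ?_)
      · rw [abs_mul]
        refine mul_le_of_le_one_right (abs_nonneg _) ?_
        rw [abs_of_nonneg (Finset.prod_nonneg fun i _ => ha0 i)]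
        exact Finset.prod_le_one (fun i _ => ha0 i) fun i _ => ha1 i
      · rw [abs_mul, abs_of_nonneg (hc0 j)]
        exact (mul_le_of_le_one_left (abs_nonneg _) (hc1 j)).trans ih
  exact key Finset.univ

section law

variable {J : Type} [Fintype J] {t : ℕ} {X : Fin t → Type} [∀ j, AddCommGroup (X j)]
  [∀ j, Module F (X j)] [∀ j, Finite (X j)]

lemma rk_zero (A : ∀ j, X j →ₗ[F] X j →ₗ[F] F) (C : ∀ j, X j →ₗ[F] (J → F) →ₗ[F] F)
    (γ : Fin t → J → F) (j : Fin t) (S : Sy (J → F)) :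
    rk A C γ Finset.univ j S = 0 ↔ Gs (A j) (C j) (S.1 + dq (γ j)) := by
  unfold rk
  rw [Submodule.finrank_eq_zero]
  have hall : ∀ p : X j × (J → F), p ∈ LL (X j) (Finset.univ : Finset J) := fun p k hk =>
    absurd (Finset.mem_univ k) hk
  constructor
  · intro h x y h1 h2
    have h3 : (x, y) ∈ rad (MM A C γ j S) (LL (X j) Finset.univ) := by
      refine ⟨hall _, fun p _ => ?_⟩
      rw [MM_apply]
      have e1 := h1 p.1
      have e2 := h2 p.2
      have e3 : C j x p.2 + (S.1 y p.2 + dq (γ j) y p.2) = 0 := e2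
      show A j x p.1 + C j x p.2 + C j p.1 y + (S.1 y p.2 + dq (γ j) y p.2) = 0
      calc _ = (A j x p.1 + C j p.1 y) + (C j x p.2 + (S.1 y p.2 + dq (γ j) y p.2)) := by ring
        _ = 0 := by rw [e1, e3, add_zero]
    rw [h, Submodule.mem_bot] at h3
    exact ⟨congrArg Prod.fst h3, congrArg Prod.snd h3⟩
  · intro h
    rw [Submodule.eq_bot_iff]
    rintro ⟨x, y⟩ hp
    have h3 := h x y (fun x' => by
      have h4 := hp.2 (x', 0) (hall _)
      rw [MM_apply] at h4
      simp only [map_zero, add_zero] at h4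
      exact h4) (fun y' => by
      have h4 := hp.2 (0, y') (hall _)
      rw [MM_apply] at h4
      simp only [map_zero, LinearMap.zero_apply, zero_add, add_zero] at h4
      exact h4)
    exact Prod.ext h3.1 h3.2

/-- **The joint law.** -/
theorem law (hc2 : S_C2) (A : ∀ j, X j →ₗ[F] X j →ₗ[F] F) (hA : ∀ j x y, A j x y = A j y x)
    (C : ∀ j, X j →ₗ[F] (J → F) →ₗ[F] F) (γ : Fin t → J → F) (I K : Finset J)
    (hKI : Disjoint K I) (hun : ∀ k, k ∈ I ∨ k ∈ K)
    (Q u : ℕ) (hX : ∀ j, Nat.card (X j) ≤ 2 ^ u) (hQ : Q ≤ I.card)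
    (hd : ∀ i l, i ≠ l → Q ≤ (I.filter fun k => γ i k ≠ γ l k).card)
    (hC : ∀ j x, (∀ w ∈ vI I, C j x w = 0) → x = 0) (b : Fin t → Bool) :
    |fr (fun S : Sy (J → F) => ∀ j, (Gs (A j) (C j) (S.1 + dq (γ j)) ↔ b j = true)) -
      ∏ j, cv (b j)| ≤ K.card * (KT t * (2 ^ (t * u) / 2 ^ Q)) + t * (4 * 2 ^ u / 2 ^ K.card) := by
  have hIK : I ∪ K = Finset.univ := by
    ext k
    rw [Finset.mem_union]
    exact ⟨fun _ => Finset.mem_univ _, fun _ => hun k⟩
  have h1 : fr (fun S : Sy (J → F) => ∀ j, (Gs (A j) (C j) (S.1 + dq (γ j)) ↔ b j = true)) =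
      av (fun S : Sy (J → F) => ∏ j, ub (b j) (rk A C γ (I ∪ K) j S)) := by
    rw [← av_fr, hIK]
    congr 1
    funext S
    have h2 : ∀ j, ub (b j) (rk A C γ Finset.univ j S) =
        if (Gs (A j) (C j) (S.1 + dq (γ j)) ↔ b j = true) then (1 : ℝ) else 0 := by
      intro j
      rw [← rk_zero]
      unfold ub u0
      cases b j <;> by_cases h : rk A C γ Finset.univ j S = 0 <;> simp [h]
    rw [Finset.prod_congr rfl fun j _ => h2 j, Finset.prod_ite_zero, Finset.prod_const_one]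
    simp
  have h2 := iter A hA C γ I (KT t * (2 ^ (t * u) / 2 ^ Q)) K hKI (fun I' hI' => gp_bound A hA C γ I' Q u hX
        (hQ.trans (Finset.card_le_card hI'))
        (fun i l hil => (hd i l hil).trans (Finset.card_le_card (Finset.filter_subset_filter _ hI')))
        (fun j x hx => hC j x fun w hw => hx w fun k hk => hw k fun hk' => hk (hI' hk')))
    (fun j => ub (b j)) (fun j => ub_nonneg (b j)) (fun j => ub_le_one (b j))
  have h3 : |av (fun S : Sy (J → F) => ∏ j, (Tr^[K.card] (ub (b j))) (rk A C γ I j S)) -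
      ∏ j, cv (b j)| ≤ t * (4 * 2 ^ u / 2 ^ K.card) := by
    have h4 : ∏ j, cv (b j) = av (fun S : Sy (J → F) => ∏ j, cv (b j)) := (av_const _).symm
    rw [h4]
    have h5 : |av (fun S : Sy (J → F) => ∏ j, (Tr^[K.card] (ub (b j))) (rk A C γ I j S)) -
        av (fun S : Sy (J → F) => ∏ j, cv (b j))| ≤
        av (fun S : Sy (J → F) => ∑ j, 2 * 2 ^ (rk A C γ I j S) / 2 ^ K.card) := by
      refine av_abs fun S => ?_
      refine (prod_diff _ _
        (fun j => (it_01 _ _ (ub_nonneg (b j)) (ub_le_one (b j))).1 _)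
        (fun j => (it_01 _ _ (ub_nonneg (b j)) (ub_le_one (b j))).2 _)
        (fun j => cv_nonneg hc2 _) (fun j => cv_le_one hc2 _)).trans ?_
      exact Finset.sum_le_sum fun j _ => Tr_ub hc2 _ _ _
    refine h5.trans ?_
    have h6 : av (fun S : Sy (J → F) => ∑ j, 2 * 2 ^ (rk A C γ I j S) / 2 ^ K.card) =
        ∑ j, (2 / 2 ^ K.card) * av (fun S : Sy (J → F) => (2 : ℝ) ^ (rk A C γ I j S)) := by
      have := Fintype.ofFinite (Sy (J → F))
      simp only [av_eq]
      rw [Finset.sum_comm, Finset.sum_div]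
      refine Finset.sum_congr rfl fun j _ => ?_
      rw [← mul_div_assoc, Finset.mul_sum]
      congr 1
      exact Finset.sum_congr rfl fun S _ => by ring
    rw [h6]
    have h7 : ∀ j, (2 / 2 ^ K.card) * av (fun S : Sy (J → F) => (2 : ℝ) ^ (rk A C γ I j S)) ≤
        4 * 2 ^ u / 2 ^ K.card := by
      intro j
      have h8 := tail A hA C γ I j (hC j)
      have h9 : (Nat.card (X j) : ℝ) ≤ 2 ^ u := by exact_mod_cast hX j
      have h10 : (1 : ℝ) ≤ 2 ^ u := one_le_pow₀ (by norm_num)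
      calc (2 / 2 ^ K.card) * av (fun S : Sy (J → F) => (2 : ℝ) ^ (rk A C γ I j S)) ≤
          (2 / 2 ^ K.card) * (2 * 2 ^ u) :=
            mul_le_mul_of_nonneg_left (by linarith) (by positivity)
        _ = _ := by ring
    refine (Finset.sum_le_sum fun j _ => h7 j).trans (le_of_eq ?_)
    rw [Finset.sum_const, Finset.card_univ, Fintype.card_fin, nsmul_eq_mul]
  rw [h1]
  have h4 : av (fun S : Sy (J → F) => ∏ j, ub (b j) (rk A C γ (I ∪ K) j S)) - ∏ j, cv (b j) =
      (av (fun S : Sy (J → F) => ∏ j, ub (b j) (rk A C γ (I ∪ K) j S)) -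
        av (fun S : Sy (J → F) => ∏ j, (Tr^[K.card] (ub (b j))) (rk A C γ I j S))) +
      (av (fun S : Sy (J → F) => ∏ j, (Tr^[K.card] (ub (b j))) (rk A C γ I j S)) -
        ∏ j, cv (b j)) := by ring
  rw [h4]
  exact (abs_add_le _ _).trans (add_le_add h2 h3)

end law

end Pool.Agent.L0h2.M
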